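import Mathlib

/-!
# Row Bi: the middle binomial coefficient (Mathlib only)

Proofs. `central_up`: `C(2m,m)^2 (2m+1) ≤ 16^m` by induction: with
`(m + 1) * centralBinom (m + 1) = 2 * (2 * m + 1) * centralBinom m`
(`Nat.succ_mul_centralBinom_succ`) the step is `4 (2m+1) (2m+3) ≤ 16 (m+1)^2`.
`central_low`: `16^m ≤ C(2m,m)^2 * (4 m)` for `m ≥ 1` by induction (`m = 1`: `16 ≤ 4 * 4`): the step is
`16 * m * (m + 1) ≤ 4 (2m+1)^2`.
`Cn_up`, `Cn_low`: `n = 2m`: `n / 2 = m`, `2 ^ n = 4 ^ m`. `n = 2m+1`: `n / 2 = m` and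
`2 * C(2m+1, m) = C(2m+2, m+1)` (`Nat.choose_succ_succ`, `Nat.choose_symm_half`).
`choose_up`: `k0 = (n + 1) / 2`; `C(n, k0) = C(n, n / 2)` (`Nat.choose_symm`). For `j ≥ 0`:
`C(n, k0 + j + 1) (k0 + j + 1) = C(n, k0 + j) (n - k0 - j)` (`Nat.choose_succ_right_eq`), so
`C(n, k0 + j + 1) ≤ C(n, k0 + j) exp (-(2 j + 1) / n)`: if `n - k0 - j = 0` (in ℕ) the left side is
`0`; otherwise `(n - k0 - j) / (k0 + j + 1) ≤ (n / 2 - j) / (n / 2 + j + 1) = 1 - (2 j + 1) /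
(n / 2 + j + 1) ≤ 1 - (2 j + 1) / n ≤ exp (-(2 j + 1) / n)` (real numbers; `j + 1 ≤ n / 2`). By
induction `C(n, k0 + i) ≤ exp (-(i ^ 2 / n)) C(n, k0)`. From `n + 2 h ≤ 2 k`: `k = k0 + i`, `h ≤ i`.
-/

set_option autoImplicit false

namespace Pool.Agent.H15.AA

theorem central_up (m : ℕ) : (Nat.centralBinom m) ^ 2 * (2 * m + 1) ≤ 16 ^ m := by
  induction m with
  | zero => simp
  | succ m ih =>
    have h := Nat.succ_mul_centralBinom_succ m
    have h1 : (m + 1) ^ 2 * ((Nat.centralBinom (m + 1)) ^ 2 * (2 * (m + 1) + 1)) ≤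
        (m + 1) ^ 2 * 16 ^ (m + 1) := by
      calc (m + 1) ^ 2 * ((Nat.centralBinom (m + 1)) ^ 2 * (2 * (m + 1) + 1))
          = ((m + 1) * Nat.centralBinom (m + 1)) ^ 2 * (2 * (m + 1) + 1) := by ring
        _ = (2 * (2 * m + 1) * Nat.centralBinom m) ^ 2 * (2 * (m + 1) + 1) := by rw [h]
        _ = (4 * (2 * m + 1) * (2 * m + 3)) * ((Nat.centralBinom m) ^ 2 * (2 * m + 1)) := by ring
        _ ≤ (4 * (2 * m + 1) * (2 * m + 3)) * 16 ^ m := Nat.mul_le_mul_left _ ih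
        _ ≤ (16 * (m + 1) ^ 2) * 16 ^ m := Nat.mul_le_mul_right _ (by nlinarith)
        _ = (m + 1) ^ 2 * 16 ^ (m + 1) := by ring
    exact Nat.le_of_mul_le_mul_left h1 (by positivity)

theorem central_low {m : ℕ} (hm : 1 ≤ m) : 16 ^ m ≤ (Nat.centralBinom m) ^ 2 * (4 * m) := by
  induction m, hm using Nat.le_induction with
  | base => simp [Nat.centralBinom, Nat.choose]
  | succ m hm ih =>
    have h := Nat.succ_mul_centralBinom_succ m
    have h1 : (m + 1) ^ 2 * m * 16 ^ (m + 1) ≤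
        (m + 1) ^ 2 * m * ((Nat.centralBinom (m + 1)) ^ 2 * (4 * (m + 1))) := by
      calc (m + 1) ^ 2 * m * 16 ^ (m + 1) = (16 * m * (m + 1)) * ((m + 1) * 16 ^ m) := by ring
        _ ≤ (4 * (2 * m + 1) ^ 2) * ((m + 1) * ((Nat.centralBinom m) ^ 2 * (4 * m))) :=
            Nat.mul_le_mul (by nlinarith) (Nat.mul_le_mul_left _ ih)
        _ = (2 * (2 * m + 1) * Nat.centralBinom m) ^ 2 * (4 * m * (m + 1)) := by ring
        _ = ((m + 1) * Nat.centralBinom (m + 1)) ^ 2 * (4 * m * (m + 1)) := by rw [h]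
        _ = (m + 1) ^ 2 * m * ((Nat.centralBinom (m + 1)) ^ 2 * (4 * (m + 1))) := by ring
    exact Nat.le_of_mul_le_mul_left h1 (by positivity)

theorem Bi_odd (m : ℕ) : 2 * (2 * m + 1).choose m = Nat.centralBinom (m + 1) := by
  rw [Nat.centralBinom, show 2 * (m + 1) = (2 * m + 1) + 1 by ring, Nat.choose_succ_succ,
    Nat.choose_symm_half]
  ring

theorem Cn_up (n : ℕ) : (n.choose (n / 2)) ^ 2 * (n + 1) ≤ (2 ^ n) ^ 2 := by
  rcases Nat.even_or_odd' n with ⟨m, rfl | rfl⟩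
  · have h1 : 2 * m / 2 = m := by omega
    have h2 := central_up m
    rw [h1]
    calc ((2 * m).choose m) ^ 2 * (2 * m + 1) ≤ 16 ^ m := h2
      _ = (2 ^ (2 * m)) ^ 2 := by rw [← pow_mul, show 2 * m * 2 = 4 * m by ring, pow_mul]; norm_num
  · have h1 : (2 * m + 1) / 2 = m := by omega
    have h2 := central_up (m + 1)
    rw [h1]
    rw [← Bi_odd] at h2
    have h3 : (16 : ℕ) ^ (m + 1) = 4 * (2 ^ (2 * m + 1)) ^ 2 := by
      have h5 : (2 : ℕ) ^ (4 * m + 2) = 16 ^ m * 4 := by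
        rw [pow_add, pow_mul]
        norm_num
      rw [← pow_mul, show (2 * m + 1) * 2 = 4 * m + 2 by ring, h5, pow_succ]
      ring
    rw [h3] at h2
    nlinarith [Nat.zero_le (((2 * m + 1).choose m) ^ 2)]

theorem Cn_low {n : ℕ} (hn : 1 ≤ n) : (2 ^ n) ^ 2 ≤ (n.choose (n / 2)) ^ 2 * (2 * (n + 1)) := by
  rcases Nat.even_or_odd' n with ⟨m, rfl | rfl⟩
  · have h1 : 2 * m / 2 = m := by omega
    have h2 := central_low (show 1 ≤ m by omega)
    rw [h1]
    calc (2 ^ (2 * m)) ^ 2 = 16 ^ m := by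
          rw [← pow_mul, show 2 * m * 2 = 4 * m by ring, pow_mul]; norm_num
      _ ≤ ((2 * m).choose m) ^ 2 * (4 * m) := h2
      _ ≤ ((2 * m).choose m) ^ 2 * (2 * (2 * m + 1)) := Nat.mul_le_mul_left _ (by omega)
  · have h1 : (2 * m + 1) / 2 = m := by omega
    have h2 := central_low (show 1 ≤ m + 1 by omega)
    rw [h1]
    rw [← Bi_odd] at h2
    have h3 : (16 : ℕ) ^ (m + 1) = 4 * (2 ^ (2 * m + 1)) ^ 2 := by
      have h5 : (2 : ℕ) ^ (4 * m + 2) = 16 ^ m * 4 := by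
        rw [pow_add, pow_mul]
        norm_num
      rw [← pow_mul, show (2 * m + 1) * 2 = 4 * m + 2 by ring, h5, pow_succ]
      ring
    rw [h3] at h2
    have h4 : (2 * (2 * m + 1).choose m) ^ 2 * (4 * (m + 1)) =
        4 * (((2 * m + 1).choose m) ^ 2 * (2 * (2 * m + 1 + 1))) := by ring
    rw [h4] at h2
    exact Nat.le_of_mul_le_mul_left h2 (by norm_num)

theorem Bi_step {n q j : ℕ} (hq : n + 2 * j ≤ 2 * q) :
    (n.choose (q + 1) : ℝ) ≤ Real.exp (-((2 * (j : ℝ) + 1) / n)) * n.choose q := by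
  rcases Nat.lt_or_ge q n with h | h
  · have h1 := Nat.choose_succ_right_eq n q
    have h2 : (n.choose (q + 1) : ℝ) * (q + 1) = n.choose q * (n - q) := by
      have h3 : ((n.choose (q + 1) * (q + 1) : ℕ) : ℝ) = ((n.choose q * (n - q) : ℕ) : ℝ) := by
        rw [h1]
      push_cast [Nat.cast_sub h.le] at h3
      exact h3
    have hn0 : (0 : ℝ) < n := by
      have : 0 < n := by omega
      exact_mod_cast this
    have hq0 : (0 : ℝ) < (q : ℝ) + 1 := by positivity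
    have hq' : (n : ℝ) + 2 * j ≤ 2 * q := by exact_mod_cast hq
    have hqn : (q : ℝ) + 1 ≤ n := by exact_mod_cast h
    have hj0 : (0 : ℝ) ≤ j := Nat.cast_nonneg j
    have hc0 : (0 : ℝ) ≤ n.choose q := Nat.cast_nonneg _
    have h4 : ((n : ℝ) - q) ≤ (q + 1) * (1 - (2 * (j : ℝ) + 1) / n) := by
      have h5 : (q + 1) * (1 - (2 * (j : ℝ) + 1) / n) = ((q + 1) * (n - (2 * (j : ℝ) + 1))) / n := by
        field_simp
      rw [h5, le_div_iff₀ hn0]
      nlinarith [mul_nonneg hn0.le (sub_nonneg.2 hq'), mul_nonneg (sub_nonneg.2 hqn) (by linarith : 0 ≤ 2 * (j : ℝ) + 1)]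
    have h6 : 1 - (2 * (j : ℝ) + 1) / n ≤ Real.exp (-((2 * (j : ℝ) + 1) / n)) := by
      have := Real.add_one_le_exp (-((2 * (j : ℝ) + 1) / n))
      linarith
    have h7 : (n.choose (q + 1) : ℝ) * (q + 1) ≤
        Real.exp (-((2 * (j : ℝ) + 1) / n)) * n.choose q * (q + 1) := by
      rw [h2]
      calc (n.choose q : ℝ) * (n - q) ≤ n.choose q * ((q + 1) * (1 - (2 * (j : ℝ) + 1) / n)) :=
            mul_le_mul_of_nonneg_left h4 hc0
        _ ≤ n.choose q * ((q + 1) * Real.exp (-((2 * (j : ℝ) + 1) / n))) :=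
            mul_le_mul_of_nonneg_left (mul_le_mul_of_nonneg_left h6 hq0.le) hc0
        _ = Real.exp (-((2 * (j : ℝ) + 1) / n)) * n.choose q * (q + 1) := by ring
    exact le_of_mul_le_mul_right h7 hq0
  · rw [Nat.choose_eq_zero_of_lt (by omega), Nat.cast_zero]
    positivity

theorem Bi_ind (n i : ℕ) : (n.choose ((n + 1) / 2 + i) : ℝ) ≤
    Real.exp (-((i : ℝ) ^ 2 / n)) * n.choose ((n + 1) / 2) := by
  induction i with
  | zero => simp
  | succ i ih =>
    have h1 := Bi_step (n := n) (q := (n + 1) / 2 + i) (j := i) (by omega)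
    calc (n.choose ((n + 1) / 2 + (i + 1)) : ℝ)
        ≤ Real.exp (-((2 * (i : ℝ) + 1) / n)) * n.choose ((n + 1) / 2 + i) := h1
      _ ≤ Real.exp (-((2 * (i : ℝ) + 1) / n)) *
          (Real.exp (-((i : ℝ) ^ 2 / n)) * n.choose ((n + 1) / 2)) :=
          mul_le_mul_of_nonneg_left ih (Real.exp_pos _).le
      _ = Real.exp (-(((i + 1 : ℕ) : ℝ) ^ 2 / n)) * n.choose ((n + 1) / 2) := by
          rw [← mul_assoc, ← Real.exp_add]
          congr 2
          push_cast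
          ring

theorem choose_up {n h k : ℕ} (hk : n + 2 * h ≤ 2 * k) :
    (n.choose k : ℝ) ≤ Real.exp (-((h : ℝ) ^ 2 / n)) * n.choose (n / 2) := by
  obtain ⟨i, rfl⟩ : ∃ i, k = (n + 1) / 2 + i := ⟨k - (n + 1) / 2, by omega⟩
  have hi : h ≤ i := by omega
  have h1 : n.choose ((n + 1) / 2) = n.choose (n / 2) := by
    have h2 : (n + 1) / 2 = n - n / 2 := by omega
    rw [h2]
    exact Nat.choose_symm (Nat.div_le_self n 2)
  have h3 := Bi_ind n i
  rw [h1] at h3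
  refine h3.trans (mul_le_mul_of_nonneg_right ?_ (Nat.cast_nonneg _))
  apply Real.exp_le_exp.2
  apply neg_le_neg
  have h4 : (h : ℝ) ≤ i := by exact_mod_cast hi
  gcongr

end Pool.Agent.H15.AA
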