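import Pool.Agent.H15.AA.Defs

/-!
# Row Ca: the pairs that describe a family

Proofs. `exists_S`: among the `S` with `∀ p ∈ S, priv A p.1 p.2` and
`S.card * d + (Dst V S).card ≤ V.card` (`S = ∅` is one: `Dst V ∅ = V`) take one of maximal size
(`Finset.exists_max_image` over a filter of `univ`). If `priv A X z` and more than `d` (so at least
`1`) of the `Y ∈ Dst V S` have `z ∈ Y`, `Y ⊂ X`, then `(X, z) ∉ S` (otherwise such a `Y` would be
excluded), and `S' = insert (X, z) S` has `Dst V S' = Dst V S` minus these `Y`, so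
`S'.card * d + (Dst V S').card ≤ (S.card + 1) * d + (Dst V S).card - d ≤ V.card`: contradiction.
`mem_Dst`: if `p ∈ S`, `p.2 ∈ Y ⊂ p.1` and `Y ∈ A` then `Y = p.1` by `priv`, contradiction.
`exists_priv`: otherwise for every `z ∈ X` there is `Y ∈ A` with `z ∈ Y ⊆ X`, and `X` is the union of
these (a nonempty finite union of members is a member: prove `sup_mem`: for a nonempty finset
`D ⊆ A`, `D.sup id ∈ A`, by `Finset.Nonempty.cons_induction` or `Finset.sup'`/`Finset.sup_mem`-like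
induction), so `X ∈ A`.
`gen_inj`: by symmetry it suffices that `X ∈ A`, `X ≠ ∅` implies `X ∈ B`: by strong induction on
`X.card`, every nonempty `X ∈ A` is the union of the members of `gen A` inside `X`: if
`X ∈ gen A` clear; otherwise for every `z ∈ X` there is `Y ∈ A`, `z ∈ Y ⊆ X`, `Y ≠ X`, and by
induction `z` lies in a member of `gen A` inside `Y`. So (by `h`) `X` is the union of members of
`gen B ⊆ B`, a nonempty family, so `X ∈ B` by `sup_mem`.
-/

set_option autoImplicit false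

open Finset

namespace Pool.Agent.H15.AA

variable {n : ℕ}

theorem exists_S (A V : Finset (Finset (Fin n))) (d : ℕ) :
    ∃ S : Finset (Finset (Fin n) × Fin n), S.card * d ≤ V.card ∧ (∀ p ∈ S, priv A p.1 p.2) ∧
      ∀ X z, priv A X z → ((Dst V S).filter fun Y => z ∈ Y ∧ Y ⊂ X).card ≤ d := by
  classical
  have hne : ((univ : Finset (Finset (Finset (Fin n) × Fin n))).filter fun S =>
      (∀ p ∈ S, priv A p.1 p.2) ∧ S.card * d + (Dst V S).card ≤ V.card).Nonempty := by
    refine ⟨∅, Finset.mem_filter.2 ⟨Finset.mem_univ _, by simp, ?_⟩⟩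
    simp [Dst]
  obtain ⟨S, hS, hmax⟩ := Finset.exists_max_image _ (fun S => S.card) hne
  rw [Finset.mem_filter] at hS
  obtain ⟨-, hS1, hS2⟩ := hS
  refine ⟨S, by omega, hS1, fun X z hXz => ?_⟩
  by_contra hcon
  push Not at hcon
  have hFne : ((Dst V S).filter fun Y => z ∈ Y ∧ Y ⊂ X).Nonempty :=
    Finset.card_pos.1 (by omega)
  have hnot : (X, z) ∉ S := by
    intro hmem
    obtain ⟨Y, hY⟩ := hFne
    rw [Finset.mem_filter, Dst, Finset.mem_filter] at hY
    exact hY.1.2 (X, z) hmem hY.2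
  have hsub : Dst V (insert (X, z) S) ⊆ (Dst V S) \ ((Dst V S).filter fun Y => z ∈ Y ∧ Y ⊂ X) := by
    intro Y hY
    rw [Dst, Finset.mem_filter] at hY
    rw [Finset.mem_sdiff]
    refine ⟨Finset.mem_filter.2 ⟨hY.1, fun p hp => hY.2 p (Finset.mem_insert_of_mem hp)⟩, ?_⟩
    intro hY2
    rw [Finset.mem_filter] at hY2
    exact hY.2 (X, z) (Finset.mem_insert_self _ _) hY2.2
  have h1 := Finset.card_le_card hsub
  rw [Finset.card_sdiff_of_subset (Finset.filter_subset _ _)] at h1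
  have h2 : ((Dst V S).filter fun Y => z ∈ Y ∧ Y ⊂ X).card ≤ (Dst V S).card :=
    Finset.card_le_card (Finset.filter_subset _ _)
  have h3 : (insert (X, z) S).card = S.card + 1 := Finset.card_insert_of_notMem hnot
  have h4 := hmax (insert (X, z) S) (by
    rw [Finset.mem_filter]
    refine ⟨Finset.mem_univ _, fun p hp => ?_, ?_⟩
    · rw [Finset.mem_insert] at hp
      rcases hp with rfl | hp
      · exact hXz
      · exact hS1 p hp
    · rw [h3, Nat.add_mul, one_mul]
      omega)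
  rw [h3] at h4
  omega

theorem mem_Dst {A V : Finset (Finset (Fin n))} {S : Finset (Finset (Fin n) × Fin n)}
    (hS : ∀ p ∈ S, priv A p.1 p.2) {Y : Finset (Fin n)} (hA : Y ∈ A) (hV : Y ∈ V) : Y ∈ Dst V S := by
  rw [Dst, Finset.mem_filter]
  refine ⟨hV, fun p hp h => ?_⟩
  exact h.2.ne ((hS p hp).2 Y hA h.1 h.2.subset)

theorem sup_mem {A D : Finset (Finset (Fin n))} (hA : UC A) (hD : D ⊆ A) (h : D.Nonempty) :
    D.sup id ∈ A := by
  classical
  induction h using Finset.Nonempty.cons_induction with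
  | singleton a =>
    rw [Finset.sup_singleton]
    exact hD (Finset.mem_singleton_self a)
  | cons a s ha hs ih =>
    rw [Finset.sup_cons]
    exact hA _ (hD (Finset.mem_cons_self a s)) _
      (ih fun Y hY => hD (Finset.mem_cons_of_mem hY))

theorem Ca_union {A : Finset (Finset (Fin n))} (hA : UC A) {X : Finset (Fin n)} (h0 : X.Nonempty)
    (h : ∀ z ∈ X, ∃ Y ∈ A, z ∈ Y ∧ Y ⊆ X) : X ∈ A := by
  have hne : (A.filter fun Y => Y ⊆ X).Nonempty := by
    obtain ⟨z, hz⟩ := h0
    obtain ⟨Y, hY, _, hYX⟩ := h z hz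
    exact ⟨Y, Finset.mem_filter.2 ⟨hY, hYX⟩⟩
  have h1 := sup_mem hA (Finset.filter_subset _ _) hne
  have h2 : (A.filter fun Y => Y ⊆ X).sup id = X := by
    refine le_antisymm (Finset.sup_le fun Y hY => (Finset.mem_filter.1 hY).2) ?_
    intro z hz
    obtain ⟨Y, hY, hzY, hYX⟩ := h z hz
    exact Finset.mem_sup.2 ⟨Y, Finset.mem_filter.2 ⟨hY, hYX⟩, hzY⟩
  rwa [h2] at h1

theorem exists_priv {A : Finset (Finset (Fin n))} (hA : UC A) {X : Finset (Fin n)} (hX : X ∉ A)
    (h0 : X.Nonempty) : ∃ z, priv A X z := by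
  by_contra hcon
  push Not at hcon
  refine hX (Ca_union hA h0 fun z hz => ?_)
  have h1 := hcon z
  unfold priv at h1
  push Not at h1
  obtain ⟨Y, hY, hzY, hYX, _⟩ := h1 hz
  exact ⟨Y, hY, hzY, hYX⟩

theorem Ca_cover {A : Finset (Finset (Fin n))} (N : ℕ) : ∀ X ∈ A, X.card ≤ N → ∀ z ∈ X,
    ∃ Y ∈ gen A, z ∈ Y ∧ Y ⊆ X := by
  induction N with
  | zero =>
    intro X _ hX z hz
    have : 0 < X.card := Finset.card_pos.2 ⟨z, hz⟩
    omega
  | succ N ih =>
    intro X hXA hX z hz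
    by_cases hp : priv A X z
    · exact ⟨X, Finset.mem_filter.2 ⟨hXA, z, hp⟩, hz, Finset.Subset.refl _⟩
    · unfold priv at hp
      push Not at hp
      obtain ⟨Y, hY, hzY, hYX, hne⟩ := hp hz
      have hlt : Y.card < X.card := Finset.card_lt_card (hYX.ssubset_of_ne hne)
      obtain ⟨Y', h1, h2, h3⟩ := ih Y hY (by omega) z hzY
      exact ⟨Y', h1, h2, h3.trans hYX⟩

theorem Ca_sub {A B : Finset (Finset (Fin n))} (hB : UC B) (h : gen A = gen B)
    (h0 : ∅ ∈ A ↔ ∅ ∈ B) : A ⊆ B := by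
  intro X hX
  rcases X.eq_empty_or_nonempty with rfl | hne
  · exact h0.1 hX
  · refine Ca_union hB hne fun z hz => ?_
    obtain ⟨Y, hY, hzY, hYX⟩ := Ca_cover X.card X hX le_rfl z hz
    rw [h] at hY
    exact ⟨Y, (Finset.mem_filter.1 hY).1, hzY, hYX⟩

theorem gen_inj {A B : Finset (Finset (Fin n))} (hA : UC A) (hB : UC B) (h : gen A = gen B)
    (h0 : ∅ ∈ A ↔ ∅ ∈ B) : A = B :=
  (Ca_sub hB h h0).antisymm (Ca_sub hA h.symm h0.symm)

end Pool.Agent.H15.AA
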