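import Pool.Agent.H15.AA.Wd
import Pool.Agent.H15.AA.Ca

/-!
# Row Cb: the container

Proof of `container`: `S` from `exists_S` with `V = win n w`. For `X ∈ win n w` with `priv A X z`:
`nxt_le` with `l0 = (n + 1) / 2 - w` (natural numbers; a set of size `a` is in `win n w` iff
`n ≤ 2 a + 2 w` and `2 a ≤ n + 2 w`, so `l0 ≤ a`, `a - l0 ≤ 2 w`, and `4 a ≥ n` because `4 w ≤ n`) gives
`nxt (Dst V S) X ≤ (d + 2 w) / a ≤ 4 (d + 2 w) / n ≤ ε` (every member of `Dst V S` is in `V`). A member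
of `gen A` has such a `z` and is in `Dst V S` by `mem_Dst`; a `Z ∈ win n w`, `Z ∉ A` is nonempty
(`0 < n ≤ 4 a`) and has such a `z` by `exists_priv`.
`Kst_card`: let `K = Kst V S ε`, `K₁` its members with fewer than `l` elements, `K₂` the others,
`C = n.choose (n / 2)`. For `X ∈ K`, `nxt K X ≤ nxt (Dst V S) X ≤ ε` (`nxt_mono`), same for `K₁`, `K₂`.
`vw_le` and `hits_le_one`: `vw K univ ≤ 1 / (1 - ε)`. For `Z ∈ T`: `Z ∉ K₁`, so `hits K₁ Z = nxt K₁ Z ≤
nxt (Dst V S) Z ≤ ε`; `hits_avoid`: `hits K₁ univ ≤ 1 - h + ε`, and `vw_le`: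
`vw K₁ univ ≤ (1 - h + ε) / (1 - ε)`. By `vw_univ` and `n.choose k ≤ C` (`Nat.choose_le_middle`)
`K₁.card ≤ C * vw K₁ univ`, and by `hup`, `K₂.card ≤ (1 - c) C * vw K₂ univ` (a set of `Fin n` has at
most `n` elements, so its `n.choose _` is positive). As `vw K univ = vw K₁ univ + vw K₂ univ`:
`K.card ≤ C ((1 - c) vw K univ + c vw K₁ univ)`. Multiply by `1 - ε > 0`.
-/

set_option autoImplicit false

open Finset

namespace Pool.Agent.H15.AA

variable {n : ℕ}

theorem container {A : Finset (Finset (Fin n))} (hA : UC A) {w d : ℕ} {ε : ℝ} (hn : 0 < n)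
    (hw : 4 * w ≤ n) (hε : 4 * ((d : ℝ) + 2 * w) ≤ ε * n) :
    ∃ S : Finset (Finset (Fin n) × Fin n), S.card * d ≤ 2 ^ n ∧
      (∀ X ∈ gen A, X ∈ win n w → X ∈ Kst (win n w) S ε) ∧
      ∀ Z ∈ win n w, Z ∉ A → nxt (Dst (win n w) S) Z ≤ ε := by
  classical
  obtain ⟨S, hS1, hS2, hS3⟩ := exists_S A (win n w) d
  have hnR : (0 : ℝ) < n := by exact_mod_cast hn
  have hε0 : 0 ≤ ε := by
    by_contra hcon
    push Not at hcon
    have h1 : ε * n < 0 := mul_neg_of_neg_of_pos hcon hnR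
    have h2 : (0 : ℝ) ≤ 4 * ((d : ℝ) + 2 * w) := by positivity
    linarith
  have hwin : ∀ X ∈ win n w, n ≤ 2 * X.card + 2 * w ∧ 2 * X.card ≤ n + 2 * w := fun X hX =>
    (Finset.mem_filter.1 hX).2
  have key : ∀ X ∈ win n w, ∀ z, priv A X z → nxt (Dst (win n w) S) X ≤ ε := by
    intro X hX z hz
    obtain ⟨h1, h2⟩ := hwin X hX
    have hl : (n + 1) / 2 - w ≤ X.card := by omega
    have hS : ∀ Y ∈ Dst (win n w) S, (n + 1) / 2 - w ≤ Y.card := by
      intro Y hY
      have h3 := (hwin Y (Finset.mem_filter.1 hY).1).1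
      omega
    have h4 := nxt_le hz.1 hl hS (hS3 X z hz)
    have h5 : X.card ≤ ((n + 1) / 2 - w) + 2 * w := by omega
    have h5' : (X.card : ℝ) ≤ (((n + 1) / 2 - w : ℕ) : ℝ) + 2 * w := by exact_mod_cast h5
    have h6 : n ≤ 4 * X.card := by omega
    have h6' : (n : ℝ) ≤ 4 * X.card := by exact_mod_cast h6
    have h7 : (0 : ℝ) < X.card := by linarith
    refine h4.trans ?_
    rw [div_le_iff₀ h7]
    have h8 := mul_le_mul_of_nonneg_left h6' hε0
    linarith
  refine ⟨S, ?_, ?_, ?_⟩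
  · refine hS1.trans ?_
    have h1 := Finset.card_le_univ (win n w)
    rwa [Fintype.card_finset, Fintype.card_fin] at h1
  · intro X hX hXw
    obtain ⟨hXA, z, hz⟩ := Finset.mem_filter.1 hX
    unfold Kst
    rw [Finset.mem_filter]
    exact ⟨mem_Dst hS2 hXA hXw, key X hXw z hz⟩
  · intro Z hZ hZA
    have hne : Z.Nonempty := by
      obtain ⟨h1, h2⟩ := hwin Z hZ
      exact Finset.card_pos.1 (by omega)
    obtain ⟨z, hz⟩ := exists_priv hA hZA hne
    exact key Z hZ z hz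

theorem Kst_card {V T : Finset (Finset (Fin n))} {S : Finset (Finset (Fin n) × Fin n)} {l : ℕ}
    {ε c h : ℝ} (h0 : 0 ≤ ε) (h1 : ε < 1) (hc0 : 0 ≤ c) (hc1 : c ≤ 1)
    (hT : ∀ Z ∈ T, l ≤ Z.card ∧ nxt (Dst V S) Z ≤ ε) (hh : h ≤ hits T univ)
    (hup : ∀ k, l ≤ k → (n.choose k : ℝ) ≤ (1 - c) * n.choose (n / 2)) :
    ((Kst V S ε).card : ℝ) * (1 - ε) ≤ (1 - c * h + c * ε) * n.choose (n / 2) := by
  classical
  have hKD : Kst V S ε ⊆ Dst V S := by
    unfold Kst
    exact Finset.filter_subset _ _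
  have hKn : ∀ X ∈ Kst V S ε, nxt (Dst V S) X ≤ ε := by
    intro X hX
    unfold Kst at hX
    exact (Finset.mem_filter.1 hX).2
  set K := Kst V S ε with hK
  set K₁ := K.filter fun X => X.card < l with hK₁
  set K₂ := K.filter fun X => ¬ X.card < l with hK₂
  set C : ℝ := (n.choose (n / 2) : ℝ) with hC
  have hC0 : 0 ≤ C := Nat.cast_nonneg _
  have hK₁K : K₁ ⊆ K := Finset.filter_subset _ _
  have hpos : 0 < 1 - ε := by linarith
  have v1 : vw K univ * (1 - ε) ≤ 1 := by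
    have h2 := vw_le h0 h1 (fun X hX => (nxt_mono hKD X).trans (hKn X hX)) (univ : Finset (Fin n))
    rw [le_div_iff₀ hpos] at h2
    exact h2.trans (hits_le_one _ _)
  have v2 : vw K₁ univ * (1 - ε) ≤ 1 - h + ε := by
    have h2 := vw_le (S := K₁) h0 h1
      (fun X hX => (nxt_mono (hK₁K.trans hKD) X).trans (hKn X (hK₁K hX)))
      (univ : Finset (Fin n))
    rw [le_div_iff₀ hpos] at h2
    have h3 := hits_avoid (K := K₁) (T := T) h0 (fun X hX => (Finset.mem_filter.1 hX).2)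
      (fun Z hZ => by
        refine ⟨(hT Z hZ).1, ?_⟩
        have h4 : Z ∉ K₁ := by
          intro h5
          exact absurd (Finset.mem_filter.1 h5).2 (not_lt.2 (hT Z hZ).1)
        rw [hits_not h4]
        exact (nxt_mono (hK₁K.trans hKD) Z).trans (hT Z hZ).2) (univ : Finset (Fin n))
    linarith
  have hch : ∀ Y : Finset (Fin n), (0 : ℝ) < (n.choose Y.card : ℝ) := by
    intro Y
    have h2 : Y.card ≤ n := by
      have h3 := Finset.card_le_univ Y
      rwa [Fintype.card_fin] at h3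
    exact_mod_cast Nat.choose_pos h2
  have w1 : (K₁.card : ℝ) ≤ C * vw K₁ univ := by
    rw [vw_univ, Finset.mul_sum, ← nsmul_one, ← Finset.sum_const]
    refine Finset.sum_le_sum fun Y _ => ?_
    rw [mul_one_div, le_div_iff₀ (hch Y), one_mul]
    rw [hC]
    exact_mod_cast Nat.choose_le_middle Y.card n
  have w2 : (K₂.card : ℝ) ≤ (1 - c) * C * vw K₂ univ := by
    rw [vw_univ, Finset.mul_sum, ← nsmul_one, ← Finset.sum_const]
    refine Finset.sum_le_sum fun Y hY => ?_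
    rw [mul_one_div, le_div_iff₀ (hch Y), one_mul]
    exact hup _ (not_lt.1 (Finset.mem_filter.1 hY).2)
  have w3 : vw K univ = vw K₁ univ + vw K₂ univ := by
    rw [vw_univ, vw_univ, vw_univ]
    exact (Finset.sum_filter_add_sum_filter_not K (fun X => X.card < l) _).symm
  have w4 : (K.card : ℝ) = K₁.card + K₂.card := by
    have h2 := Finset.card_filter_add_card_filter_not (s := K) (fun X => X.card < l)
    exact_mod_cast h2.symm
  have h5 : (K.card : ℝ) ≤ C * ((1 - c) * vw K univ + c * vw K₁ univ) := by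
    rw [w4, w3]
    linarith
  have h6 := mul_le_mul_of_nonneg_right h5 hpos.le
  have h7 : C * ((1 - c) * vw K univ + c * vw K₁ univ) * (1 - ε) =
      C * ((1 - c) * (vw K univ * (1 - ε)) + c * (vw K₁ univ * (1 - ε))) := by ring
  have h8 : (1 - c) * (vw K univ * (1 - ε)) + c * (vw K₁ univ * (1 - ε)) ≤
      (1 - c) * 1 + c * (1 - h + ε) :=
    add_le_add (mul_le_mul_of_nonneg_left v1 (by linarith)) (mul_le_mul_of_nonneg_left v2 hc0)
  have h9 := mul_le_mul_of_nonneg_left h8 hC0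
  rw [h7] at h6
  linarith

end Pool.Agent.H15.AA
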