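import Pool.Agent.H15.AA.Ca

/-!
# Row Cm: counting

Proofs. `card_small`: the number of `S` with `S.card = i` is `(Fintype.card α).choose i`
(`Finset.card_powersetCard` or `Finset.univ_filter_card_eq`), and for `i ≤ s`, `x ≤ 1`:
`C(M, i) ≤ (1 / x) ^ s * (C(M, i) * x ^ i)`; sum and use `∑ C(M, i) x ^ i = (1 + x) ^ M ≤ exp (x M)`
(`add_pow`, `Real.add_one_le_exp`). Or directly: `∑ S, x ^ S.card = (1 + x) ^ M`
(`Finset.sum_pow_mul_eq_add_pow`, `Finset.prod_one_add`, `Fintype.sum_pow_mul_eq_add_pow`) and
`1 ≤ (1 / x) ^ s * x ^ S.card` for `S.card ≤ s`.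
`count`: choose `S A` for every `A` with `P A`. By `Finset.card_eq_sum_card_fiberwise` (the map
`A ↦ S A` from `univ.filter P` to `{S | S.card ≤ s0}`), it suffices that every fibre has at most
`2 * 2 ^ (K0 + (univ \ win n w).card)` elements, and empty fibres are clear. For a nonempty fibre of
`S`, `(Kst (win n w) S ε).card ≤ K0`, and `A ↦ (gen A, decide (∅ ∈ A))` is injective on the fibre
(`gen_inj`) with values in `(Kst (win n w) S ε ∪ (univ \ win n w)).powerset ×ˢ (univ : Finset Bool)`.
-/

set_option autoImplicit false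

open Finset

namespace Pool.Agent.H15.AA

theorem card_small {α : Type*} [Fintype α] [DecidableEq α] (s : ℕ) {x : ℝ} (h0 : 0 < x)
    (h1 : x ≤ 1) :
    ((univ.filter fun S : Finset α => S.card ≤ s).card : ℝ) ≤
      (1 / x) ^ s * Real.exp (x * Fintype.card α) := by
  have e1 : ((univ.filter fun S : Finset α => S.card ≤ s).card : ℝ) =
      ∑ _S ∈ univ.filter (fun S : Finset α => S.card ≤ s), (1 : ℝ) := by
    rw [Finset.sum_const, nsmul_eq_mul, mul_one]
  have e2 : ∑ _S ∈ univ.filter (fun S : Finset α => S.card ≤ s), (1 : ℝ) ≤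
      ∑ S ∈ univ.filter (fun S : Finset α => S.card ≤ s), (1 / x) ^ s * x ^ S.card := by
    refine Finset.sum_le_sum fun S hS => ?_
    rw [Finset.mem_filter] at hS
    have h2 : x ^ s ≤ x ^ S.card := pow_le_pow_of_le_one h0.le h1 hS.2
    have h3 : 0 < x ^ s := pow_pos h0 s
    rw [one_div, inv_pow, inv_mul_eq_div, one_le_div h3]
    exact h2
  have e3 : ∑ S ∈ univ.filter (fun S : Finset α => S.card ≤ s), (1 / x) ^ s * x ^ S.card ≤
      ∑ S : Finset α, (1 / x) ^ s * x ^ S.card := by
    refine Finset.sum_le_sum_of_subset_of_nonneg (Finset.filter_subset _ _) fun S _ _ => ?_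
    positivity
  have e4 : ∑ S : Finset α, (1 / x) ^ s * x ^ S.card = (1 / x) ^ s * (x + 1) ^ Fintype.card α := by
    rw [← Finset.mul_sum, ← Fintype.sum_pow_mul_eq_add_pow α x 1]
    simp
  have e5 : (x + 1) ^ Fintype.card α ≤ Real.exp (x * Fintype.card α) := by
    have h2 : (x + 1) ^ Fintype.card α ≤ Real.exp x ^ Fintype.card α :=
      pow_le_pow_left₀ (by linarith) (Real.add_one_le_exp x) _
    refine h2.trans (le_of_eq ?_)
    rw [← Real.exp_nat_mul, mul_comm]
  rw [e1]
  refine e2.trans (e3.trans ?_)
  rw [e4]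
  exact mul_le_mul_of_nonneg_left e5 (by positivity)

theorem count {n s0 K0 w : ℕ} {ε : ℝ} (P : Finset (Finset (Fin n)) → Prop) [DecidablePred P]
    (hP : ∀ A, P A → UC A ∧ ∃ S : Finset (Finset (Fin n) × Fin n), S.card ≤ s0 ∧
      (∀ X ∈ gen A, X ∈ win n w → X ∈ Kst (win n w) S ε) ∧ (Kst (win n w) S ε).card ≤ K0) :
    (univ.filter P).card ≤
      (univ.filter fun S : Finset (Finset (Fin n) × Fin n) => S.card ≤ s0).card *
        (2 * 2 ^ (K0 + (univ \ win n w).card)) := by
  classical
  have h2 : ∀ A, ∃ S : Finset (Finset (Fin n) × Fin n), P A → S.card ≤ s0 ∧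
      (∀ X ∈ gen A, X ∈ win n w → X ∈ Kst (win n w) S ε) ∧ (Kst (win n w) S ε).card ≤ K0 := by
    intro A
    by_cases hA : P A
    · obtain ⟨-, S, hS⟩ := hP A hA
      exact ⟨S, fun _ => hS⟩
    · exact ⟨∅, fun h => absurd h hA⟩
  choose f hf using h2
  rw [mul_comm]
  refine Finset.card_le_mul_card_image_of_maps_to (f := f) (fun A hA => ?_) _ (fun S hS => ?_)
  · rw [Finset.mem_filter] at hA ⊢
    exact ⟨Finset.mem_univ _, (hf A hA.2).1⟩
  · rcases Finset.eq_empty_or_nonempty ((univ.filter P).filter fun A => f A = S) with he | ⟨A0, hA0⟩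
    · rw [he, Finset.card_empty]
      exact Nat.zero_le _
    · rw [Finset.mem_filter, Finset.mem_filter] at hA0
      have hK : (Kst (win n w) S ε).card ≤ K0 := by
        have := (hf A0 hA0.1.2).2.2
        rwa [hA0.2] at this
      have hc : ((univ.filter P).filter fun A => f A = S).card ≤
          ((Kst (win n w) S ε ∪ (univ \ win n w)).powerset ×ˢ (univ : Finset Bool)).card := by
        refine Finset.card_le_card_of_injOn (fun A => (gen A, decide (∅ ∈ A))) ?_ ?_
        · intro A hA
          have hA' : A ∈ (univ.filter P).filter fun A => f A = S := hA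
          rw [Finset.mem_filter, Finset.mem_filter] at hA'
          have h3 := (hf A hA'.1.2).2.1
          rw [hA'.2] at h3
          have h4 : (gen A, decide (∅ ∈ A)) ∈
              (Kst (win n w) S ε ∪ (univ \ win n w)).powerset ×ˢ (univ : Finset Bool) := by
            rw [Finset.mem_product]
            refine ⟨?_, Finset.mem_univ _⟩
            rw [Finset.mem_powerset]
            intro X hX
            rw [Finset.mem_union, Finset.mem_sdiff]
            by_cases hw : X ∈ win n w
            · exact Or.inl (h3 X hX hw)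
            · exact Or.inr ⟨Finset.mem_univ _, hw⟩
          exact h4
        · intro A hA B hB hAB
          have hA' : A ∈ (univ.filter P).filter fun A => f A = S := hA
          have hB' : B ∈ (univ.filter P).filter fun A => f A = S := hB
          rw [Finset.mem_filter, Finset.mem_filter] at hA' hB'
          have h3 : gen A = gen B := congrArg Prod.fst hAB
          have h4 : decide (∅ ∈ A) = decide (∅ ∈ B) := congrArg Prod.snd hAB
          exact gen_inj (hP A hA'.1.2).1 (hP B hB'.1.2).1 h3 (decide_eq_decide.1 h4)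
      refine hc.trans ?_
      rw [Finset.card_product, Finset.card_powerset, Finset.card_univ, Fintype.card_bool, mul_comm]
      refine Nat.mul_le_mul_left 2 (Nat.pow_le_pow_right (by norm_num) ?_)
      exact (Finset.card_union_le _ _).trans (Nat.add_le_add_right hK _)

end Pool.Agent.H15.AA
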