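import Mathlib

/-! Almost all union-closed families: definitions. -/

set_option autoImplicit false

open Finset

namespace Pool.Agent.H15.AA

variable {n : ℕ}

/-- `A` is closed under union. -/
def UC (A : Finset (Finset (Fin n))) : Prop := ∀ X ∈ A, ∀ Y ∈ A, X ∪ Y ∈ A

/-- Auxiliary: the probability that the walk started at `Z`, which removes a random element in each
step, meets `S` within `k` steps. -/
noncomputable def hit (S : Finset (Finset (Fin n))) : ℕ → Finset (Fin n) → ℝ
  | 0, Z => if Z ∈ S then 1 else 0
  | k + 1, Z => if Z ∈ S then 1 else (∑ x ∈ Z, hit S k (Z.erase x)) / Z.card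

/-- The probability that the walk started at `Z`, which removes a random element in each step,
meets `S` (the start included). -/
noncomputable def hits (S : Finset (Finset (Fin n))) (Z : Finset (Fin n)) : ℝ := hit S Z.card Z

/-- The probability that the walk started at `Z` meets `S` after the start. -/
noncomputable def nxt (S : Finset (Finset (Fin n))) (Z : Finset (Fin n)) : ℝ :=
  (∑ x ∈ Z, hits S (Z.erase x)) / Z.card

/-- The expected number of visits to `S` of the walk started at `Z` (the start included). -/
noncomputable def vw (S : Finset (Finset (Fin n))) (Z : Finset (Fin n)) : ℝ :=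
  ∑ Y ∈ S.filter fun Y => Y ⊆ Z, 1 / (Z.card.choose Y.card : ℝ)

/-- `z ∈ X`, and no member of `A` that contains `z` is a proper subset of `X`. -/
def priv (A : Finset (Finset (Fin n))) (X : Finset (Fin n)) (z : Fin n) : Prop :=
  z ∈ X ∧ ∀ Y ∈ A, z ∈ Y → Y ⊆ X → Y = X

instance (A : Finset (Finset (Fin n))) (X : Finset (Fin n)) (z : Fin n) : Decidable (priv A X z) := by
  unfold priv; infer_instance

/-- The members of `A` that are not the union of smaller members. -/
def gen (A : Finset (Finset (Fin n))) : Finset (Finset (Fin n)) :=
  A.filter fun X => ∃ z, priv A X z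

/-- The sets of `V` not excluded by the pairs of `S`: the pair `(X, z)` excludes the proper subsets
of `X` that contain `z`. -/
def Dst (V : Finset (Finset (Fin n))) (S : Finset (Finset (Fin n) × Fin n)) :
    Finset (Finset (Fin n)) :=
  V.filter fun Y => ∀ p ∈ S, ¬ (p.2 ∈ Y ∧ Y ⊂ p.1)

open Classical in
/-- The container: the sets `X` of `Dst V S` with `nxt (Dst V S) X ≤ ε`. -/
noncomputable def Kst (V : Finset (Finset (Fin n))) (S : Finset (Finset (Fin n) × Fin n)) (ε : ℝ) :
    Finset (Finset (Fin n)) :=
  (Dst V S).filter fun X => nxt (Dst V S) X ≤ ε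

/-- The middle layers. -/
def win (n w : ℕ) : Finset (Finset (Fin n)) :=
  univ.filter fun X => n ≤ 2 * X.card + 2 * w ∧ 2 * X.card ≤ n + 2 * w

end Pool.Agent.H15.AA
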