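import Pool.Agent.H15.AA.Defs

/-! Families with at most `M` members: definitions. -/

set_option autoImplicit false

open Finset

namespace Pool.Agent.H15.AA

variable {n : ℕ}

/-- The expected sum of `f` along the walk started at `Z` (the start included). -/
noncomputable def vwf (f : Finset (Fin n) → ℝ) (Z : Finset (Fin n)) : ℝ :=
  ∑ Y ∈ Z.powerset, f Y / (Z.card.choose Y.card : ℝ)

/-- the number of subsets of `Fin n` with at least `k` elements -/
def U (n k : ℕ) : ℕ := (univ.filter fun X : Finset (Fin n) => k ≤ X.card).card

/-- the number of sets of `win n w` with at least `k` elements -/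
def UV (n w k : ℕ) : ℕ := ((win n w).filter fun X => k ≤ X.card).card

/-- the slope at the layer `l` -/
noncomputable def slope (n l : ℕ) : ℝ := (2 * l - n - 1) / (n - l + 1)

/-- the linear majorant of the layer sizes, with equality at the layer `l` -/
noncomputable def Rf (n w l z : ℕ) : ℝ :=
  n.choose l + slope n l * ((UV n w (z + 1) : ℝ) - UV n w (l + 1))

/-- no point lies in more than half of the members -/
def Viol (A : Finset (Finset (Fin n))) : Prop :=
  ∀ x, 2 * (A.filter fun X => x ∈ X).card ≤ A.card

instance (A : Finset (Finset (Fin n))) : Decidable (Viol A) := by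
  unfold Viol; infer_instance

end Pool.Agent.H15.AA
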