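import Pool.Agent.H15.AA.Defs

/-!
# Row Wb: the expected number of visits

Proofs. `vw_empty`: the only subset of `∅` is `∅`. `vw_rec`: exchange the sums:
`∑ x ∈ Z, vw S (Z.erase x) = ∑ Y ∈ S, Y ⊆ Z, ∑ x ∈ Z \ Y, 1 / ((Z.card - 1).choose Y.card)` (as
`Y ⊆ Z.erase x` iff `Y ⊆ Z` and `x ∉ Y`), and for `Y ⊆ Z`, `Y ≠ Z`, `z = Z.card`, `y = Y.card < z`:
`(z - y) / ((z - 1).choose y) / z = 1 / (z.choose y)`, because
`(z - y) * z.choose y = z * (z - 1).choose y` (`Nat.choose_mul_succ_eq` or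
`Nat.succ_mul_choose_eq`); for `Y = Z` the inner sum is empty and the term is `1 / 1`.
`vw_le_levels`: group the `Y` by their size `k ∈ [lo, lo + L)`: at most `Z.card.choose k` of them are
subsets of `Z` (`Finset.card_powersetCard`), each contributes `1 / Z.card.choose k` (and if
`Z.card.choose k = 0` there are none), so each `k` contributes at most `1`.
-/

set_option autoImplicit false

open Finset

namespace Pool.Agent.H15.AA

variable {n : ℕ}

theorem vw_nonneg (S : Finset (Finset (Fin n))) (Z : Finset (Fin n)) : 0 ≤ vw S Z := by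
  unfold vw
  exact Finset.sum_nonneg fun Y _ => by positivity

theorem vw_empty (S : Finset (Finset (Fin n))) : vw S ∅ = if ∅ ∈ S then 1 else 0 := by
  unfold vw
  rw [Finset.sum_filter]
  have h : ∀ Y ∈ S, (if Y ⊆ (∅ : Finset (Fin n)) then
      1 / (((∅ : Finset (Fin n)).card.choose Y.card : ℕ) : ℝ) else 0) =
      if Y = ∅ then 1 else 0 := by
    intro Y _
    by_cases hY : Y = ∅
    · subst hY
      simp
    · have : ¬ Y ⊆ (∅ : Finset (Fin n)) := fun h => hY (Finset.subset_empty.1 h)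
      rw [if_neg this, if_neg hY]
  rw [Finset.sum_congr rfl h, Finset.sum_ite_eq']

theorem Wb_choose {z y : ℕ} (hy : y < z) :
    1 / (z.choose y : ℝ) = ((z : ℝ) - y) * (1 / ((z - 1).choose y : ℝ)) / z := by
  obtain ⟨m, rfl⟩ : ∃ m, z = m + 1 := ⟨z - 1, by omega⟩
  have hym : y ≤ m := by omega
  have h1 : m.choose y * (m + 1) = (m + 1).choose y * (m + 1 - y) := Nat.choose_mul_succ_eq m y
  have h2 : (m.choose y : ℝ) * ((m : ℝ) + 1) = ((m + 1).choose y : ℝ) * ((m : ℝ) + 1 - y) := by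
    have h3 : ((m + 1 - y : ℕ) : ℝ) = (m : ℝ) + 1 - y := by
      rw [Nat.cast_sub (by omega)]
      push_cast
      ring
    rw [← h3]
    exact_mod_cast h1
  have hp : 0 < (m.choose y : ℝ) := by exact_mod_cast Nat.choose_pos hym
  have hp' : 0 < ((m + 1).choose y : ℝ) := by exact_mod_cast Nat.choose_pos (by omega : y ≤ m + 1)
  have hm : (0 : ℝ) < (m : ℝ) + 1 := by positivity
  have e : m + 1 - 1 = m := by omega
  rw [e]
  push_cast
  field_simp
  linarith

theorem Wb_term {Y Z : Finset (Fin n)} :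
    (if Y ⊆ Z then 1 / (Z.card.choose Y.card : ℝ) else 0) = (if Y = Z then 1 else 0) +
      (∑ x ∈ Z, if Y ⊆ Z.erase x then 1 / ((Z.erase x).card.choose Y.card : ℝ) else 0) / Z.card := by
  by_cases hYZ : Y ⊆ Z
  · have hle : Y.card ≤ Z.card := Finset.card_le_card hYZ
    have h1 : (∑ x ∈ Z, if Y ⊆ Z.erase x then 1 / ((Z.erase x).card.choose Y.card : ℝ) else 0) =
        ((Z.card : ℝ) - Y.card) * (1 / ((Z.card - 1).choose Y.card : ℝ)) := by
      have h2 : ∀ x ∈ Z, (if Y ⊆ Z.erase x then 1 / ((Z.erase x).card.choose Y.card : ℝ) else 0) =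
          if x ∉ Y then 1 / ((Z.card - 1).choose Y.card : ℝ) else 0 := by
        intro x hx
        by_cases hxY : x ∈ Y
        · have hn : ¬ Y ⊆ Z.erase x := fun h => (Finset.notMem_erase x Z) (h hxY)
          rw [if_neg hn, if_neg (by simpa using hxY)]
        · have hs : Y ⊆ Z.erase x := Finset.subset_erase.2 ⟨hYZ, hxY⟩
          rw [if_pos hs, if_pos hxY, Finset.card_erase_of_mem hx]
      rw [Finset.sum_congr rfl h2, ← Finset.sum_filter, Finset.sum_const, nsmul_eq_mul]
      congr 1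
      have h3 : Z.filter (fun x => x ∉ Y) = Z \ Y := by
        ext x
        simp [Finset.mem_filter, Finset.mem_sdiff]
      rw [h3, Finset.card_sdiff_of_subset hYZ, Nat.cast_sub hle]
    rw [if_pos hYZ, h1]
    by_cases hEq : Y = Z
    · subst hEq
      rw [if_pos rfl, Nat.choose_self]
      simp
    · have hlt : Y.card < Z.card :=
        Finset.card_lt_card (hYZ.ssubset_of_ne hEq)
      rw [if_neg hEq, zero_add]
      exact Wb_choose hlt
  · have hne : Y ≠ Z := fun h => hYZ (h ▸ Finset.Subset.refl _)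
    have h1 : (∑ x ∈ Z, if Y ⊆ Z.erase x then 1 / ((Z.erase x).card.choose Y.card : ℝ) else 0) = 0 := by
      refine Finset.sum_eq_zero fun x _ => ?_
      rw [if_neg (fun h => hYZ (h.trans (Finset.erase_subset x Z)))]
    rw [if_neg hYZ, if_neg hne, h1]
    simp

theorem vw_rec (S : Finset (Finset (Fin n))) {Z : Finset (Fin n)} (hZ : Z.Nonempty) :
    vw S Z = (if Z ∈ S then 1 else 0) + (∑ x ∈ Z, vw S (Z.erase x)) / Z.card := by
  have _ := hZ
  unfold vw
  simp only [Finset.sum_filter]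
  rw [Finset.sum_congr rfl (fun Y _ => Wb_term (Y := Y) (Z := Z)), Finset.sum_add_distrib,
    Finset.sum_ite_eq', ← Finset.sum_div, Finset.sum_comm]

theorem vw_univ (S : Finset (Finset (Fin n))) :
    vw S univ = ∑ Y ∈ S, 1 / (n.choose Y.card : ℝ) := by
  unfold vw
  have h : S.filter (fun Y => Y ⊆ (univ : Finset (Fin n))) = S :=
    Finset.filter_true_of_mem fun Y _ => Finset.subset_univ Y
  rw [h, Finset.card_univ, Fintype.card_fin]

theorem vw_le_levels {S : Finset (Finset (Fin n))} {lo L : ℕ}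
    (h : ∀ Y ∈ S, lo ≤ Y.card ∧ Y.card < lo + L) (Z : Finset (Fin n)) : vw S Z ≤ L := by
  unfold vw
  have hmap : ∀ Y ∈ S.filter (fun Y => Y ⊆ Z), Y.card ∈ Finset.Ico lo (lo + L) := by
    intro Y hY
    rw [Finset.mem_Ico]
    exact h Y (Finset.mem_filter.1 hY).1
  rw [← Finset.sum_fiberwise_of_maps_to hmap]
  have hk : ∀ k ∈ Finset.Ico lo (lo + L),
      ∑ Y ∈ (S.filter (fun Y => Y ⊆ Z)).filter (fun Y => Y.card = k),
        1 / (Z.card.choose Y.card : ℝ) ≤ 1 := by
    intro k _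
    have h1 : ∀ Y ∈ (S.filter (fun Y => Y ⊆ Z)).filter (fun Y => Y.card = k),
        1 / (Z.card.choose Y.card : ℝ) = 1 / (Z.card.choose k : ℝ) := by
      intro Y hY
      rw [(Finset.mem_filter.1 hY).2]
    rw [Finset.sum_congr rfl h1, Finset.sum_const, nsmul_eq_mul]
    have h2 : (S.filter (fun Y => Y ⊆ Z)).filter (fun Y => Y.card = k) ⊆ Finset.powersetCard k Z := by
      intro Y hY
      rw [Finset.mem_filter, Finset.mem_filter] at hY
      rw [Finset.mem_powersetCard]
      exact ⟨hY.1.2, hY.2⟩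
    have h3 := Finset.card_le_card h2
    rw [Finset.card_powersetCard] at h3
    rw [mul_one_div]
    exact div_le_one_of_le₀ (by exact_mod_cast h3) (Nat.cast_nonneg _)
  calc ∑ k ∈ Finset.Ico lo (lo + L),
      ∑ Y ∈ (S.filter (fun Y => Y ⊆ Z)).filter (fun Y => Y.card = k),
        1 / (Z.card.choose Y.card : ℝ) ≤ ∑ _k ∈ Finset.Ico lo (lo + L), (1 : ℝ) :=
        Finset.sum_le_sum hk
    _ = L := by
        rw [Finset.sum_const, nsmul_eq_mul, Nat.card_Ico, mul_one]
        congr 1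
        omega

end Pool.Agent.H15.AA
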