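import Pool.Agent.H15.AA.FDefs
import Pool.Agent.H15.AA.Wb

/-!
# Row Fa: weighted sums along the walk

Proofs: as in Row Wb (`vw_rec`, `vw_univ`), which is the case of an indicator function.
`vwf_rec`: exchange the sums: `∑ x ∈ Z, vwf f (Z.erase x) = ∑ Y ∈ Z.powerset, ∑ x ∈ Z \ Y,
f Y / ((Z.card - 1).choose Y.card)`, and for `Y ⊂ Z`, `z = Z.card`, `y = Y.card`:
`(z - y) / ((z - 1).choose y) / z = 1 / (z.choose y)`; for `Y = Z` the inner sum is empty and
`f Z / 1 = f Z`. `vwf_le_vw`: termwise (`f Y ≤ 0` if `Y ∉ S`, `f Y ≤ c` if `Y ∈ S`), both sides as sums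
over `Z.powerset` (`vw S Z = ∑ Y ∈ Z.powerset, if Y ∈ S then 1 / _ else 0`).
-/

set_option autoImplicit false

open Finset

namespace Pool.Agent.H15.AA

variable {n : ℕ}

theorem Fa_sum (f : Finset (Fin n) → ℝ) (Z : Finset (Fin n)) :
    vwf f Z = ∑ Y : Finset (Fin n), f Y * (if Y ⊆ Z then 1 / (Z.card.choose Y.card : ℝ) else 0) := by
  unfold vwf
  have h1 : Z.powerset = univ.filter (fun Y : Finset (Fin n) => Y ⊆ Z) := by
    ext Y
    rw [Finset.mem_powerset, Finset.mem_filter]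
    exact ⟨fun h => ⟨Finset.mem_univ _, h⟩, fun h => h.2⟩
  rw [h1, Finset.sum_filter]
  refine Finset.sum_congr rfl fun Y _ => ?_
  by_cases hY : Y ⊆ Z
  · rw [if_pos hY, if_pos hY, mul_one_div]
  · rw [if_neg hY, if_neg hY, mul_zero]

theorem vwf_empty (f : Finset (Fin n) → ℝ) : vwf f ∅ = f ∅ := by
  unfold vwf
  rw [Finset.powerset_empty, Finset.sum_singleton, Finset.card_empty, Nat.choose_self, Nat.cast_one,
    div_one]

theorem vwf_rec (f : Finset (Fin n) → ℝ) {Z : Finset (Fin n)} (hZ : Z.Nonempty) :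
    vwf f Z = f Z + (∑ x ∈ Z, vwf f (Z.erase x)) / Z.card := by
  have _ := hZ
  rw [Fa_sum]
  have h1 : ∀ Y : Finset (Fin n), f Y * (if Y ⊆ Z then 1 / (Z.card.choose Y.card : ℝ) else 0) =
      (if Y = Z then f Y else 0) +
        (∑ x ∈ Z, f Y * (if Y ⊆ Z.erase x then 1 / ((Z.erase x).card.choose Y.card : ℝ) else 0)) /
          Z.card := by
    intro Y
    rw [Wb_term, mul_add, ← Finset.mul_sum, mul_div_assoc, mul_ite, mul_one, mul_zero]
  rw [Finset.sum_congr rfl (fun Y _ => h1 Y), Finset.sum_add_distrib, ← Finset.sum_div,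
    Finset.sum_comm]
  congr 1
  · rw [Finset.sum_ite_eq' univ Z f, if_pos (Finset.mem_univ Z)]
  · congr 1
    exact Finset.sum_congr rfl fun x _ => (Fa_sum f (Z.erase x)).symm

theorem vwf_univ (f : Finset (Fin n) → ℝ) :
    vwf f univ = ∑ Y : Finset (Fin n), f Y / (n.choose Y.card : ℝ) := by
  unfold vwf
  rw [Finset.powerset_univ, Finset.card_univ, Fintype.card_fin]

theorem vwf_zero {f : Finset (Fin n) → ℝ} {Z : Finset (Fin n)} (h : ∀ Y, Y ⊆ Z → f Y = 0) :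
    vwf f Z = 0 := by
  unfold vwf
  refine Finset.sum_eq_zero fun Y hY => ?_
  rw [h Y (Finset.mem_powerset.1 hY), zero_div]

theorem vwf_le_vw {f : Finset (Fin n) → ℝ} {S : Finset (Finset (Fin n))} {c : ℝ}
    (h1 : ∀ Y ∈ S, f Y ≤ c) (h2 : ∀ Y, Y ∉ S → f Y ≤ 0) (Z : Finset (Fin n)) :
    vwf f Z ≤ c * vw S Z := by
  rw [Fa_sum]
  unfold vw
  rw [Finset.mul_sum, Finset.sum_filter]
  have e1 : ∑ Y ∈ S, (if Y ⊆ Z then c * (1 / (Z.card.choose Y.card : ℝ)) else 0) =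
      ∑ Y : Finset (Fin n), (if Y ∈ S then
        (if Y ⊆ Z then c * (1 / (Z.card.choose Y.card : ℝ)) else 0) else 0) := by
    rw [Finset.sum_ite_mem, Finset.univ_inter]
  rw [e1]
  refine Finset.sum_le_sum fun Y _ => ?_
  by_cases hY : Y ⊆ Z
  · rw [if_pos hY, if_pos hY]
    have hp : (0 : ℝ) ≤ 1 / (Z.card.choose Y.card : ℝ) := by positivity
    by_cases hS : Y ∈ S
    · rw [if_pos hS]
      exact mul_le_mul_of_nonneg_right (h1 Y hS) hp
    · rw [if_neg hS]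
      exact mul_nonpos_of_nonpos_of_nonneg (h2 Y hS) hp
  · rw [if_neg hY, if_neg hY, mul_zero, ite_self]

end Pool.Agent.H15.AA
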