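import Pool.Agent.H15.AA.FDefs

/-!
# Row Fc: the linear majorant of the layer sizes

Write `C j = n.choose j`, `s = slope n l`, `sl j = (2 j - n - 1) / (n - j + 1)` (real, `j ≤ n`), so
`C (j - 1) - C j = sl j * C j` for `1 ≤ j ≤ n` (`Nat.choose_succ_right_eq`:
`C (i + 1) * (i + 1) = C i * (n - i)`; with `i = j - 1`: `C (j - 1) = C j * j / (n - j + 1)`), and `sl` is
nondecreasing on `j ≤ n`.
Proofs. `UV_in`: the sets of size `k` in the window are all sets of size `k`; `UV_out`: there is none.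
`Rf_in`, `Rf_out`: these and the definition. Let `g z = Rf n w l z - C z`. For `z`, `z + 1` in the window,
`z + 1 ≤ n`: `g (z + 1) - g z = - s * C (z + 1) - C (z + 1) + C z = (sl (z + 1) - s) * C (z + 1)`, which is
`≥ 0` for `z ≥ l` and `≤ 0` for `z + 1 ≤ l`; `g l = 0`. (Levels `z > n` have `C z = 0` and
`UV = 0`: there `g (z + 1) = g z`.) So `g ≥ 0` in the window: `Rf_ge` (induction upwards and downwards
from `l`, `Nat.le_induction`, `Nat.decreasingInduction`).
`Rf_gain`: for `l ≤ z`, `z + 1 ≤ l + h`, `z + 1 ≤ n`: `sl (z + 1) - s ≥ 2 (z + 1 - l) / (n - l + 1) ≥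
2 (z + 1 - l) / n` (numerator `2 (z + 1) - n - 1 ≥ 0`, denominators positive and `n - (z + 1) + 1 ≤
n - l + 1 ≤ n` as `l ≥ 1`), and `C (z + 1) ≥ C (l + h)` (the layer sizes decrease above `n / 2`:
`sl ≥ 0`). So `g (l + i) ≥ C (l + h) * i ^ 2 / n` for `i ≤ h` by induction
(`(i + 1) ^ 2 - i ^ 2 = 2 i + 1 ≤ 2 (i + 1)`), and `g` is nondecreasing beyond `l + h`. If
`l + h > n` then `C (l + h) = 0` and this is `Rf_ge`. All these levels are in the window, as they are
between `l` and `z`.
`Rf_nonneg`: `Rf n w l z ≥ C l - s * UV n w (l + 1)`, and this is the value at the top level of the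
window: if `z0 = n / 2 + w` (the largest level in the window) then `UV n w (z0 + 1) = 0` and
`Rf_ge` at `z0` gives `≥ C z0 ≥ 0`.
-/

set_option autoImplicit false

open Finset

namespace Pool.Agent.H15.AA

theorem UV_in {n w k : ℕ} (h1 : n ≤ 2 * k + 2 * w) (h2 : 2 * k ≤ n + 2 * w) :
    UV n w k = UV n w (k + 1) + n.choose k := by
  have e1 : ((win n w).filter fun X => k ≤ X.card) =
      ((win n w).filter fun X => k + 1 ≤ X.card) ∪ powersetCard k (univ : Finset (Fin n)) := by
    ext X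
    rw [mem_union, mem_filter, mem_filter, mem_powersetCard]
    constructor
    · rintro ⟨hX, hk⟩
      rcases Nat.lt_or_ge k X.card with h | h
      · exact Or.inl ⟨hX, h⟩
      · exact Or.inr ⟨subset_univ _, by omega⟩
    · rintro (⟨hX, hk⟩ | ⟨-, hk⟩)
      · exact ⟨hX, by omega⟩
      · refine ⟨?_, hk.ge⟩
        unfold win
        rw [mem_filter]
        exact ⟨mem_univ _, by omega, by omega⟩
  have e2 : Disjoint ((win n w).filter fun X => k + 1 ≤ X.card)
      (powersetCard k (univ : Finset (Fin n))) := by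
    rw [Finset.disjoint_left]
    intro X hX hX'
    rw [mem_filter] at hX
    rw [mem_powersetCard] at hX'
    omega
  unfold UV
  rw [e1, card_union_of_disjoint e2, card_powersetCard, card_univ, Fintype.card_fin]

theorem UV_out {n w k : ℕ} (h : ¬ (n ≤ 2 * k + 2 * w ∧ 2 * k ≤ n + 2 * w)) :
    UV n w k = UV n w (k + 1) := by
  unfold UV
  congr 1
  ext X
  rw [mem_filter, mem_filter]
  constructor
  · rintro ⟨hX, hk⟩
    refine ⟨hX, ?_⟩
    rcases Nat.lt_or_ge k X.card with h' | h'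
    · exact h'
    · exfalso
      unfold win at hX
      rw [mem_filter] at hX
      have : X.card = k := le_antisymm h' hk
      exact h ⟨by omega, by omega⟩
  · rintro ⟨hX, hk⟩
    exact ⟨hX, by omega⟩

theorem slope_nonneg {n l : ℕ} (hl1 : n + 1 ≤ 2 * l) (hl2 : l ≤ n) : 0 ≤ slope n l := by
  unfold slope
  have h1 : ((n : ℝ) + 1) ≤ 2 * l := by exact_mod_cast hl1
  have h2 : (l : ℝ) ≤ n := by exact_mod_cast hl2
  exact div_nonneg (by linarith) (by linarith)

theorem Rf_in {n w l z : ℕ} (h1 : n ≤ 2 * (z + 1) + 2 * w) (h2 : 2 * (z + 1) ≤ n + 2 * w) :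
    Rf n w l z = Rf n w l (z + 1) + slope n l * n.choose (z + 1) := by
  unfold Rf
  rw [UV_in h1 h2]
  push_cast
  ring

theorem Rf_out {n w l z : ℕ} (h : n + 2 * w < 2 * (z + 1)) : Rf n w l z = Rf n w l (z + 1) := by
  unfold Rf
  rw [UV_out (k := z + 1) (by omega)]

theorem Fc_step {n z : ℕ} (hz : z < n) :
    (n.choose z : ℝ) - n.choose (z + 1) = slope n (z + 1) * n.choose (z + 1) := by
  have h1 : (n.choose (z + 1) : ℝ) * (z + 1) = n.choose z * ((n : ℝ) - z) := by
    have := Nat.choose_succ_right_eq n z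
    have h2 : ((n.choose (z + 1) * (z + 1) : ℕ) : ℝ) = ((n.choose z * (n - z) : ℕ) : ℝ) := by rw [this]
    rw [Nat.cast_mul, Nat.cast_mul, Nat.cast_sub hz.le] at h2
    push_cast at h2
    exact h2
  have h3 : (0 : ℝ) < (n : ℝ) - z := by
    have : (z : ℝ) < n := by exact_mod_cast hz
    linarith
  unfold slope
  have h4 : ((n : ℝ) - ((z + 1 : ℕ) : ℝ) + 1) = (n : ℝ) - z := by push_cast; ring
  rw [h4, div_mul_eq_mul_div, eq_div_iff h3.ne']
  push_cast
  linarith

theorem Fc_gap {n l j : ℕ} (hlj : l ≤ j) (hj : j ≤ n) :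
    slope n j - slope n l = ((n : ℝ) + 1) * (j - l) / (((n : ℝ) - j + 1) * (n - l + 1)) := by
  have h1 : (j : ℝ) ≤ n := by exact_mod_cast hj
  have h2 : (l : ℝ) ≤ j := by exact_mod_cast hlj
  have h3 : ((n : ℝ) - j + 1) ≠ 0 := by
    have : (0 : ℝ) < (n : ℝ) - j + 1 := by linarith
    exact this.ne'
  have h4 : ((n : ℝ) - l + 1) ≠ 0 := by
    have : (0 : ℝ) < (n : ℝ) - l + 1 := by linarith
    exact this.ne'
  unfold slope
  field_simp
  ring

theorem Fc_mono {n l j : ℕ} (hlj : l ≤ j) (hj : j ≤ n) : slope n l ≤ slope n j := by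
  have h := Fc_gap hlj hj
  have h1 : (j : ℝ) ≤ n := by exact_mod_cast hj
  have h2 : (l : ℝ) ≤ j := by exact_mod_cast hlj
  have h3 : 0 ≤ ((n : ℝ) + 1) * (j - l) / (((n : ℝ) - j + 1) * (n - l + 1)) :=
    div_nonneg (mul_nonneg (by positivity) (by linarith)) (mul_nonneg (by linarith) (by linarith))
  linarith

theorem Fc_up {n w l z : ℕ} (h1 : n ≤ 2 * (z + 1) + 2 * w) (h2 : 2 * (z + 1) ≤ n + 2 * w) (hz : z < n) :
    Rf n w l (z + 1) - n.choose (z + 1) = Rf n w l z - n.choose z +
      (slope n (z + 1) - slope n l) * n.choose (z + 1) := by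
  have e1 := Rf_in (l := l) h1 h2
  have e2 := Fc_step hz
  linarith

theorem Fc_self (n w l : ℕ) : Rf n w l l = n.choose l := by
  unfold Rf
  ring

theorem Fc_zero {n w k : ℕ} (h : n < k) : UV n w k = 0 := by
  unfold UV
  rw [card_eq_zero, filter_eq_empty_iff]
  intro X _ hk
  have := card_le_univ X
  rw [Fintype.card_fin] at this
  omega

theorem Fc_top {n w l z : ℕ} (hz : n ≤ z) : Rf n w l z = Rf n w l n := by
  unfold Rf
  rw [Fc_zero (k := z + 1) (by omega), Fc_zero (k := n + 1) (by omega)]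

theorem Fc_ge_up {n w l : ℕ} (hl1 : n + 1 ≤ 2 * l) (z : ℕ)
    (hz : l ≤ z) : 2 * z ≤ n + 2 * w → z ≤ n → (n.choose z : ℝ) ≤ Rf n w l z := by
  induction z, hz using Nat.le_induction with
  | base => intro _ _; rw [Fc_self]
  | succ z hz ih =>
    intro h2 h3
    have e1 := Fc_up (n := n) (w := w) (l := l) (z := z) (by omega) h2 (by omega)
    have e2 := ih (by omega) (by omega)
    have e3 := Fc_mono (n := n) (l := l) (j := z + 1) (by omega) h3
    have e4 : 0 ≤ (slope n (z + 1) - slope n l) * (n.choose (z + 1) : ℝ) :=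
      mul_nonneg (by linarith) (Nat.cast_nonneg _)
    linarith

theorem Rf_ge {n w l : ℕ} (hl1 : n + 1 ≤ 2 * l) (hl2 : l ≤ n) (hlw : 2 * l ≤ n + 2 * w) (z : ℕ)
    (h1 : n ≤ 2 * z + 2 * w) (h2 : 2 * z ≤ n + 2 * w) : (n.choose z : ℝ) ≤ Rf n w l z := by
  rcases Nat.lt_or_ge n z with hzn | hzn
  · have e1 := Fc_ge_up (w := w) hl1 n hl2 (by omega) le_rfl
    rw [Fc_top hzn.le, Nat.choose_eq_zero_of_lt hzn]
    have : (0 : ℝ) ≤ n.choose n := Nat.cast_nonneg _
    rw [Nat.cast_zero]
    linarith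
  rcases Nat.lt_or_ge z l with hzl | hzl
  · -- downward
    have key : ∀ i, ∀ z, z + i = l → n ≤ 2 * z + 2 * w → (n.choose z : ℝ) ≤ Rf n w l z := by
      intro i
      induction i with
      | zero =>
        intro z hz _
        rw [add_zero] at hz
        rw [hz, Fc_self]
      | succ i ih =>
        intro z hz hw
        have e1 := Fc_up (n := n) (w := w) (l := l) (z := z) (by omega) (by omega) (by omega)
        have e2 := ih (z + 1) (by omega) (by omega)
        have e3 := Fc_mono (n := n) (l := z + 1) (j := l) (by omega) hl2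
        have e4 : (slope n (z + 1) - slope n l) * (n.choose (z + 1) : ℝ) ≤ 0 :=
          mul_nonpos_of_nonpos_of_nonneg (by linarith) (Nat.cast_nonneg _)
        linarith
    exact key (l - z) z (by omega) h1
  · exact Fc_ge_up hl1 z hzl h2 hzn

theorem Fc_gap_lo {n l j : ℕ} (hl1 : n + 1 ≤ 2 * l) (hlj : l ≤ j) (hj : j ≤ n) :
    2 * ((j : ℝ) - l) / n ≤ slope n j - slope n l := by
  rw [Fc_gap hlj hj]
  have h1 : (j : ℝ) ≤ n := by exact_mod_cast hj
  have h2 : (l : ℝ) ≤ j := by exact_mod_cast hlj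
  have h5 : ((n : ℝ) + 1) ≤ 2 * l := by exact_mod_cast hl1
  have h6 : (1 : ℝ) ≤ j := by exact_mod_cast (by omega : 1 ≤ j)
  have h7 : (0 : ℝ) < n := by linarith
  rw [div_le_div_iff₀ h7 (mul_pos (by linarith) (by linarith))]
  have h8 : ((n : ℝ) - j + 1) * (n - l + 1) * 2 ≤ n * (n + 1) := by
    have a1 : ((n : ℝ) - j + 1) ≤ n := by linarith
    have a2 : ((n : ℝ) - l + 1) * 2 ≤ n + 1 := by linarith
    have a3 : (0 : ℝ) ≤ (n : ℝ) - l + 1 := by linarith
    nlinarith
  have h9 : (0 : ℝ) ≤ (j : ℝ) - l := by linarith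
  nlinarith [mul_le_mul_of_nonneg_left h8 h9]

theorem Fc_anti {n a b : ℕ} (ha : n ≤ 2 * a + 1) (hab : a ≤ b) : b ≤ n → n.choose b ≤ n.choose a := by
  induction b, hab using Nat.le_induction with
  | base => intro _; exact le_rfl
  | succ b hab ih =>
    intro hb
    refine le_trans ?_ (ih (by omega))
    have := Nat.choose_succ_right_eq n b
    have h2 : n.choose (b + 1) * (b + 1) ≤ n.choose b * (b + 1) := by
      rw [this]
      exact Nat.mul_le_mul_left _ (by omega)
    exact Nat.le_of_mul_le_mul_right h2 (by omega)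

theorem Rf_gain {n w l h : ℕ} (hl1 : n + 1 ≤ 2 * l) (hl2 : l ≤ n) (z : ℕ) (hz : l + h ≤ z)
    (h2 : 2 * z ≤ n + 2 * w) :
    (n.choose z : ℝ) + n.choose (l + h) * (h : ℝ) ^ 2 / n ≤ Rf n w l z := by
  rcases Nat.lt_or_ge n (l + h) with hlh | hlh
  · have e1 := Rf_ge (w := w) hl1 hl2 (by omega) z (by omega) h2
    rw [Nat.choose_eq_zero_of_lt hlh, Nat.cast_zero, zero_mul, zero_div, add_zero]
    exact e1
  have hn0 : (0 : ℝ) < n := by exact_mod_cast (by omega : 0 < n)
  have A : ∀ i ≤ h, (n.choose (l + h) : ℝ) * (i : ℝ) ^ 2 / n ≤ Rf n w l (l + i) - n.choose (l + i) := by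
    intro i
    induction i with
    | zero =>
      intro _
      rw [add_zero, Fc_self]
      simp
    | succ i ih =>
      intro hi
      have e1 := Fc_up (n := n) (w := w) (l := l) (z := l + i) (by omega) (by omega) (by omega)
      have e2 := ih (by omega)
      have e3 := Fc_gap_lo (n := n) (l := l) (j := l + i + 1) hl1 (by omega) (by omega)
      have e4 : (n.choose (l + h) : ℝ) ≤ n.choose (l + i + 1) := by
        exact_mod_cast Fc_anti (n := n) (a := l + i + 1) (b := l + h) (by omega) (by omega) hlh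
      have e5 : (((l + i + 1 : ℕ) : ℝ) - l) = (i : ℝ) + 1 := by push_cast; ring
      rw [e5] at e3
      have e6 : 2 * ((i : ℝ) + 1) / n * (n.choose (l + h) : ℝ) ≤
          (slope n (l + i + 1) - slope n l) * (n.choose (l + i + 1) : ℝ) := by
        have : (0 : ℝ) ≤ 2 * ((i : ℝ) + 1) / n := by positivity
        exact mul_le_mul e3 e4 (Nat.cast_nonneg _) (this.trans e3)
      have e7 : (n.choose (l + h) : ℝ) * ((i + 1 : ℕ) : ℝ) ^ 2 / n ≤
          (n.choose (l + h) : ℝ) * (i : ℝ) ^ 2 / n + 2 * ((i : ℝ) + 1) / n * (n.choose (l + h) : ℝ) := by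
        rw [div_mul_eq_mul_div, ← add_div]
        apply div_le_div_of_nonneg_right _ hn0.le
        push_cast
        have : (0 : ℝ) ≤ (n.choose (l + h) : ℝ) := Nat.cast_nonneg _
        nlinarith
      rw [← add_assoc]
      linarith
  have B : ∀ z, l + h ≤ z → 2 * z ≤ n + 2 * w → z ≤ n →
      (n.choose (l + h) : ℝ) * (h : ℝ) ^ 2 / n ≤ Rf n w l z - n.choose z := by
    intro z hz
    induction z, hz using Nat.le_induction with
    | base => intro _ _; exact A h le_rfl
    | succ z hz ih =>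
      intro g1 g2
      have e1 := Fc_up (n := n) (w := w) (l := l) (z := z) (by omega) g1 (by omega)
      have e2 := ih (by omega) (by omega)
      have e3 := Fc_mono (n := n) (l := l) (j := z + 1) (by omega) g2
      have e4 : 0 ≤ (slope n (z + 1) - slope n l) * (n.choose (z + 1) : ℝ) :=
        mul_nonneg (by linarith) (Nat.cast_nonneg _)
      linarith
  rcases Nat.lt_or_ge n z with hzn | hzn
  · have e1 := B n hlh (by omega) le_rfl
    rw [Fc_top hzn.le, Nat.choose_eq_zero_of_lt hzn, Nat.cast_zero]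
    have : (0 : ℝ) ≤ n.choose n := Nat.cast_nonneg _
    linarith
  · have e1 := B z hz h2 hzn
    linarith

theorem Rf_nonneg {n w l : ℕ} (hl1 : n + 1 ≤ 2 * l) (hl2 : l ≤ n) (hlw : 2 * l ≤ n + 2 * w)
    (z : ℕ) : 0 ≤ Rf n w l z := by
  have e1 := Rf_ge hl1 hl2 hlw (n / 2 + w) (by omega) (by omega)
  have e2 : UV n w (n / 2 + w + 1) = 0 := by
    unfold UV
    rw [card_eq_zero, filter_eq_empty_iff]
    intro X hX hk
    unfold win at hX
    rw [mem_filter] at hX
    omega
  have e3 : Rf n w l (n / 2 + w) ≤ Rf n w l z := by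
    unfold Rf
    rw [e2]
    have h1 := slope_nonneg hl1 hl2
    have h2 : (0 : ℝ) ≤ UV n w (z + 1) := Nat.cast_nonneg _
    have h3 := mul_nonneg h1 h2
    rw [Nat.cast_zero]
    linarith
  have e4 : (0 : ℝ) ≤ n.choose (n / 2 + w) := Nat.cast_nonneg _
  linarith

end Pool.Agent.H15.AA
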