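import Pool.Agent.H15.AA.In
import Pool.Agent.H15.AA.FDefs

/-!
# Row Fi: instances with few members

Proof: as `inst_card` in Row In, with the layer `l` instead of `n / 2`: for
`T ⊆ powersetCard l univ` let `F T = T ∪ {X | l < X.card}`; it has at most `U n l ≤ M` members. The union
of two different sets of size `l` has more than `l` elements, so `F T` is union closed; `F T` determines
`T`; `univ ∈ F T`; for `x ≠ y` the set `univ.erase y` has `n - 1 > l` elements; `∅ ∉ F T` (`0 < l`).
-/

set_option autoImplicit false

open Finset

namespace Pool.Agent.H15.AA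

/-- auxiliary: the family of the sets with more than `l` elements and the sets of `T` -/
def Fi_F (n l : ℕ) (T : Finset (Finset (Fin n))) : Finset (Finset (Fin n)) :=
  T ∪ univ.filter fun X : Finset (Fin n) => l < X.card

theorem Fi_mem {n l : ℕ} {T : Finset (Finset (Fin n))} {X : Finset (Fin n)} :
    X ∈ Fi_F n l T ↔ X ∈ T ∨ l < X.card := by
  unfold Fi_F
  rw [mem_union, mem_filter]
  simp only [mem_univ, true_and]

theorem Fi_inst {n l : ℕ} (hl : 1 ≤ l) (hln : l + 2 ≤ n) {T : Finset (Finset (Fin n))}
    (hT : T ⊆ powersetCard l (univ : Finset (Fin n))) : Inst (Fi_F n l T) := by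
  have hc : ∀ X ∈ T, X.card = l := fun X hX => (mem_powersetCard.1 (hT hX)).2
  have hu : (univ : Finset (Fin n)) ∈ Fi_F n l T := by
    rw [Fi_mem]
    right
    rw [card_univ, Fintype.card_fin]
    omega
  refine ⟨?_, ?_, ?_, ?_⟩
  · intro X hX Y hY
    rw [Fi_mem] at hX hY ⊢
    rcases hX with hX | hX
    · rcases hY with hY | hY
      · by_cases hXY : X = Y
        · left
          rw [← hXY, union_self]
          exact hX
        · right
          have h1 : X ⊂ X ∪ Y := by
            rw [ssubset_iff_subset_ne]
            refine ⟨subset_union_left, ?_⟩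
            intro he
            have h2 : Y ⊆ X := by
              rw [he]
              exact subset_union_right
            have h3 : Y = X := eq_of_subset_of_card_le h2 (by rw [hc X hX, hc Y hY])
            exact hXY h3.symm
          have h2 := card_lt_card h1
          rw [hc X hX] at h2
          exact h2
      · right
        exact lt_of_lt_of_le hY (card_le_card subset_union_right)
    · right
      exact lt_of_lt_of_le hX (card_le_card subset_union_left)
  · have h1 : (univ : Finset (Fin n)) ≤ (Fi_F n l T).sup id := le_sup (f := id) hu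
    exact eq_univ_iff_forall.2 fun x => h1 (mem_univ x)
  · intro x y hxy
    refine ⟨univ.erase y, ?_, ?_⟩
    · rw [Fi_mem]
      right
      rw [card_erase_of_mem (mem_univ y), card_univ, Fintype.card_fin]
      omega
    · intro h
      exact notMem_erase y univ (h.1 (mem_erase.2 ⟨hxy, mem_univ x⟩))
  · intro h
    have h1 : (∅ : Finset (Fin n)) ∈ Fi_F n l T := by
      rw [h]
      exact mem_univ _
    rw [Fi_mem] at h1
    rcases h1 with h1 | h1
    · have h2 := hc _ h1
      rw [card_empty] at h2
      omega
    · rw [card_empty] at h1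
      omega

theorem Fi_card {n l M : ℕ} (hM : U n l ≤ M) {T : Finset (Finset (Fin n))}
    (hT : T ⊆ powersetCard l (univ : Finset (Fin n))) : (Fi_F n l T).card ≤ M := by
  refine le_trans (card_le_card ?_) hM
  intro X hX
  rw [mem_filter]
  refine ⟨mem_univ _, ?_⟩
  rcases Fi_mem.1 hX with h | h
  · exact (mem_powersetCard.1 (hT h)).2.ge
  · exact h.le

theorem inst_card_le {n l M : ℕ} (hl : 1 ≤ l) (hln : l + 2 ≤ n) (hM : U n l ≤ M) :
    2 ^ (n.choose l) ≤
      (univ.filter fun A : Finset (Finset (Fin n)) => Inst A ∧ A.card ≤ M).card := by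
  have h1 : (powerset (powersetCard l (univ : Finset (Fin n)))).card = 2 ^ (n.choose l) := by
    rw [card_powerset, card_powersetCard, card_univ, Fintype.card_fin]
  rw [← h1]
  apply card_le_card_of_injOn (Fi_F n l)
  · intro T hT
    have hT' := mem_powerset.1 hT
    exact mem_filter.2 ⟨mem_univ _, Fi_inst hl hln hT', Fi_card hM hT'⟩
  · intro T hT T' hT' he
    have hT1 := mem_powerset.1 hT
    have hT2 := mem_powerset.1 hT'
    ext X
    constructor
    · intro hX
      have hc := (mem_powersetCard.1 (hT1 hX)).2
      have h2 : X ∈ Fi_F n l T := Fi_mem.2 (Or.inl hX)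
      have h3 : X ∈ Fi_F n l T' := by
        rw [← he]
        exact h2
      rcases Fi_mem.1 h3 with h4 | h4
      · exact h4
      · omega
    · intro hX
      have hc := (mem_powersetCard.1 (hT2 hX)).2
      have h2 : X ∈ Fi_F n l T' := Fi_mem.2 (Or.inl hX)
      have h3 : X ∈ Fi_F n l T := by
        rw [he]
        exact h2
      rcases Fi_mem.1 h3 with h4 | h4
      · exact h4
      · omega

end Pool.Agent.H15.AA
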