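import Pool.Agent.H15.AA.Defs
import Pool.Agent.H25.Trace

/-!
# Row In: instances and dense families

Proofs. `inst_card`: for `T ⊆ powersetCard (n / 2) univ` let `F T = T ∪ {X | n / 2 < X.card}`. The union
of two different sets of size `n / 2` has more than `n / 2` elements, so `F T` is union closed;
`F T` determines `T`; `univ ∈ F T` (`n / 2 < n`), so `sup id = univ`; for `x ≠ y` the set
`univ.erase y` has `n - 1 > n / 2` elements (`n ≥ 3`); `∅ ∉ F T` (`0 < n / 2`), so `F T ≠ univ`. The number
of the `T` is `2 ^ (n.choose (n / 2))`.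
`dense_inst`: `Pool.Agent.H25.dense_trace` (see
Pool/Agent/H25/OffTwoFifths.lean for its statement) with `X = univ`:
`A.sup id = univ`, `univ.powerset = univ`, `S ∩ univ = S`.
-/

set_option autoImplicit false

open Finset

namespace Pool.Agent.H15.AA

/-- a separating union-closed family with universe `Fin n` that is not the power set -/
def Inst {n : ℕ} (A : Finset (Finset (Fin n))) : Prop :=
  (∀ X ∈ A, ∀ Y ∈ A, X ∪ Y ∈ A) ∧ A.sup id = univ ∧
    (∀ x y : Fin n, x ≠ y → ∃ X ∈ A, ¬ (x ∈ X ↔ y ∈ X)) ∧ A ≠ univ

instance {n : ℕ} (A : Finset (Finset (Fin n))) : Decidable (Inst A) := by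
  unfold Inst; infer_instance

/-- auxiliary: the family of the sets with more than `n / 2` elements and the sets of `T` -/
def In_F (n : ℕ) (T : Finset (Finset (Fin n))) : Finset (Finset (Fin n)) :=
  T ∪ univ.filter fun X : Finset (Fin n) => n / 2 < X.card

theorem In_mem {n : ℕ} {T : Finset (Finset (Fin n))} {X : Finset (Fin n)} :
    X ∈ In_F n T ↔ X ∈ T ∨ n / 2 < X.card := by
  unfold In_F
  rw [mem_union, mem_filter]
  simp only [mem_univ, true_and]

theorem In_inst {n : ℕ} (hn : 3 ≤ n) {T : Finset (Finset (Fin n))}
    (hT : T ⊆ powersetCard (n / 2) (univ : Finset (Fin n))) : Inst (In_F n T) := by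
  have hc : ∀ X ∈ T, X.card = n / 2 := fun X hX => (mem_powersetCard.1 (hT hX)).2
  have hu : (univ : Finset (Fin n)) ∈ In_F n T := by
    rw [In_mem]
    right
    rw [card_univ, Fintype.card_fin]
    omega
  refine ⟨?_, ?_, ?_, ?_⟩
  · intro X hX Y hY
    rw [In_mem] at hX hY ⊢
    rcases hX with hX | hX
    · rcases hY with hY | hY
      · by_cases hXY : X = Y
        · left
          rw [← hXY, union_self]
          exact hX
        · right
          have h1 : X ⊂ X ∪ Y := by
            rw [ssubset_iff_subset_ne]
            refine ⟨subset_union_left, ?_⟩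
            intro he
            have h2 : Y ⊆ X := by
              rw [he]
              exact subset_union_right
            have h3 : Y = X := eq_of_subset_of_card_le h2 (by rw [hc X hX, hc Y hY])
            exact hXY h3.symm
          have h2 := card_lt_card h1
          rw [hc X hX] at h2
          exact h2
      · right
        exact lt_of_lt_of_le hY (card_le_card subset_union_right)
    · right
      exact lt_of_lt_of_le hX (card_le_card subset_union_left)
  · have h1 : (univ : Finset (Fin n)) ≤ (In_F n T).sup id := le_sup (f := id) hu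
    exact eq_univ_iff_forall.2 fun x => h1 (mem_univ x)
  · intro x y hxy
    refine ⟨univ.erase y, ?_, ?_⟩
    · rw [In_mem]
      right
      rw [card_erase_of_mem (mem_univ y), card_univ, Fintype.card_fin]
      omega
    · intro h
      exact notMem_erase y univ (h.1 (mem_erase.2 ⟨hxy, mem_univ x⟩))
  · intro h
    have h1 : (∅ : Finset (Fin n)) ∈ In_F n T := by
      rw [h]
      exact mem_univ _
    rw [In_mem] at h1
    rcases h1 with h1 | h1
    · have h2 := hc _ h1
      rw [card_empty] at h2
      omega
    · rw [card_empty] at h1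
      omega

theorem inst_card {n : ℕ} (hn : 3 ≤ n) :
    2 ^ (n.choose (n / 2)) ≤ (univ.filter fun A : Finset (Finset (Fin n)) => Inst A).card := by
  have h1 : (powerset (powersetCard (n / 2) (univ : Finset (Fin n)))).card =
      2 ^ (n.choose (n / 2)) := by
    rw [card_powerset, card_powersetCard, card_univ, Fintype.card_fin]
  rw [← h1]
  apply card_le_card_of_injOn (In_F n)
  · intro T hT
    have hT' := mem_powerset.1 hT
    exact mem_filter.2 ⟨mem_univ _, In_inst hn hT'⟩
  · intro T hT T' hT' he
    have hT1 := mem_powerset.1 hT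
    have hT2 := mem_powerset.1 hT'
    ext X
    constructor
    · intro hX
      have hc := (mem_powersetCard.1 (hT1 hX)).2
      have h2 : X ∈ In_F n T := In_mem.2 (Or.inl hX)
      have h3 : X ∈ In_F n T' := by
        rw [← he]
        exact h2
      rcases In_mem.1 h3 with h4 | h4
      · exact h4
      · omega
    · intro hX
      have hc := (mem_powersetCard.1 (hT2 hX)).2
      have h2 : X ∈ In_F n T' := In_mem.2 (Or.inl hX)
      have h3 : X ∈ In_F n T := by
        rw [he]
        exact h2
      rcases In_mem.1 h3 with h4 | h4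
      · exact h4
      · omega

theorem dense_inst {n : ℕ} {A : Finset (Finset (Fin n))} (h : Inst A) (hA : 2 * 2 ^ n ≤ 5 * A.card)
    (hne : A.Nonempty) : ∃ x, A.card < 2 * (A.filter fun X => x ∈ X).card := by
  obtain ⟨h1, h2, h3, h4⟩ := h
  have h5 := Pool.Agent.H25.dense_trace A hne h1
    (fun x _ y _ hxy => by
      obtain ⟨X, hX, hx⟩ := h3 x y hxy
      refine ⟨X, hX, ?_⟩
      tauto)
    (by
      rw [h2, powerset_univ]
      exact h4) univ
    (fun S _ T _ hST => by
      rwa [inter_univ, inter_univ] at hST)
    (by
      rw [card_univ, Fintype.card_fin]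
      exact hA)
  obtain ⟨x, _, hx⟩ := h5
  refine ⟨x, ?_⟩
  convert hx using 2

end Pool.Agent.H15.AA
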