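import Mathlib

/-!
# Row Va: sizes of subsets (Mathlib only)

Proofs. `sum_var`: write `2 |X| - n = ∑ x, s x`, `s x = 1` if `x ∈ X` and `-1` otherwise; the sum over
`X` of `s x * s y` is `2 ^ n` for `x = y` and `0` for `x ≠ y` (the involution
`X ↦ symmDiff X {x}`); or induction on `n`; or group by size and use `Nat.sum_range_choose`,
`∑ k C(n,k) = n 2 ^ (n-1)`, `∑ k (k - 1) C(n,k) = n (n-1) 2 ^ (n-2)`.
`cheb`: every `X` in the filter has `(2 |X| - n) ^ 2 ≥ t ^ 2`.
`half_up`: the complement is a bijection between `{X | n ≤ 2 |X|}` and `{X | 2 |X| ≤ n}`, and these two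
sets cover everything, so `2 ^ n ≤ 2 #{X | n ≤ 2 |X|}`. The `X` with `n ≤ 2 |X| < n + 2 h` have one of
`h` sizes `(n + 1) / 2 + i`, `i < h`, and each size is taken by `n.choose _ ≤ n.choose (n / 2)`
(`Nat.choose_le_middle`) sets.
-/

set_option autoImplicit false

open Finset

namespace Pool.Agent.H15.AA

theorem Va_s_sum {n : ℕ} (X : Finset (Fin n)) :
    (2 * (X.card : ℤ) - (n : ℤ)) = ∑ x : Fin n, (if x ∈ X then (1 : ℤ) else -1) := by
  have h1 : ∀ x : Fin n, (if x ∈ X then (1 : ℤ) else -1) =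
      2 * (if x ∈ X then (1 : ℤ) else 0) - 1 := by
    intro x
    split_ifs <;> norm_num
  rw [sum_congr rfl (fun x _ => h1 x), sum_sub_distrib, ← mul_sum, sum_boole]
  have h2 : (univ.filter fun x => x ∈ X) = X := by
    ext x
    simp
  rw [h2]
  simp

theorem Va_flip {n : ℕ} (X : Finset (Fin n)) (x y : Fin n) :
    y ∈ symmDiff X {x} ↔ (if y = x then y ∉ X else y ∈ X) := by
  rw [mem_symmDiff, mem_singleton]
  by_cases h : y = x
  · simp [h]
  · simp [h]

theorem Va_cross {n : ℕ} (x y : Fin n) (hxy : x ≠ y) :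
    ∑ X : Finset (Fin n), (if x ∈ X then (1 : ℤ) else -1) * (if y ∈ X then (1 : ℤ) else -1) =
      0 := by
  refine sum_involution (fun X _ => symmDiff X {x}) ?_ ?_ ?_ ?_
  · intro X _
    have h1 : (x ∈ symmDiff X {x}) ↔ x ∉ X := by rw [Va_flip, if_pos rfl]
    have h2 : (y ∈ symmDiff X {x}) ↔ y ∈ X := by rw [Va_flip, if_neg hxy.symm]
    by_cases hx : x ∈ X
    · by_cases hy : y ∈ X <;> simp [h1, h2, hx, hy]
    · by_cases hy : y ∈ X <;> simp [h1, h2, hx, hy]
  · intro X _ _ h
    have h1 : (x ∈ symmDiff X {x}) ↔ x ∉ X := by rw [Va_flip, if_pos rfl]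
    rw [h] at h1
    by_cases hx : x ∈ X
    · exact h1.1 hx hx
    · exact hx (h1.2 hx)
  · intro X _
    exact mem_univ _
  · intro X _
    rw [symmDiff_assoc, symmDiff_self]
    simp

theorem sum_var (n : ℕ) : ∑ X : Finset (Fin n), (2 * (X.card : ℤ) - (n : ℤ)) ^ 2 = (n : ℤ) * 2 ^ n := by
  have h1 : ∀ X : Finset (Fin n), (2 * (X.card : ℤ) - (n : ℤ)) ^ 2 =
      ∑ x : Fin n, ∑ y : Fin n,
        (if x ∈ X then (1 : ℤ) else -1) * (if y ∈ X then (1 : ℤ) else -1) := by
    intro X
    rw [Va_s_sum, sq, sum_mul_sum]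
  rw [sum_congr rfl (fun X _ => h1 X), sum_comm]
  have h2 : ∀ x : Fin n, ∑ X : Finset (Fin n), ∑ y : Fin n,
        (if x ∈ X then (1 : ℤ) else -1) * (if y ∈ X then (1 : ℤ) else -1) = 2 ^ n := by
    intro x
    rw [sum_comm, sum_eq_single x]
    · have h3 : ∀ X : Finset (Fin n),
          (if x ∈ X then (1 : ℤ) else -1) * (if x ∈ X then (1 : ℤ) else -1) = 1 := by
        intro X
        split_ifs <;> norm_num
      rw [sum_congr rfl (fun X _ => h3 X)]
      simp
    · intro y _ hy
      exact Va_cross x y hy.symm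
    · intro h
      exact absurd (mem_univ x) h
  rw [sum_congr rfl (fun x _ => h2 x)]
  simp

theorem cheb (n t : ℕ) :
    t ^ 2 * (univ.filter fun X : Finset (Fin n) =>
      n + t ≤ 2 * X.card ∨ 2 * X.card + t ≤ n).card ≤ n * 2 ^ n := by
  have h1 : ((t : ℤ) ^ 2) * ((univ.filter fun X : Finset (Fin n) =>
      n + t ≤ 2 * X.card ∨ 2 * X.card + t ≤ n).card : ℤ) ≤ (n : ℤ) * 2 ^ n := by
    rw [← sum_var n]
    calc ((t : ℤ) ^ 2) * ((univ.filter fun X : Finset (Fin n) =>
        n + t ≤ 2 * X.card ∨ 2 * X.card + t ≤ n).card : ℤ) =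
        ∑ X ∈ (univ.filter fun X : Finset (Fin n) =>
          n + t ≤ 2 * X.card ∨ 2 * X.card + t ≤ n), (t : ℤ) ^ 2 := by
          rw [sum_const, nsmul_eq_mul]
          ring
      _ ≤ ∑ X ∈ (univ.filter fun X : Finset (Fin n) =>
          n + t ≤ 2 * X.card ∨ 2 * X.card + t ≤ n), (2 * (X.card : ℤ) - (n : ℤ)) ^ 2 := by
          refine sum_le_sum fun X hX => ?_
          have ht : (0 : ℤ) ≤ t := Int.natCast_nonneg t
          rcases (mem_filter.1 hX).2 with h | h
          · have h' : (n : ℤ) + t ≤ 2 * X.card := by exact_mod_cast h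
            nlinarith
          · have h' : 2 * (X.card : ℤ) + t ≤ n := by exact_mod_cast h
            nlinarith
      _ ≤ ∑ X : Finset (Fin n), (2 * (X.card : ℤ) - (n : ℤ)) ^ 2 :=
          sum_le_sum_of_subset_of_nonneg (subset_univ _) fun _ _ _ => sq_nonneg _
  exact_mod_cast h1

theorem half_up (n h : ℕ) :
    2 ^ n ≤ 2 * (univ.filter fun X : Finset (Fin n) => n + 2 * h ≤ 2 * X.card).card +
      2 * h * n.choose (n / 2) := by
  set A : Finset (Finset (Fin n)) := univ.filter fun X => n ≤ 2 * X.card with hA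
  set A' : Finset (Finset (Fin n)) := univ.filter fun X => 2 * X.card ≤ n with hA'
  set F : Finset (Finset (Fin n)) := univ.filter fun X => n + 2 * h ≤ 2 * X.card with hF
  have h1 : A'.card ≤ A.card := by
    refine card_le_card_of_injOn (fun X => Xᶜ) (fun X hX => ?_)
      (fun X _ Y _ hXY => compl_injective hXY)
    have h2 := (mem_filter.1 hX).2
    refine mem_coe.2 (mem_filter.2 ⟨mem_univ _, ?_⟩)
    have h3 : (Xᶜ).card = n - X.card := by rw [card_compl, Fintype.card_fin]
    show n ≤ 2 * (Xᶜ).card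
    rw [h3]
    omega
  have h2 : 2 ^ n ≤ A.card + A'.card := by
    have h3 : (univ : Finset (Finset (Fin n))) ⊆ A ∪ A' := by
      intro X _
      rw [mem_union, hA, hA', mem_filter, mem_filter]
      rcases le_total n (2 * X.card) with h | h
      · exact Or.inl ⟨mem_univ _, h⟩
      · exact Or.inr ⟨mem_univ _, h⟩
    have h4 := (card_le_card h3).trans (card_union_le A A')
    rw [card_univ, Fintype.card_finset, Fintype.card_fin] at h4
    exact h4
  have h5 : A.card ≤ F.card + h * n.choose (n / 2) := by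
    have h6 : A ⊆ F ∪ (range h).biUnion
        (fun i => powersetCard ((n + 1) / 2 + i) (univ : Finset (Fin n))) := by
      intro X hX
      have hX' := (mem_filter.1 hX).2
      rw [mem_union]
      by_cases h7 : n + 2 * h ≤ 2 * X.card
      · exact Or.inl (mem_filter.2 ⟨mem_univ _, h7⟩)
      · refine Or.inr (mem_biUnion.2 ⟨X.card - (n + 1) / 2, mem_range.2 (by omega), ?_⟩)
        exact mem_powersetCard.2 ⟨subset_univ _, by omega⟩
    have h7 : ((range h).biUnion
        (fun i => powersetCard ((n + 1) / 2 + i) (univ : Finset (Fin n)))).card ≤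
        h * n.choose (n / 2) := by
      refine card_biUnion_le.trans ?_
      calc ∑ i ∈ range h, (powersetCard ((n + 1) / 2 + i) (univ : Finset (Fin n))).card
          ≤ ∑ i ∈ range h, n.choose (n / 2) := by
            refine sum_le_sum fun i _ => ?_
            rw [card_powersetCard, card_univ, Fintype.card_fin]
            exact Nat.choose_le_middle _ _
        _ = _ := by rw [sum_const, card_range, smul_eq_mul]
    exact ((card_le_card h6).trans (card_union_le _ _)).trans (Nat.add_le_add_left h7 _)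
  calc 2 ^ n ≤ A.card + A'.card := h2
    _ ≤ 2 * A.card := by omega
    _ ≤ 2 * (F.card + h * n.choose (n / 2)) := Nat.mul_le_mul_left 2 h5
    _ = _ := by ring

end Pool.Agent.H15.AA
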