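import Pool.Agent.H15.AA.Bi
import Pool.Agent.H15.AA.Va
import Pool.Agent.H15.AA.Defs

/-!
# Row Nm: numbers

Write `C = n.choose (n / 2)`, `N = 2 ^ n`, `d = n / (10 E)`, `w = n / (20 E)` (natural division).
`log_sqrt`: `log n * sqrt n / n → 0` (`Real.isLittleO_log_rpow_atTop`, or
`Real.add_one_le_exp`: `log n = 4 log (n ^ (1/4)) ≤ 4 n ^ (1/4)`).
`comp_card`: a set outside `win n w` has `n + (2 w + 1) ≤ 2 |X|` or `2 |X| + (2 w + 1) ≤ n`; `cheb`:
`(2 w + 1) ^ 2 * card ≤ n N`; and `2 w + 1 ≥ n / (20 E)` (real) for `n ≥ 20 E` (`w > n / (20 E) - 1`).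
`final_num`: `log` of the left side: `s0 = 2 ^ n / d ≤ N / d ≤ 20 E N / n` (real; `d ≥ n / (20 E)` for
`n ≥ 20 E`), so `s0 * log (n ^ 2) ≤ 40 E N log n / n`; the exponential contributes `N / n`; `log 2 ≤ 1`;
`K0 log 2`; `comp_card` bounds `v`: `v log 2 ≤ 400 E ^ 2 N / n`. All these but `K0 log 2` sum to at most
`(log 2) C / E` for large `n`, as `C ≥ N / sqrt (2 (n + 1))` (`Cn_low`), `log 2 ≥ 1 / 2` and
`log_sqrt` (and `1 ≤ N / n`). And `K0 ≤ (1 - 2 / E) C`. So the left side is at most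
`exp (log 2 (1 - 1 / E) C) = 2 ^ ((1 - 1 / E) C)` (`Real.rpow_def_of_pos`).
-/

set_option autoImplicit false

open Finset

namespace Pool.Agent.H15.AA

theorem log_sqrt (K : ℝ) : ∃ N : ℕ, ∀ n : ℕ, N ≤ n →
    K * (1 + Real.log n) * Real.sqrt (2 * (n + 1)) ≤ n := by
  obtain ⟨N, hN⟩ := exists_nat_ge ((8 * |K| + 1) ^ 4)
  refine ⟨N + 1, fun n hn => ?_⟩
  have hn1 : (1 : ℝ) ≤ n := by
    have : 1 ≤ n := by omega
    exact_mod_cast this
  have hnN : ((8 * |K| + 1) ^ 4 : ℝ) ≤ n := by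
    have : (N : ℝ) ≤ n := by
      have : N ≤ n := by omega
      exact_mod_cast this
    linarith
  obtain ⟨q, hq⟩ : ∃ q : ℝ, q = Real.sqrt (Real.sqrt n) := ⟨_, rfl⟩
  have hq0 : 0 ≤ q := by rw [hq]; exact Real.sqrt_nonneg _
  have hq4 : q ^ 4 = n := by
    have h1 : q ^ 2 = Real.sqrt n := by rw [hq]; exact Real.sq_sqrt (Real.sqrt_nonneg _)
    calc q ^ 4 = (q ^ 2) ^ 2 := by ring
      _ = (Real.sqrt n) ^ 2 := by rw [h1]
      _ = n := Real.sq_sqrt (by linarith)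
  have hK : 0 ≤ |K| := abs_nonneg K
  have hqK : 8 * |K| + 1 ≤ q := by
    have h2 : (8 * |K| + 1) ^ 4 ≤ q ^ 4 := by rw [hq4]; exact hnN
    exact le_of_pow_le_pow_left₀ (by norm_num) hq0 h2
  have hq1 : 1 ≤ q := by linarith
  have hlog : 1 + Real.log n ≤ 4 * q := by
    have h3 : Real.log n = 4 * Real.log q := by
      rw [← hq4, Real.log_pow]
      norm_num
    have h4 := Real.log_le_sub_one_of_pos (show 0 < q by linarith)
    linarith
  have hlog0 : 0 ≤ 1 + Real.log n := by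
    have := Real.log_nonneg hn1
    linarith
  have hs : Real.sqrt (2 * (n + 1)) ≤ 2 * q ^ 2 := by
    rw [Real.sqrt_le_left (by positivity)]
    have : (2 * q ^ 2) ^ 2 = 4 * (n : ℝ) := by rw [← hq4]; ring
    rw [this]
    linarith
  have hs0 : 0 ≤ Real.sqrt (2 * ((n : ℝ) + 1)) := Real.sqrt_nonneg _
  calc K * (1 + Real.log n) * Real.sqrt (2 * (n + 1))
      ≤ |K| * (1 + Real.log n) * Real.sqrt (2 * (n + 1)) := by
        refine mul_le_mul_of_nonneg_right ?_ hs0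
        exact mul_le_mul_of_nonneg_right (le_abs_self K) hlog0
    _ ≤ |K| * (4 * q) * (2 * q ^ 2) := by
        refine mul_le_mul ?_ hs hs0 (by positivity)
        exact mul_le_mul_of_nonneg_left hlog hK
    _ = (8 * |K|) * q ^ 3 := by ring
    _ ≤ q * q ^ 3 := mul_le_mul_of_nonneg_right (by linarith) (by positivity)
    _ = n := by rw [← hq4]; ring

theorem comp_card {E n : ℕ} (hE : 1 ≤ E) (hn : 20 * E ≤ n) :
    ((univ \ win n (n / (20 * E))).card : ℝ) ≤ 400 * (E : ℝ) ^ 2 * 2 ^ n / n := by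
  obtain ⟨w, hw⟩ : ∃ w : ℕ, w = n / (20 * E) := ⟨_, rfl⟩
  rw [← hw]
  have h1 : (univ \ win n w : Finset (Finset (Fin n))) ⊆
      univ.filter fun X => n + (2 * w + 1) ≤ 2 * X.card ∨ 2 * X.card + (2 * w + 1) ≤ n := by
    intro X hX
    rw [mem_sdiff, win, mem_filter] at hX
    rw [mem_filter]
    refine ⟨mem_univ _, ?_⟩
    have h2 := hX.2
    by_contra hc
    apply h2
    refine ⟨mem_univ _, ?_, ?_⟩ <;> omega
  have h2 := card_le_card h1
  have h3 := cheb n (2 * w + 1)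
  have h4 : n ≤ 20 * E * (2 * w + 1) := by
    have h5 : n < 20 * E * (w + 1) := by
      rw [hw]
      exact Nat.lt_mul_div_succ n (by omega)
    have h6 : 20 * E * (w + 1) ≤ 20 * E * (2 * w + 1) := Nat.mul_le_mul_left _ (by omega)
    omega
  have h7 : (2 * w + 1) ^ 2 * (univ \ win n w : Finset (Finset (Fin n))).card ≤ n * 2 ^ n :=
    le_trans (Nat.mul_le_mul_left _ h2) h3
  have h8 : n ^ 2 * (univ \ win n w : Finset (Finset (Fin n))).card ≤
      400 * E ^ 2 * (n * 2 ^ n) := by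
    calc n ^ 2 * (univ \ win n w : Finset (Finset (Fin n))).card
        ≤ (20 * E * (2 * w + 1)) ^ 2 * (univ \ win n w : Finset (Finset (Fin n))).card :=
          Nat.mul_le_mul_right _ (Nat.pow_le_pow_left h4 2)
      _ = 400 * E ^ 2 * ((2 * w + 1) ^ 2 * (univ \ win n w : Finset (Finset (Fin n))).card) := by
          ring
      _ ≤ 400 * E ^ 2 * (n * 2 ^ n) := Nat.mul_le_mul_left _ h7
  have hn0 : 0 < n := by omega
  have h9 : n * (univ \ win n w : Finset (Finset (Fin n))).card ≤ 400 * E ^ 2 * 2 ^ n := by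
    refine Nat.le_of_mul_le_mul_left (c := n) ?_ hn0
    calc n * (n * (univ \ win n w : Finset (Finset (Fin n))).card)
        = n ^ 2 * (univ \ win n w : Finset (Finset (Fin n))).card := by ring
      _ ≤ 400 * E ^ 2 * (n * 2 ^ n) := h8
      _ = n * (400 * E ^ 2 * 2 ^ n) := by ring
  have hn0' : (0 : ℝ) < n := by exact_mod_cast hn0
  rw [le_div_iff₀ hn0']
  have h10 : ((n * (univ \ win n w : Finset (Finset (Fin n))).card : ℕ) : ℝ) ≤
      ((400 * E ^ 2 * 2 ^ n : ℕ) : ℝ) := by exact_mod_cast h9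
  push_cast at h10
  linarith

theorem Nm_d {E n : ℕ} (hE : 1 ≤ E) (hn : 20 * E ≤ n) :
    (n : ℝ) / (20 * E) ≤ ((n / (10 * E) : ℕ) : ℝ) := by
  have hE' : (0 : ℝ) < 20 * E := by
    have : (1 : ℝ) ≤ E := by exact_mod_cast hE
    linarith
  rw [div_le_iff₀ hE']
  have h1 : n < 10 * E * (n / (10 * E) + 1) := Nat.lt_mul_div_succ n (by omega)
  have h2 : n ≤ (n / (10 * E)) * (20 * E) := by
    obtain ⟨d, hd⟩ : ∃ d : ℕ, d = n / (10 * E) := ⟨_, rfl⟩
    rw [← hd] at h1 ⊢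
    nlinarith
  exact_mod_cast h2

theorem Nm_C {n : ℕ} (hn : 1 ≤ n) :
    (2 : ℝ) ^ n ≤ (n.choose (n / 2) : ℝ) * Real.sqrt (2 * (n + 1)) := by
  have h1 := Cn_low hn
  have h2 : (((2 ^ n) ^ 2 : ℕ) : ℝ) ≤ (((n.choose (n / 2)) ^ 2 * (2 * (n + 1)) : ℕ) : ℝ) := by
    exact_mod_cast h1
  push_cast at h2
  have h3 : ((n.choose (n / 2) : ℝ) * Real.sqrt (2 * (n + 1))) ^ 2 =
      (n.choose (n / 2) : ℝ) ^ 2 * (2 * (n + 1)) := by
    rw [mul_pow, Real.sq_sqrt (by positivity)]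
  refine le_of_pow_le_pow_left₀ (n := 2) (by norm_num) (by positivity) ?_
  rw [h3]
  exact h2

theorem final_num {E : ℕ} (hE : 1 ≤ E) : ∃ N : ℕ, ∀ n : ℕ, N ≤ n → ∀ s0 K0 v : ℕ,
    (s0 : ℝ) ≤ 2 ^ n / (n / (10 * E) : ℕ) → (K0 : ℝ) ≤ (1 - 2 / E) * n.choose (n / 2) →
    (v : ℝ) ≤ 400 * (E : ℝ) ^ 2 * 2 ^ n / n →
    (1 / (1 / (n : ℝ) ^ 2)) ^ s0 * Real.exp (1 / (n : ℝ) ^ 2 * (2 ^ n * n)) *
      (2 * 2 ^ (K0 + v)) ≤ (2 : ℝ) ^ ((1 - 1 / (E : ℝ)) * n.choose (n / 2)) := by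
  obtain ⟨N, hN⟩ := log_sqrt (884 * (E : ℝ) ^ 3)
  refine ⟨N + 20 * E, fun n hn s0 K0 v hs hK hv => ?_⟩
  have hE1 : (1 : ℝ) ≤ E := by exact_mod_cast hE
  have hE0 : (0 : ℝ) < E := by linarith
  have hn1 : 1 ≤ n := by omega
  have hn1' : (1 : ℝ) ≤ n := by exact_mod_cast hn1
  have hn0 : (0 : ℝ) < n := by linarith
  have hL0 : 0 ≤ Real.log n := Real.log_nonneg hn1'
  have hd := Nm_d hE (show 20 * E ≤ n by omega)
  have hC := Nm_C hn1
  have hmain := hN n (by omega)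
  obtain ⟨C, hCd⟩ : ∃ C : ℝ, C = (n.choose (n / 2) : ℝ) := ⟨_, rfl⟩
  rw [← hCd] at hC hK ⊢
  obtain ⟨M, hM⟩ : ∃ M : ℝ, M = (2 : ℝ) ^ n := ⟨_, rfl⟩
  have hM0 : 0 < M := by rw [hM]; positivity
  have hMn : (n : ℝ) ≤ M := by
    rw [hM]
    have : n < 2 ^ n := Nat.lt_two_pow_self
    exact_mod_cast this.le
  rw [← hM] at hs hv hC ⊢
  obtain ⟨L, hL⟩ : ∃ L : ℝ, L = Real.log n := ⟨_, rfl⟩
  rw [← hL] at hL0 hmain
  obtain ⟨S, hS⟩ : ∃ S : ℝ, S = Real.sqrt (2 * (n + 1)) := ⟨_, rfl⟩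
  rw [← hS] at hC hmain
  have hS0 : 0 < S := by rw [hS]; exact Real.sqrt_pos.2 (by positivity)
  -- the bound for s0
  have hs' : (s0 : ℝ) ≤ 20 * E * M / n := by
    refine le_trans hs ?_
    have h1 : (0 : ℝ) < (n : ℝ) / (20 * E) := by positivity
    calc M / ((n / (10 * E) : ℕ) : ℝ) ≤ M / ((n : ℝ) / (20 * E)) :=
          div_le_div_of_nonneg_left hM0.le h1 hd
      _ = 20 * E * M / n := by field_simp
  have hl2 : Real.log 2 ≤ 1 := by
    have := Real.log_two_lt_d9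
    linarith
  have hl2' : 1 / 2 ≤ Real.log 2 := by
    have := Real.log_two_gt_d9
    linarith
  -- the key inequality
  have hkey : M / n * (442 * (E : ℝ) ^ 2 * (1 + L)) ≤ 1 / 2 * (C / E) := by
    have h1 : 884 * (E : ℝ) ^ 3 * (1 + L) * S * M ≤ n * (C * S) := by
      calc 884 * (E : ℝ) ^ 3 * (1 + L) * S * M ≤ n * M :=
            mul_le_mul_of_nonneg_right hmain hM0.le
        _ ≤ n * (C * S) := mul_le_mul_of_nonneg_left hC hn0.le
    have h2 : 884 * (E : ℝ) ^ 3 * (1 + L) * M ≤ n * C := by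
      refine le_of_mul_le_mul_right ?_ hS0
      linarith
    rw [div_mul_eq_mul_div, div_le_iff₀ hn0, mul_div_assoc', div_mul_eq_mul_div,
      le_div_iff₀ hE0]
    nlinarith
  have hsum : (s0 : ℝ) * (2 * L) + M / n + Real.log 2 + v * Real.log 2 ≤
      Real.log 2 * (C / E) := by
    have h1 : (s0 : ℝ) * (2 * L) ≤ 20 * E * M / n * (2 * L) :=
      mul_le_mul_of_nonneg_right hs' (by linarith)
    have h2 : (v : ℝ) * Real.log 2 ≤ 400 * (E : ℝ) ^ 2 * M / n := by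
      calc (v : ℝ) * Real.log 2 ≤ v * 1 :=
            mul_le_mul_of_nonneg_left hl2 (Nat.cast_nonneg v)
        _ ≤ 400 * (E : ℝ) ^ 2 * M / n := by linarith
    have h3 : 1 ≤ M / n := by rw [le_div_iff₀ hn0]; linarith
    have hMn0 : 0 < M / n := by positivity
    have h4 : 20 * E * M / n * (2 * L) + M / n + M / n + 400 * (E : ℝ) ^ 2 * M / n ≤
        M / n * (442 * (E : ℝ) ^ 2 * (1 + L)) := by
      have h5 : 20 * E * M / n * (2 * L) + M / n + M / n + 400 * (E : ℝ) ^ 2 * M / n =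
          M / n * (40 * E * L + 2 + 400 * (E : ℝ) ^ 2) := by ring
      rw [h5]
      refine mul_le_mul_of_nonneg_left ?_ hMn0.le
      have hEE : (E : ℝ) ≤ (E : ℝ) ^ 2 := by nlinarith
      have h6 : (E : ℝ) * L ≤ (E : ℝ) ^ 2 * L := mul_le_mul_of_nonneg_right hEE hL0
      have h7 : 0 ≤ (E : ℝ) ^ 2 * L := by positivity
      nlinarith
    have h8 : 1 / 2 * (C / E) ≤ Real.log 2 * (C / E) := by
      refine mul_le_mul_of_nonneg_right hl2' ?_
      rw [hCd]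
      positivity
    linarith
  -- conclusion
  have e1 : (1 / (1 / (n : ℝ) ^ 2)) ^ s0 = Real.exp (s0 * (2 * L)) := by
    rw [one_div_one_div, Real.exp_nat_mul]
    congr 1
    rw [hL, ← Real.log_rpow hn0 2, Real.exp_log (by positivity)]
    norm_num
  have e2 : 1 / (n : ℝ) ^ 2 * (M * n) = M / n := by
    field_simp
  have e3 : (2 : ℝ) * 2 ^ (K0 + v) = Real.exp (Real.log 2 + (K0 + v : ℝ) * Real.log 2) := by
    rw [Real.exp_add, Real.exp_log (by norm_num)]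
    congr 1
    have : ((K0 : ℝ) + (v : ℝ)) = ((K0 + v : ℕ) : ℝ) := by push_cast; ring
    rw [this, Real.exp_nat_mul, Real.exp_log (by norm_num)]
  rw [e1, e2, e3, ← Real.exp_add, ← Real.exp_add, Real.rpow_def_of_pos (by norm_num : (0 : ℝ) < 2)]
  apply Real.exp_le_exp.2
  have hK' : (K0 : ℝ) * Real.log 2 ≤ ((1 - 2 / E) * C) * Real.log 2 :=
    mul_le_mul_of_nonneg_right hK (by linarith)
  have e4 : Real.log 2 * ((1 - 1 / (E : ℝ)) * C) =
      ((1 - 2 / E) * C) * Real.log 2 + Real.log 2 * (C / E) := by ring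
  rw [e4]
  linarith

end Pool.Agent.H15.AA
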