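import Pool.Agent.H15.AA.Zs
import Pool.Agent.H15.AA.Cb
import Pool.Agent.H15.AA.Cm
import Pool.Agent.H15.AA.In
import Pool.Agent.H15.AA.Nm

/-! The theorem: few union-closed families are thin. -/

set_option autoImplicit false

open Finset

namespace Pool.Agent.H15.AA

theorem exp_neg_le {x : ℝ} (h0 : 0 ≤ x) (h1 : x ≤ 1) : Real.exp (-x) ≤ 1 - x / 2 := by
  rw [Real.exp_neg]
  have h2 : 1 + x ≤ Real.exp x := by linarith [Real.add_one_le_exp x]
  have h3 : (1 - x / 2) * (1 + x) ≥ 1 := by nlinarith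
  have h4 : 0 < Real.exp x := Real.exp_pos x
  rw [inv_le_iff_one_le_mul₀ h4]
  have h5 : 0 ≤ 1 - x / 2 := by linarith
  nlinarith

theorem exp_up {n : ℕ} (hn : 2000 ^ 2 ≤ n) :
    Real.exp (-(((Nat.sqrt n / 40 : ℕ) : ℝ) ^ 2 / n)) ≤ 1 - 1 / 3400 := by
  obtain ⟨r, hr⟩ : ∃ r, r = Nat.sqrt n := ⟨_, rfl⟩
  rw [← hr]
  have hr0 : 2000 ≤ r := by
    rw [hr, Nat.le_sqrt']
    exact hn
  have hr1 : n < (r + 1) ^ 2 := by
    rw [hr]
    exact Nat.lt_succ_sqrt' n
  obtain ⟨h, hh⟩ : ∃ h, h = r / 40 := ⟨_, rfl⟩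
  rw [← hh]
  have h1 : r < 40 * (h + 1) := by omega
  have h2 : 10 * (r + 1) ≤ 412 * h := by omega
  have h3 : n ≤ 1700 * h ^ 2 := by
    have h4 : (10 * (r + 1)) ^ 2 ≤ (412 * h) ^ 2 := Nat.pow_le_pow_left h2 2
    nlinarith
  have hn0 : (0 : ℝ) < n := by
    have : 0 < n := by omega
    exact_mod_cast this
  have h5 : (1 / 1700 : ℝ) ≤ (h : ℝ) ^ 2 / n := by
    rw [div_le_div_iff₀ (by norm_num) hn0]
    have : (n : ℝ) ≤ 1700 * (h : ℝ) ^ 2 := by exact_mod_cast h3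
    linarith
  calc Real.exp (-((h : ℝ) ^ 2 / n)) ≤ Real.exp (-(1 / 1700)) := Real.exp_le_exp.2 (by linarith)
    _ ≤ 1 - (1 / 1700) / 2 := exp_neg_le (by norm_num) (by norm_num)
    _ = 1 - 1 / 3400 := by norm_num

theorem bad_container {n E : ℕ} (hE : E = 2000000) (hn : (60 * E) ^ 2 ≤ n)
    {A : Finset (Finset (Fin n))} (hA : UC A) (hs : 5 * A.card < 2 * 2 ^ n) :
    ∃ S : Finset (Finset (Fin n) × Fin n), S.card ≤ 2 ^ n / (n / (10 * E)) ∧
      (∀ X ∈ gen A, X ∈ win n (n / (20 * E)) → X ∈ Kst (win n (n / (20 * E))) S (1 / (E : ℝ))) ∧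
      (Kst (win n (n / (20 * E))) S (1 / (E : ℝ))).card ≤
        ⌊(1 - 2 / (E : ℝ)) * n.choose (n / 2)⌋₊ := by
  have hn1 : 14400000000000000 ≤ n := by
    rw [hE] at hn
    have : (60 * 2000000) ^ 2 = 14400000000000000 := by norm_num
    omega
  have hE0 : (0 : ℝ) < E := by rw [hE]; norm_num
  have hn0 : (0 : ℝ) < n := by exact_mod_cast (by omega : 0 < n)
  obtain ⟨w, hw⟩ : ∃ w, w = n / (20 * E) := ⟨_, rfl⟩
  obtain ⟨d, hd⟩ : ∃ d, d = n / (10 * E) := ⟨_, rfl⟩
  rw [← hw, ← hd]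
  have hw4 : 4 * w ≤ n := by rw [hw, hE]; omega
  have hd0 : 0 < d := by rw [hd, hE]; omega
  have hwn : (w : ℝ) ≤ n / (20 * E) := by
    have := Nat.cast_div_le (α := ℝ) (m := n) (n := 20 * E)
    rw [hw]
    push_cast at this
    exact this
  have hdn : (d : ℝ) ≤ n / (10 * E) := by
    have := Nat.cast_div_le (α := ℝ) (m := n) (n := 10 * E)
    rw [hd]
    push_cast at this
    exact this
  have hε : 4 * ((d : ℝ) + 2 * w) ≤ 1 / (E : ℝ) * n := by
    have h1 : 4 * ((n : ℝ) / (10 * E) + 2 * (n / (20 * E))) = 8 / 10 * (1 / (E : ℝ) * n) := by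
      field_simp
      ring
    have h2 : 0 < 1 / (E : ℝ) * n := by positivity
    linarith
  obtain ⟨S, hS1, hS2, hS3⟩ := container hA (by omega : 0 < n) hw4 hε
  refine ⟨S, (Nat.le_div_iff_mul_le hd0).2 hS1, hS2, ?_⟩
  -- the missing sets
  have hmiss := hits_miss (by omega : 400 ≤ n) A hs
  obtain ⟨h, hh⟩ : ∃ h, h = Nat.sqrt n / 40 := ⟨_, rfl⟩
  have hx := exp_up (by omega : 2000 ^ 2 ≤ n)
  rw [← hh] at hmiss hx
  have hr : 60 * E ≤ Nat.sqrt n := by
    rw [Nat.le_sqrt']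
    exact hn
  have hrw : 3 * Nat.sqrt n ≤ w := by
    rw [hw, Nat.le_div_iff_mul_le (by omega : 0 < 20 * E)]
    have h1 : Nat.sqrt n * Nat.sqrt n ≤ n := Nat.sqrt_le n
    nlinarith
  have hK := Kst_card (V := win n w) (S := S) (l := (n + 2 * h + 1) / 2) (ε := 1 / (E : ℝ))
    (c := 1 / 3400) (h := 1 / 100) (T := univ.filter fun Z : Finset (Fin n) => Z ∉ A ∧
      n + 2 * h ≤ 2 * Z.card ∧ 2 * Z.card ≤ n + 6 * Nat.sqrt n)
    (by positivity) (by rw [hE]; norm_num) (by norm_num) (by norm_num) (by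
      intro Z hZ
      obtain ⟨h1, h2, h3⟩ := (Finset.mem_filter.1 hZ).2
      refine ⟨by omega, hS3 Z ?_ h1⟩
      unfold win
      rw [Finset.mem_filter]
      exact ⟨Finset.mem_univ _, by omega, by omega⟩) hmiss (by
      intro k hk
      have h1 := choose_up (n := n) (h := h) (k := k) (by omega)
      refine h1.trans ?_
      exact mul_le_mul_of_nonneg_right hx (Nat.cast_nonneg _))
  have hC0 : (0 : ℝ) < n.choose (n / 2) := by
    exact_mod_cast Nat.choose_pos (Nat.div_le_self n 2)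
  apply Nat.le_floor
  have hEr : (E : ℝ) = 2000000 := by rw [hE]; norm_num
  rw [hEr] at hK ⊢
  have h1 : (0 : ℝ) < 1 - 1 / 2000000 := by norm_num
  have h2 : (((Kst (win n w) S (1 / 2000000)).card : ℝ)) * (1 - 1 / 2000000) ≤
      ((1 - 2 / 2000000) * n.choose (n / 2)) * (1 - 1 / 2000000) := by
    refine hK.trans ?_
    have : (1 - 1 / 3400 * (1 / 100) + 1 / 3400 * (1 / 2000000) : ℝ) ≤
      (1 - 2 / 2000000) * (1 - 1 / 2000000) := by norm_num
    nlinarith
  exact le_of_mul_le_mul_right h2 h1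

instance {n : ℕ} (A : Finset (Finset (Fin n))) : Decidable (UC A) := by
  unfold UC; infer_instance

/-- The number of thin union-closed families. -/
theorem few_thin : ∃ N : ℕ, ∀ n : ℕ, N ≤ n →
    ((univ.filter fun A : Finset (Finset (Fin n)) => UC A ∧ 5 * A.card < 2 * 2 ^ n).card : ℝ) ≤
      (2 : ℝ) ^ ((1 - 1 / (2000000 : ℝ)) * n.choose (n / 2)) := by
  obtain ⟨E, hE⟩ : ∃ E : ℕ, E = 2000000 := ⟨_, rfl⟩
  obtain ⟨N, hN⟩ := final_num (E := E) (by omega)
  refine ⟨N + (60 * E) ^ 2, ?_⟩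
  intro n hn
  have hn2 : (60 * E) ^ 2 ≤ n := by omega
  have hn1 : 14400000000000000 ≤ n := by
    rw [hE] at hn2
    have : (60 * 2000000) ^ 2 = 14400000000000000 := by norm_num
    omega
  have hn0 : (0 : ℝ) < n := by exact_mod_cast (by omega : 0 < n)
  have hEr : (E : ℝ) = 2000000 := by rw [hE]; norm_num
  have hC0 : (0 : ℝ) < n.choose (n / 2) := by
    exact_mod_cast Nat.choose_pos (Nat.div_le_self n 2)
  have hcount := count (n := n) (s0 := 2 ^ n / (n / (10 * E)))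
    (K0 := ⌊(1 - 2 / (E : ℝ)) * n.choose (n / 2)⌋₊) (w := n / (20 * E)) (ε := 1 / (E : ℝ))
    (fun A : Finset (Finset (Fin n)) => UC A ∧ 5 * A.card < 2 * 2 ^ n) (by
      intro A hA
      exact ⟨hA.1, bad_container hE hn2 hA.1 hA.2⟩)
  have hx0 : (0 : ℝ) < 1 / (n : ℝ) ^ 2 := by positivity
  have hn1' : (1 : ℝ) ≤ n := by exact_mod_cast (by omega : 1 ≤ n)
  have hx1 : 1 / (n : ℝ) ^ 2 ≤ 1 := by
    rw [div_le_one (by positivity)]
    exact one_le_pow₀ hn1'
  have hsmall := card_small (α := Finset (Fin n) × Fin n) (2 ^ n / (n / (10 * E))) hx0 hx1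
  have hcard : (Fintype.card (Finset (Fin n) × Fin n) : ℝ) = 2 ^ n * n := by
    rw [Fintype.card_prod, Fintype.card_finset, Fintype.card_fin]
    push_cast
    rfl
  rw [hcard] at hsmall
  have hfin := hN n (by omega) (2 ^ n / (n / (10 * E))) ⌊(1 - 2 / (E : ℝ)) * n.choose (n / 2)⌋₊
    (univ \ win n (n / (20 * E))).card (by
      have := Nat.cast_div_le (α := ℝ) (m := 2 ^ n) (n := n / (10 * E))
      push_cast at this ⊢
      exact this) (by
      apply Nat.floor_le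
      rw [hEr]
      have : (0 : ℝ) ≤ 1 - 2 / 2000000 := by norm_num
      positivity) (comp_card (by omega) (by omega))
  rw [hEr] at hfin
  refine le_trans ?_ hfin
  have h1 : ((univ.filter fun A : Finset (Finset (Fin n)) => UC A ∧ 5 * A.card < 2 * 2 ^ n).card : ℝ) ≤
      ((univ.filter fun S : Finset (Finset (Fin n) × Fin n) =>
        S.card ≤ 2 ^ n / (n / (10 * E))).card : ℝ) *
        (2 * 2 ^ (⌊(1 - 2 / (E : ℝ)) * n.choose (n / 2)⌋₊ + (univ \ win n (n / (20 * E))).card)) := by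
    have h2 := (Nat.cast_le (α := ℝ)).2 hcount
    push_cast at h2
    exact h2
  refine h1.trans ?_
  rw [hEr]
  exact mul_le_mul_of_nonneg_right hsmall (by positivity)

/-- Almost all instances of Poonen's conjecture are not counterexamples. -/
theorem almost_all : ∃ c : ℝ, 0 < c ∧ ∃ N : ℕ, ∀ n : ℕ, N ≤ n →
    ((univ.filter fun A : Finset (Finset (Fin n)) => Inst A ∧
      ∀ x, 2 * (A.filter fun X => x ∈ X).card ≤ A.card).card : ℝ) ≤
      (2 : ℝ) ^ (-(c * n.choose (n / 2))) *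
        (univ.filter fun A : Finset (Finset (Fin n)) => Inst A).card := by
  obtain ⟨N, hN⟩ := few_thin
  refine ⟨1 / 2000000, by norm_num, N + 3, ?_⟩
  intro n hn
  have h1 := hN n (by omega)
  have h2 : (univ.filter fun A : Finset (Finset (Fin n)) => Inst A ∧
      ∀ x, 2 * (A.filter fun X => x ∈ X).card ≤ A.card) ⊆
      univ.filter fun A : Finset (Finset (Fin n)) => UC A ∧ 5 * A.card < 2 * 2 ^ n := by
    intro A hA
    obtain ⟨hA1, hA2⟩ := (Finset.mem_filter.1 hA).2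
    refine Finset.mem_filter.2 ⟨Finset.mem_univ _, hA1.1, ?_⟩
    by_contra hc
    have hne : A.Nonempty := by
      rw [Finset.nonempty_iff_ne_empty]
      rintro rfl
      have h3 := hA1.2.1
      rw [Finset.sup_empty] at h3
      have h4 : (⟨0, by omega⟩ : Fin n) ∈ (⊥ : Finset (Fin n)) := by
        rw [h3]
        exact Finset.mem_univ _
      exact absurd h4 (Finset.notMem_empty _)
    obtain ⟨x, hx⟩ := dense_inst hA1 (by omega) hne
    have := hA2 x
    omega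
  have h3 : ((univ.filter fun A : Finset (Finset (Fin n)) => Inst A ∧
      ∀ x, 2 * (A.filter fun X => x ∈ X).card ≤ A.card).card : ℝ) ≤
      (2 : ℝ) ^ ((1 - 1 / (2000000 : ℝ)) * n.choose (n / 2)) :=
    le_trans (by exact_mod_cast Finset.card_le_card h2) h1
  have h4 : ((2 : ℝ) ^ (n.choose (n / 2))) ≤
      ((univ.filter fun A : Finset (Finset (Fin n)) => Inst A).card : ℝ) := by
    exact_mod_cast inst_card (by omega : 3 ≤ n)
  calc _ ≤ (2 : ℝ) ^ ((1 - 1 / (2000000 : ℝ)) * n.choose (n / 2)) := h3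
    _ = (2 : ℝ) ^ (-(1 / 2000000 * (n.choose (n / 2) : ℝ))) * (2 : ℝ) ^ (n.choose (n / 2)) := by
        rw [← Real.rpow_natCast, ← Real.rpow_add (by norm_num)]
        congr 1
        ring
    _ ≤ _ := mul_le_mul_of_nonneg_left h4 (by positivity)

end Pool.Agent.H15.AA
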