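import Pool.Agent.H15.AA.FDefs
import Pool.Agent.H15.AA.Bi
import Pool.Agent.H15.AA.Va

/-!
# Row Fm: the base layer

Write `C = n.choose (n / 2)`, `r = Nat.sqrt n` (`r ^ 2 ≤ n < (r + 1) ^ 2`).
Proofs. `U_succ`: the sets with exactly `k` elements. `U_anti`: clear. `sqrt_C`: `Cn_up`:
`(r C) ^ 2 ≤ (n + 1) C ^ 2 ≤ (2 ^ n) ^ 2`. `layer_up`: `choose_lower`: with
`k = (n + 1) / 2 + i`: for `j ≥ 0`, `k0 = (n + 1) / 2`, `4 (j + 1) ≤ n / 2`:
`C(n, k0 + j + 1) / C(n, k0 + j) = (n - k0 - j) / (k0 + j + 1) ≥ 1 - (4 j + 4) / n ≥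
exp (-(8 j + 8) / n)` (`1 - x ≥ exp (-2 x)` for `0 ≤ x ≤ 1 / 2`, which follows from
`exp (2 x) ≥ 1 + 2 x` and `(1 - x) (1 + 2 x) ≥ 1`), so
`C(n, k0 + i) ≥ exp (-4 i (i + 1) / n) C`; `2 i ≤ t r` gives `4 i (i + 1) / n ≤ 8 i ^ 2 / n ≤ 2 t ^ 2`, for
`n` so large that `4 (i + 1) ≤ n / 2`. So `c = exp (-2 t ^ 2)`.
`base`: `l` the least natural number `k` with `U n k ≤ M` (`Nat.find`; `U n (n + 1) = 0`). Then `l ≥ 1`
(`U n 0 = 2 ^ n > M`) and `M < U n (l - 1)`. Lower bound: if `2 l ≤ n` then `U n l ≥ 2 ^ n / 2`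
(`half_up` with `h = 0`, `U_anti`), contradiction with `5 M ≤ 2 * 2 ^ n`. So with `k0 = (n + 1) / 2`,
`l = k0 + h`, the condition `n + 2 h ≤ 2 X.card` is implied by `l ≤ X.card` (and conversely), so `half_up`
gives `2 ^ n ≤ 2 U n l + 2 h C ≤ (4 / 5) 2 ^ n + 2 h C`, so `10 h C ≥ 2 ^ n ≥ r C` and `10 h ≥ r`.
Upper bound: `cheb` with `t' = T * r`: a set with `n + t' ≤ 2 X.card`; `(T r) ^ 2 * #{n + T r ≤ 2 X.card} ≤
n 2 ^ n ≤ 4 r ^ 2 2 ^ n` (`n < (r + 1) ^ 2 ≤ 4 r ^ 2`), so this number is at most `4 / T ^ 2 * 2 ^ n ≤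
δ 2 ^ n ≤ M` if `T ^ 2 ≥ 4 / δ`. So `U n k ≤ M` for `k = (n + T r + 1) / 2`, hence `l ≤ k` and
`2 l ≤ n + T r + 1 ≤ n + (T + 1) r`: `t = T + 1`.
-/

set_option autoImplicit false

open Finset

namespace Pool.Agent.H15.AA

theorem U_succ (n k : ℕ) : U n k = U n (k + 1) + n.choose k := by
  unfold U
  have h1 : (univ.filter fun X : Finset (Fin n) => k ≤ X.card) =
      (univ.filter fun X : Finset (Fin n) => k + 1 ≤ X.card) ∪ powersetCard k univ := by
    ext X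
    rw [mem_union, mem_filter, mem_filter, mem_powersetCard]
    constructor
    · rintro ⟨h1, h2⟩
      rcases Nat.lt_or_ge k X.card with h | h
      · exact Or.inl ⟨h1, h⟩
      · exact Or.inr ⟨subset_univ _, le_antisymm h h2⟩
    · rintro (⟨h1, h2⟩ | ⟨h1, h2⟩)
      · exact ⟨h1, by omega⟩
      · exact ⟨mem_univ _, by omega⟩
  have h2 : Disjoint (univ.filter fun X : Finset (Fin n) => k + 1 ≤ X.card) (powersetCard k univ) := by
    rw [disjoint_left]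
    intro X h1 h2
    have h3 := (mem_filter.1 h1).2
    have h4 := (mem_powersetCard.1 h2).2
    omega
  rw [h1, card_union_of_disjoint h2, card_powersetCard, card_univ, Fintype.card_fin]

theorem U_anti {n k k' : ℕ} (h : k ≤ k') : U n k' ≤ U n k := by
  unfold U
  refine card_le_card fun X hX => ?_
  rw [mem_filter] at hX ⊢
  exact ⟨hX.1, h.trans hX.2⟩

theorem sqrt_C (n : ℕ) : Nat.sqrt n * n.choose (n / 2) ≤ 2 ^ n := by
  have h1 := Cn_up n
  have h2 := Nat.sqrt_le' n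
  have h3 : (Nat.sqrt n * n.choose (n / 2)) ^ 2 ≤ (2 ^ n) ^ 2 := by
    calc (Nat.sqrt n * n.choose (n / 2)) ^ 2 = (n.choose (n / 2)) ^ 2 * Nat.sqrt n ^ 2 := by ring
      _ ≤ (n.choose (n / 2)) ^ 2 * (n + 1) := Nat.mul_le_mul_left _ (by omega)
      _ ≤ _ := h1
  exact (Nat.pow_le_pow_iff_left (by norm_num)).1 h3

theorem Fm_exp {x : ℝ} (h0 : 0 ≤ x) (h1 : x ≤ 1 / 2) : Real.exp (-(2 * x)) ≤ 1 - x := by
  have h2 := Real.add_one_le_exp (2 * x)
  rw [Real.exp_neg, inv_le_comm₀ (Real.exp_pos _) (by linarith)]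
  refine le_trans ?_ h2
  rw [inv_le_iff_one_le_mul₀ (by linarith)]
  nlinarith

theorem Fm_step {n j : ℕ} (hj : 8 * (j + 1) ≤ n) :
    Real.exp (-((8 * (j : ℝ) + 8) / n)) * n.choose ((n + 1) / 2 + j) ≤ n.choose ((n + 1) / 2 + j + 1) := by
  have hn0 : (0 : ℝ) < n := by
    have : 0 < n := by omega
    exact_mod_cast this
  obtain ⟨q, hq⟩ : ∃ q, q = (n + 1) / 2 + j := ⟨_, rfl⟩
  rw [← hq]
  have hqn : q ≤ n := by omega
  have h1 := Nat.choose_succ_right_eq n q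
  have h2 : (n.choose (q + 1) : ℝ) * (q + 1) = n.choose q * (n - q) := by
    have h3 : ((n.choose (q + 1) * (q + 1) : ℕ) : ℝ) = ((n.choose q * (n - q) : ℕ) : ℝ) := by
      rw [h1]
    push_cast [Nat.cast_sub hqn] at h3
    exact h3
  have hq0 : (0 : ℝ) < (q : ℝ) + 1 := by positivity
  have hq1 : 2 * q + 1 ≤ n + 2 * j + 2 := by omega
  have hq1' : 2 * (q : ℝ) + 1 ≤ n + 2 * j + 2 := by exact_mod_cast hq1
  have hq2 : n ≤ 2 * (q + 1) := by omega
  have hq2' : (n : ℝ) ≤ 2 * (q + 1) := by exact_mod_cast hq2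
  have hj' : 8 * ((j : ℝ) + 1) ≤ n := by exact_mod_cast hj
  have hj0 : (0 : ℝ) ≤ j := Nat.cast_nonneg j
  have hx0 : 0 ≤ (4 * (j : ℝ) + 4) / n := by positivity
  have hx1 : (4 * (j : ℝ) + 4) / n ≤ 1 / 2 := by
    rw [div_le_iff₀ hn0]
    linarith
  have he := Fm_exp hx0 hx1
  have he2 : 2 * ((4 * (j : ℝ) + 4) / n) = (8 * (j : ℝ) + 8) / n := by ring
  rw [he2] at he
  have h4 : (q + 1) * (1 - (4 * (j : ℝ) + 4) / n) ≤ (n : ℝ) - q := by
    have h5 : (q + 1) * (1 - (4 * (j : ℝ) + 4) / n) = ((q + 1) * (n - (4 * (j : ℝ) + 4))) / n := by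
      field_simp
    rw [h5, div_le_iff₀ hn0]
    have h6 : (n : ℝ) * (2 * j + 2) ≤ 2 * (q + 1) * (2 * j + 2) :=
      mul_le_mul_of_nonneg_right hq2' (by linarith)
    have h7 : (n : ℝ) * (2 * q + 1) ≤ n * (n + 2 * j + 2) := mul_le_mul_of_nonneg_left hq1' hn0.le
    nlinarith
  have hc0 : (0 : ℝ) ≤ n.choose q := Nat.cast_nonneg _
  have h7 : Real.exp (-((8 * (j : ℝ) + 8) / n)) * n.choose q * (q + 1) ≤
      (n.choose (q + 1) : ℝ) * (q + 1) := by
    rw [h2]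
    calc Real.exp (-((8 * (j : ℝ) + 8) / n)) * n.choose q * (q + 1)
        ≤ (1 - (4 * (j : ℝ) + 4) / n) * n.choose q * (q + 1) := by
          apply mul_le_mul_of_nonneg_right _ hq0.le
          exact mul_le_mul_of_nonneg_right he hc0
      _ = n.choose q * ((q + 1) * (1 - (4 * (j : ℝ) + 4) / n)) := by ring
      _ ≤ n.choose q * (n - q) := mul_le_mul_of_nonneg_left h4 hc0
  exact le_of_mul_le_mul_right h7 hq0

theorem Fm_ind (n i : ℕ) (hi : 8 * i ≤ n) :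
    Real.exp (-((4 * (i : ℝ) * (i + 1)) / n)) * n.choose ((n + 1) / 2) ≤ n.choose ((n + 1) / 2 + i) := by
  induction i with
  | zero => simp
  | succ i ih =>
    have h1 := Fm_step (n := n) (j := i) hi
    have h2 := ih (by omega)
    calc Real.exp (-((4 * ((i + 1 : ℕ) : ℝ) * (((i + 1 : ℕ) : ℝ) + 1)) / n)) * n.choose ((n + 1) / 2)
        = Real.exp (-((8 * (i : ℝ) + 8) / n)) * (Real.exp (-((4 * (i : ℝ) * (i + 1)) / n)) *
            n.choose ((n + 1) / 2)) := by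
          rw [← mul_assoc, ← Real.exp_add]
          congr 2
          push_cast
          ring
      _ ≤ Real.exp (-((8 * (i : ℝ) + 8) / n)) * n.choose ((n + 1) / 2 + i) :=
          mul_le_mul_of_nonneg_left h2 (Real.exp_pos _).le
      _ ≤ n.choose ((n + 1) / 2 + (i + 1)) := h1

theorem layer_up (t : ℕ) : ∃ c : ℝ, 0 < c ∧ ∃ N : ℕ, ∀ n : ℕ, N ≤ n → ∀ k : ℕ, n ≤ 2 * k →
    2 * k ≤ n + t * Nat.sqrt n → c * n.choose (n / 2) ≤ n.choose k := by
  refine ⟨Real.exp (-(2 * (t : ℝ) ^ 2)), Real.exp_pos _, (4 * t) * (4 * t) + 1, ?_⟩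
  intro n hn k hk1 hk2
  obtain ⟨i, rfl⟩ : ∃ i, k = (n + 1) / 2 + i := ⟨k - (n + 1) / 2, by omega⟩
  obtain ⟨r, hr⟩ : ∃ r, r = Nat.sqrt n := ⟨_, rfl⟩
  rw [← hr] at hk2
  have hr2 : r ^ 2 ≤ n := by rw [hr]; exact Nat.sqrt_le' n
  have hr3 : 4 * t ≤ r := by
    rw [hr, Nat.le_sqrt]
    omega
  have hi : 2 * i ≤ t * r := by omega
  have hi8 : 8 * i ≤ n := by
    calc 8 * i = 4 * (2 * i) := by ring
      _ ≤ 4 * (t * r) := Nat.mul_le_mul_left _ hi
      _ = (4 * t) * r := by ring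
      _ ≤ r * r := Nat.mul_le_mul_right _ hr3
      _ = r ^ 2 := by ring
      _ ≤ n := hr2
  have h1 : n.choose ((n + 1) / 2) = n.choose (n / 2) := by
    have h2 : (n + 1) / 2 = n - n / 2 := by omega
    rw [h2]
    exact Nat.choose_symm (by omega)
  rw [← h1]
  refine le_trans ?_ (Fm_ind n i hi8)
  apply mul_le_mul_of_nonneg_right _ (Nat.cast_nonneg _)
  apply Real.exp_le_exp.2
  have hn0 : (0 : ℝ) < n := by
    have : 0 < n := by omega
    exact_mod_cast this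
  have h3 : 4 * i * (i + 1) ≤ 2 * t ^ 2 * n := by
    rcases Nat.eq_zero_or_pos i with h | h
    · rw [h]
      simp
    · calc 4 * i * (i + 1) ≤ 4 * i * (i + i) := Nat.mul_le_mul_left _ (by omega)
        _ = 2 * (2 * i) ^ 2 := by ring
        _ ≤ 2 * (t * r) ^ 2 := Nat.mul_le_mul_left _ (Nat.pow_le_pow_left hi 2)
        _ = 2 * t ^ 2 * r ^ 2 := by ring
        _ ≤ 2 * t ^ 2 * n := Nat.mul_le_mul_left _ hr2
  have h4 : 4 * (i : ℝ) * (i + 1) ≤ 2 * (t : ℝ) ^ 2 * n := by exact_mod_cast h3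
  have h5 : (4 * (i : ℝ) * (i + 1)) / n ≤ 2 * (t : ℝ) ^ 2 := by
    rw [div_le_iff₀ hn0]
    exact h4
  linarith

theorem base {δ : ℝ} (hδ : 0 < δ) : ∃ t N : ℕ, ∀ n : ℕ, N ≤ n → ∀ M : ℕ, δ * 2 ^ n ≤ M →
    5 * M ≤ 2 * 2 ^ n → ∃ l : ℕ, 1 ≤ l ∧ U n l ≤ M ∧ M < U n (l - 1) ∧
      5 * n + Nat.sqrt n ≤ 10 * l ∧ 2 * l ≤ n + t * Nat.sqrt n := by
  obtain ⟨T, hT⟩ : ∃ T : ℕ, 4 / δ ≤ T := exists_nat_ge _
  refine ⟨T + 1, 1, ?_⟩
  intro n hn M hδM h5M
  classical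
  obtain ⟨r, hr⟩ : ∃ r, r = Nat.sqrt n := ⟨_, rfl⟩
  have hr1 : 1 ≤ r := by
    rw [hr, Nat.le_sqrt]
    omega
  have hrn : n ≤ 4 * r ^ 2 := by
    have h1 := Nat.succ_le_succ_sqrt' n
    rw [← hr] at h1
    have h2 : n < (r + 1) ^ 2 := by
      have := Nat.lt_succ_sqrt' n
      rw [← hr] at this
      exact this
    nlinarith
  have h2n : 0 < 2 ^ n := by positivity
  have hex : ∃ k, U n k ≤ M := by
    refine ⟨n + 1, ?_⟩
    unfold U
    rw [card_eq_zero.2]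
    · exact Nat.zero_le _
    · rw [filter_eq_empty_iff]
      intro X _ h
      have := card_le_univ X
      rw [Fintype.card_fin] at this
      omega
  have hU0 : U n 0 = 2 ^ n := by
    unfold U
    rw [filter_true_of_mem (fun X _ => Nat.zero_le _), card_univ, Fintype.card_finset, Fintype.card_fin]
  obtain ⟨l, hl⟩ : ∃ l, l = Nat.find hex := ⟨_, rfl⟩
  have hl1 : U n l ≤ M := by
    rw [hl]
    exact Nat.find_spec hex
  have hl0 : 1 ≤ l := by
    rcases Nat.eq_zero_or_pos l with h | h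
    · rw [h, hU0] at hl1
      omega
    · exact h
  have hl2 : M < U n (l - 1) := by
    have h1 := Nat.find_min hex (m := l - 1) (by omega)
    omega
  have hC := sqrt_C n
  rw [← hr] at hC
  have hCpos : 0 < n.choose (n / 2) := Nat.choose_pos (by omega)
  refine ⟨l, hl0, hl1, hl2, ?_, ?_⟩
  · rw [← hr]
    by_contra hcon
    push Not at hcon
    have h1 := half_up n (l - (n + 1) / 2)
    have h2 : (univ.filter fun X : Finset (Fin n) => n + 2 * (l - (n + 1) / 2) ≤ 2 * X.card).card ≤ U n l := by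
      unfold U
      refine card_le_card fun X hX => ?_
      rw [mem_filter] at hX ⊢
      exact ⟨mem_univ _, by omega⟩
    obtain ⟨h, hh⟩ : ∃ h, h = l - (n + 1) / 2 := ⟨_, rfl⟩
    rw [← hh] at h1 h2
    have h3 : h = 0 ∨ 10 * h < r := by omega
    have h4 : 2 ^ n ≤ 10 * h * n.choose (n / 2) := by nlinarith
    rcases h3 with h3 | h3
    · rw [h3] at h4
      simp at h4
    · have h5 : 10 * h * n.choose (n / 2) < r * n.choose (n / 2) := Nat.mul_lt_mul_of_pos_right h3 hCpos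
      omega
  · rw [← hr]
    have h1 := cheb n (T * r)
    have h2 : U n ((n + T * r + 1) / 2) ≤ (univ.filter fun X : Finset (Fin n) =>
      n + T * r ≤ 2 * X.card ∨ 2 * X.card + T * r ≤ n).card := by
      unfold U
      refine card_le_card fun X hX => ?_
      rw [mem_filter] at hX ⊢
      exact ⟨mem_univ _, Or.inl (by omega)⟩
    have h3 : T ^ 2 * U n ((n + T * r + 1) / 2) ≤ 4 * 2 ^ n := by
      have h4 : r ^ 2 * (T ^ 2 * U n ((n + T * r + 1) / 2)) ≤ r ^ 2 * (4 * 2 ^ n) := by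
        calc r ^ 2 * (T ^ 2 * U n ((n + T * r + 1) / 2)) = (T * r) ^ 2 * U n ((n + T * r + 1) / 2) := by ring
          _ ≤ (T * r) ^ 2 * _ := Nat.mul_le_mul_left _ h2
          _ ≤ n * 2 ^ n := h1
          _ ≤ (4 * r ^ 2) * 2 ^ n := Nat.mul_le_mul_right _ hrn
          _ = r ^ 2 * (4 * 2 ^ n) := by ring
      exact Nat.le_of_mul_le_mul_left h4 (by positivity)
    have hTpos : (0 : ℝ) < T := lt_of_lt_of_le (by positivity) hT
    have hT1 : (1 : ℝ) ≤ T := by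
      have : 0 < T := by exact_mod_cast hTpos
      exact_mod_cast this
    have hUM : U n ((n + T * r + 1) / 2) ≤ M := by
      have h5 : ((T : ℝ) ^ 2) * (U n ((n + T * r + 1) / 2) : ℝ) ≤ 4 * 2 ^ n := by exact_mod_cast h3
      have h6 : 4 ≤ T * δ := by
        rw [div_le_iff₀ hδ] at hT
        exact hT
      have h7 : (T : ℝ) * (U n ((n + T * r + 1) / 2) : ℝ) ≤ 4 * 2 ^ n := by
        refine le_trans ?_ h5
        apply mul_le_mul_of_nonneg_right _ (Nat.cast_nonneg _)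
        nlinarith
      have h8 : (T : ℝ) * (U n ((n + T * r + 1) / 2) : ℝ) ≤ T * (δ * 2 ^ n) := by
        refine h7.trans ?_
        have : (0 : ℝ) < 2 ^ n := by positivity
        nlinarith
      have h9 : (U n ((n + T * r + 1) / 2) : ℝ) ≤ M := (le_of_mul_le_mul_left h8 hTpos).trans hδM
      exact_mod_cast h9
    have hlk : l ≤ (n + T * r + 1) / 2 := by
      rw [hl]
      exact Nat.find_min' hex hUM
    have h10 : (T + 1) * r = T * r + r := by ring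
    omega

end Pool.Agent.H15.AA
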