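import Pool.Agent.H15.AA.FDefs
import Pool.Agent.H15.AA.Va

/-!
# Row Fs: the sum of the sizes

Proof. `∑ X ∈ A, X.card = ∑ x, (A.filter fun X => x ∈ X).card` (exchange the sums), so `Viol A` gives
`∑ X ∈ A, (2 X.card - n) ≤ 0` (real numbers). Split: the members with `k ≤ X.card` contribute at least
`g` each (`2 X.card - n ≥ 2 k - n ≥ g`). For the others, with `y = 2 X.card - n` and
`0 ≤ (|y| - 2 a) ^ 2`: `-y ≤ |y| ≤ a + y ^ 2 / (4 a)`, and
`∑ X ∈ A, card < k, y ^ 2 ≤ ∑ X, y ^ 2 = n 2 ^ n` (`sum_var`, cast to the reals).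
-/

set_option autoImplicit false

open Finset

namespace Pool.Agent.H15.AA

theorem Fs_sum {n : ℕ} {A : Finset (Finset (Fin n))} (hv : Viol A) :
    ∑ X ∈ A, (2 * (X.card : ℝ) - n) ≤ 0 := by
  have h1 : ∑ X ∈ A, X.card = ∑ x : Fin n, (A.filter fun X => x ∈ X).card := by
    have h2 : ∀ X ∈ A, X.card = ∑ x : Fin n, if x ∈ X then 1 else 0 := by
      intro X _
      rw [Finset.sum_boole]
      simp
    rw [Finset.sum_congr rfl h2, Finset.sum_comm]
    refine Finset.sum_congr rfl fun x _ => ?_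
    rw [Finset.sum_boole]
    simp
  have h3 : 2 * ∑ X ∈ A, X.card ≤ n * A.card := by
    rw [h1, Finset.mul_sum]
    calc ∑ x : Fin n, 2 * (A.filter fun X => x ∈ X).card ≤ ∑ _x : Fin n, A.card :=
          Finset.sum_le_sum fun x _ => hv x
      _ = n * A.card := by simp
  have h4 : 2 * ∑ X ∈ A, (X.card : ℝ) ≤ n * A.card := by exact_mod_cast h3
  rw [Finset.sum_sub_distrib, ← Finset.mul_sum, Finset.sum_const, nsmul_eq_mul]
  linarith

theorem viol_bound {n k : ℕ} {A : Finset (Finset (Fin n))} {g a : ℝ} (ha : 0 < a)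
    (hg : g ≤ 2 * (k : ℝ) - n) (hv : Viol A) :
    ((A.filter fun X => k ≤ X.card).card : ℝ) * g ≤
      a * ((A.filter fun X => ¬ k ≤ X.card).card : ℝ) + n * 2 ^ n / (4 * a) := by
  have h0 := Fs_sum hv
  have hvar : ∑ X : Finset (Fin n), (2 * (X.card : ℝ) - (n : ℝ)) ^ 2 = (n : ℝ) * 2 ^ n := by
    exact_mod_cast sum_var n
  rw [← Finset.sum_filter_add_sum_filter_not A (fun X => k ≤ X.card)] at h0
  have h1 : ((A.filter fun X => k ≤ X.card).card : ℝ) * g ≤
      ∑ X ∈ A.filter (fun X => k ≤ X.card), (2 * (X.card : ℝ) - n) := by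
    rw [← nsmul_eq_mul]
    refine Finset.card_nsmul_le_sum _ _ _ fun X hX => ?_
    have h2 : (k : ℝ) ≤ X.card := by exact_mod_cast (Finset.mem_filter.1 hX).2
    linarith
  have h3 : -∑ X ∈ A.filter (fun X => ¬ k ≤ X.card), (2 * (X.card : ℝ) - n) ≤
      a * ((A.filter fun X => ¬ k ≤ X.card).card : ℝ) + n * 2 ^ n / (4 * a) := by
    rw [← Finset.sum_neg_distrib]
    have h4 : ∀ X ∈ A.filter (fun X => ¬ k ≤ X.card), -(2 * (X.card : ℝ) - n) ≤
        a + (2 * (X.card : ℝ) - n) ^ 2 / (4 * a) := by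
      intro X _
      have h5 : -(2 * (X.card : ℝ) - n) - a ≤ (2 * (X.card : ℝ) - n) ^ 2 / (4 * a) := by
        rw [le_div_iff₀ (by positivity)]
        nlinarith [sq_nonneg ((2 * (X.card : ℝ) - n) + 2 * a)]
      linarith
    refine (Finset.sum_le_sum h4).trans ?_
    rw [Finset.sum_add_distrib, Finset.sum_const, nsmul_eq_mul, ← Finset.sum_div, mul_comm]
    have h6 : ∑ X ∈ A.filter (fun X => ¬ k ≤ X.card), (2 * (X.card : ℝ) - n) ^ 2 ≤ (n : ℝ) * 2 ^ n := by
      rw [← hvar]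
      exact Finset.sum_le_sum_of_subset_of_nonneg (Finset.subset_univ _) fun X _ _ => sq_nonneg _
    have h7 := div_le_div_of_nonneg_right h6 (show 0 ≤ 4 * a by positivity)
    linarith
  linarith

end Pool.Agent.H15.AA
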