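import Pool.Agent.H15.AA.Fp
import Pool.Agent.H15.AA.Fc
import Pool.Agent.H15.AA.Fs
import Pool.Agent.H15.AA.Fm
import Pool.Agent.H15.AA.Cb
import Pool.Agent.H15.AA.Nm

/-! The container of a violating family with at most `M` members is small. -/

set_option autoImplicit false

open Finset

namespace Pool.Agent.H15.AA

variable {n : ℕ}

theorem card_le_hits (H : Finset (Finset (Fin n))) : (H.card : ℝ) ≤ hits H univ * 2 ^ n := by
  have h1 : ∀ j, ((H.filter fun X => X.card = j).card : ℝ) ≤ n.choose j * hits H univ := by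
    intro j
    have h2 := vw_le_mul (S := H.filter fun X => X.card = j) (lo := j) (L := 1) (by
      intro Y hY
      have := (Finset.mem_filter.1 hY).2
      omega) univ
    rw [vw_univ] at h2
    have h3 : ∑ Y ∈ H.filter (fun X => X.card = j), 1 / (n.choose Y.card : ℝ) =
        (H.filter fun X => X.card = j).card * (1 / (n.choose j : ℝ)) := by
      rw [← nsmul_eq_mul, ← Finset.sum_const]
      refine Finset.sum_congr rfl fun Y hY => ?_
      rw [(Finset.mem_filter.1 hY).2]
    rw [h3] at h2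
    have h4 : hits (H.filter fun X => X.card = j) univ ≤ hits H univ :=
      hits_mono (Finset.filter_subset _ _) _
    by_cases hj : j ≤ n
    · have hc : (0 : ℝ) < n.choose j := by exact_mod_cast Nat.choose_pos hj
      rw [mul_one_div, div_le_iff₀ hc] at h2
      calc ((H.filter fun X => X.card = j).card : ℝ) ≤
          (1 : ℕ) * hits (H.filter fun X => X.card = j) univ * n.choose j := h2
        _ ≤ n.choose j * hits H univ := by
          rw [Nat.cast_one, one_mul, mul_comm]
          exact mul_le_mul_of_nonneg_left h4 hc.le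
    · have h5 : (H.filter fun X => X.card = j) = ∅ := by
        apply Finset.filter_false_of_mem
        intro X _ h
        have := Finset.card_le_univ X
        rw [Fintype.card_fin] at this
        omega
      rw [h5, Finset.card_empty, Nat.cast_zero]
      exact mul_nonneg (Nat.cast_nonneg _) (hits_nonneg _ _)
  have h6 : H.card = ∑ j ∈ range (n + 1), (H.filter fun X => X.card = j).card := by
    apply Finset.card_eq_sum_card_fiberwise
    intro X _
    have := Finset.card_le_univ X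
    rw [Fintype.card_fin] at this
    exact Finset.mem_coe.2 (Finset.mem_range.2 (by omega))
  rw [h6]
  push_cast
  calc ∑ j ∈ range (n + 1), ((H.filter fun X => X.card = j).card : ℝ) ≤
      ∑ j ∈ range (n + 1), (n.choose j : ℝ) * hits H univ := Finset.sum_le_sum fun j _ => h1 j
    _ = hits H univ * 2 ^ n := by
      rw [← Finset.sum_mul, mul_comm]
      congr 1
      exact_mod_cast Nat.sum_range_choose n

theorem U_tel (n k j : ℕ) : U n k ≤ U n (k + j) + j * n.choose (n / 2) := by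
  induction j with
  | zero => simp
  | succ j ih =>
    have h1 := U_succ n (k + j)
    have h2 := Nat.choose_le_middle (k + j) n
    rw [show k + (j + 1) = k + j + 1 by ring]
    nlinarith

/-- the members below the layer `l + h` -/
theorem small_part {n w l h M : ℕ} {A : Finset (Finset (Fin n))} (hl : 1 ≤ l) (hM : A.card ≤ M)
    (hU : M < U n (l - 1)) :
    M ≤ (A.filter fun X => l + h ≤ X.card).card + ((h + 1) * n.choose (n / 2) +
      (univ \ win n w).card + ((win n w).filter fun Z => Z ∉ A ∧ l + h ≤ Z.card).card) ∧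
    (A.filter fun X => ¬ l + h ≤ X.card).card ≤ (h + 1) * n.choose (n / 2) +
      (univ \ win n w).card + ((win n w).filter fun Z => Z ∉ A ∧ l + h ≤ Z.card).card := by
  have h1 := U_tel n (l - 1) (h + 1)
  rw [show l - 1 + (h + 1) = l + h by omega] at h1
  have h2 : U n (l + h) ≤ (A.filter fun X => l + h ≤ X.card).card + ((univ \ win n w).card +
      ((win n w).filter fun Z => Z ∉ A ∧ l + h ≤ Z.card).card) := by
    unfold U
    refine le_trans (Finset.card_le_card (t := (A.filter fun X => l + h ≤ X.card) ∪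
      ((univ \ win n w) ∪ ((win n w).filter fun Z => Z ∉ A ∧ l + h ≤ Z.card))) ?_) ?_
    · intro X hX
      have hX2 := (Finset.mem_filter.1 hX).2
      rw [Finset.mem_union, Finset.mem_union]
      by_cases hA : X ∈ A
      · exact Or.inl (Finset.mem_filter.2 ⟨hA, hX2⟩)
      · by_cases hV : X ∈ win n w
        · exact Or.inr (Or.inr (Finset.mem_filter.2 ⟨hV, hA, hX2⟩))
        · exact Or.inr (Or.inl (Finset.mem_sdiff.2 ⟨Finset.mem_univ _, hV⟩))
    · refine (Finset.card_union_le _ _).trans ?_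
      exact Nat.add_le_add_left (Finset.card_union_le _ _) _
  have h3 := Finset.card_filter_add_card_filter_not (s := A) (fun X => l + h ≤ X.card)
  constructor <;> omega

theorem slope_le {t : ℕ} (ht : 1 ≤ t) (hn : 36 * t ^ 2 ≤ n) {l : ℕ}
    (hl1 : n + 1 ≤ 2 * l) (hl : 2 * l ≤ n + t * Nat.sqrt n) : slope n l ≤ 3 * t / Nat.sqrt n := by
  obtain ⟨r, hr⟩ : ∃ r, r = Nat.sqrt n := ⟨_, rfl⟩
  rw [← hr] at hl ⊢
  have h1 : r * r ≤ n := by rw [hr]; exact Nat.sqrt_le n
  have h2 : 6 * t ≤ r := by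
    rw [hr, Nat.le_sqrt]
    nlinarith
  have hr0 : 1 ≤ r := by omega
  have h3 : 6 * (t * r) ≤ n := by nlinarith
  unfold slope
  have hR : (6 : ℝ) * (t * r) ≤ n := by exact_mod_cast h3
  have hL : (2 : ℝ) * l ≤ n + t * r := by exact_mod_cast hl
  have hL1 : (n : ℝ) + 1 ≤ 2 * l := by exact_mod_cast hl1
  have hrr : (r : ℝ) * r ≤ n := by exact_mod_cast h1
  have hr0' : (0 : ℝ) < r := by exact_mod_cast hr0
  have ht0 : (0 : ℝ) ≤ t := Nat.cast_nonneg t
  have hn0 : (0 : ℝ) ≤ n := Nat.cast_nonneg n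
  have hden : (n : ℝ) / 3 ≤ (n : ℝ) - l + 1 := by linarith
  have hden0 : (0 : ℝ) < (n : ℝ) - l + 1 := by linarith
  rw [div_le_div_iff₀ hden0 hr0']
  have h5 : (2 * (l : ℝ) - n - 1) * r ≤ t * r * r := by nlinarith
  have h6 : (t : ℝ) * r * r ≤ t * n := by nlinarith
  have h7 : (t : ℝ) * n ≤ 3 * t * (n - l + 1) := by nlinarith
  linarith

/-- the numerical heart: a contradiction from few missing sets above and few members below -/
theorem contra {δ : ℝ} (hδ : 0 < δ) {l h M : ℕ} {A : Finset (Finset (Fin n))} (hn : 1600 ≤ n)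
    (hM : δ * 2 ^ n ≤ M) (hδ1 : δ ≤ 1 / 3) (hv : Viol A) (hl : 5 * n + Nat.sqrt n ≤ 10 * l)
    {B : ℕ} (h1 : M ≤ (A.filter fun X => l + h ≤ X.card).card + B)
    (h2 : (A.filter fun X => ¬ l + h ≤ X.card).card ≤ B)
    (hB : (B : ℝ) ≤ 3 * (δ ^ 2 / 1000) * 2 ^ n) : False := by
  obtain ⟨r, hr⟩ : ∃ r, r = Nat.sqrt n := ⟨_, rfl⟩
  rw [← hr] at hl
  have hr40 : 40 ≤ r := by
    rw [hr, Nat.le_sqrt]
    omega
  have hr1 : n < (r + 1) * (r + 1) := by
    rw [hr]
    exact Nat.lt_succ_sqrt n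
  have hr0 : (0 : ℝ) < r := by exact_mod_cast (by omega : 0 < r)
  have hr40' : (40 : ℝ) ≤ r := by exact_mod_cast hr40
  have hnr : (n : ℝ) ≤ 11 / 10 * r ^ 2 := by
    have : (n : ℝ) < (r + 1) * (r + 1) := by exact_mod_cast hr1
    nlinarith
  have hN : (0 : ℝ) < 2 ^ n := by positivity
  have hlr : (5 : ℝ) * n + r ≤ 10 * l := by exact_mod_cast hl
  have hvb := viol_bound (n := n) (k := l + h) (A := A) (g := r / 5) (a := 10 * r / δ)
    (by positivity) (by
      push_cast
      have : (0 : ℝ) ≤ h := Nat.cast_nonneg h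
      linarith) hv
  obtain ⟨p, hp⟩ : ∃ p : ℕ, p = (A.filter fun X => l + h ≤ X.card).card := ⟨_, rfl⟩
  obtain ⟨q, hq⟩ : ∃ q : ℕ, q = (A.filter fun X => ¬ l + h ≤ X.card).card := ⟨_, rfl⟩
  rw [← hp] at hvb h1
  rw [← hq] at hvb h2
  have h1' : (M : ℝ) ≤ p + B := by exact_mod_cast h1
  have h2' : (q : ℝ) ≤ B := by exact_mod_cast h2
  have hp1 : δ / 2 * 2 ^ n ≤ p := by
    have h3 : 3 * (δ ^ 2 / 1000) ≤ δ / 2 := by nlinarith
    nlinarith
  have hq1 : (q : ℝ) ≤ 3 * (δ ^ 2 / 1000) * 2 ^ n := h2'.trans hB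
  have e1 : 10 * r / δ * (q : ℝ) ≤ 3 / 100 * δ * r * 2 ^ n := by
    calc 10 * r / δ * (q : ℝ) ≤ 10 * r / δ * (3 * (δ ^ 2 / 1000) * 2 ^ n) :=
          mul_le_mul_of_nonneg_left hq1 (by positivity)
      _ = 3 / 100 * δ * r * 2 ^ n := by field_simp; ring
  have e2 : (n : ℝ) * 2 ^ n / (4 * (10 * r / δ)) ≤ 11 / 400 * δ * r * 2 ^ n := by
    rw [div_le_iff₀ (by positivity)]
    have : 11 / 400 * δ * r * 2 ^ n * (4 * (10 * r / δ)) = 11 / 10 * r ^ 2 * 2 ^ n := by
      field_simp
      ring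
    rw [this]
    exact mul_le_mul_of_nonneg_right hnr hN.le
  have e3 : δ / 10 * r * 2 ^ n ≤ (p : ℝ) * (r / 5) := by
    have : δ / 10 * r * 2 ^ n = δ / 2 * 2 ^ n * (r / 5) := by ring
    rw [this]
    exact mul_le_mul_of_nonneg_right hp1 (by positivity)
  have e4 : 0 < δ * r * 2 ^ n := by positivity
  linarith

end Pool.Agent.H15.AA
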