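import Pool.Agent.H15.AA.Nm

/-!
# Row Fn: numbers

As `final_num` in Row Nm (same proof, without `K0`). Write `C = n.choose (n / 2)`, `N = 2 ^ n`. `log` of the
left side: `s0 log (n ^ 2) ≤ 40 E N log n / n` (`s0 ≤ N / d`, `d = n / (10 E) ≥ n / (20 E)` real, for
`n ≥ 20 E`), plus `N / n`, plus `log 2 (1 + v)`, `v ≤ 400 E ^ 2 N / n`, `log 2 ≤ 1`, `1 ≤ N / n`. For large
`n` the sum is at most `θ C log 2` because `C ≥ N / sqrt (2 (n + 1))` (`Cn_low`), `log 2 ≥ 1 / 2`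
and `log_sqrt` with `K = 2 (40 E + 2 + 400 E ^ 2) / θ`.
-/

set_option autoImplicit false

open Finset

namespace Pool.Agent.H15.AA

theorem final_err {E : ℕ} (hE : 1 ≤ E) {θ : ℝ} (hθ : 0 < θ) : ∃ N : ℕ, ∀ n : ℕ, N ≤ n →
    ∀ s0 v : ℕ, (s0 : ℝ) ≤ 2 ^ n / (n / (10 * E) : ℕ) →
    (v : ℝ) ≤ 400 * (E : ℝ) ^ 2 * 2 ^ n / n →
    (1 / (1 / (n : ℝ) ^ 2)) ^ s0 * Real.exp (1 / (n : ℝ) ^ 2 * (2 ^ n * n)) * (2 * 2 ^ v) ≤
      (2 : ℝ) ^ (θ * n.choose (n / 2)) := by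
  obtain ⟨N, hN⟩ := log_sqrt (884 * (E : ℝ) ^ 2 / θ)
  refine ⟨N + 20 * E, fun n hn s0 v hs hv => ?_⟩
  have hE1 : (1 : ℝ) ≤ E := by exact_mod_cast hE
  have hE0 : (0 : ℝ) < E := by linarith
  have hn1 : 1 ≤ n := by omega
  have hn1' : (1 : ℝ) ≤ n := by exact_mod_cast hn1
  have hn0 : (0 : ℝ) < n := by linarith
  have hL0 : 0 ≤ Real.log n := Real.log_nonneg hn1'
  have hd := Nm_d hE (show 20 * E ≤ n by omega)
  have hC := Nm_C hn1
  have hmain := hN n (by omega)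
  obtain ⟨C, hCd⟩ : ∃ C : ℝ, C = (n.choose (n / 2) : ℝ) := ⟨_, rfl⟩
  rw [← hCd] at hC ⊢
  have hC0 : 0 ≤ C := by rw [hCd]; positivity
  obtain ⟨M, hM⟩ : ∃ M : ℝ, M = (2 : ℝ) ^ n := ⟨_, rfl⟩
  have hM0 : 0 < M := by rw [hM]; positivity
  have hMn : (n : ℝ) ≤ M := by
    rw [hM]
    have : n < 2 ^ n := Nat.lt_two_pow_self
    exact_mod_cast this.le
  rw [← hM] at hs hv hC ⊢
  obtain ⟨L, hL⟩ : ∃ L : ℝ, L = Real.log n := ⟨_, rfl⟩
  rw [← hL] at hL0 hmain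
  obtain ⟨S, hS⟩ : ∃ S : ℝ, S = Real.sqrt (2 * (n + 1)) := ⟨_, rfl⟩
  rw [← hS] at hC hmain
  have hS0 : 0 < S := by rw [hS]; exact Real.sqrt_pos.2 (by positivity)
  have hs' : (s0 : ℝ) ≤ 20 * E * M / n := by
    refine le_trans hs ?_
    have h1 : (0 : ℝ) < (n : ℝ) / (20 * E) := by positivity
    calc M / ((n / (10 * E) : ℕ) : ℝ) ≤ M / ((n : ℝ) / (20 * E)) :=
          div_le_div_of_nonneg_left hM0.le h1 hd
      _ = 20 * E * M / n := by field_simp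
  have hl2 : Real.log 2 ≤ 1 := by
    have := Real.log_two_lt_d9
    linarith
  have hl2' : 1 / 2 ≤ Real.log 2 := by
    have := Real.log_two_gt_d9
    linarith
  have hkey : M / n * (442 * (E : ℝ) ^ 2 * (1 + L)) ≤ 1 / 2 * (θ * C) := by
    have h1 : 884 * (E : ℝ) ^ 2 / θ * (1 + L) * S * M ≤ n * (C * S) := by
      calc 884 * (E : ℝ) ^ 2 / θ * (1 + L) * S * M ≤ n * M :=
            mul_le_mul_of_nonneg_right hmain hM0.le
        _ ≤ n * (C * S) := mul_le_mul_of_nonneg_left hC hn0.le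
    have h2 : 884 * (E : ℝ) ^ 2 / θ * (1 + L) * M ≤ n * C := by
      refine le_of_mul_le_mul_right ?_ hS0
      linarith
    have h3 : θ * (884 * (E : ℝ) ^ 2 / θ * (1 + L) * M) ≤ θ * (n * C) :=
      mul_le_mul_of_nonneg_left h2 hθ.le
    have h4 : θ * (884 * (E : ℝ) ^ 2 / θ * (1 + L) * M) = 884 * (E : ℝ) ^ 2 * (1 + L) * M := by
      field_simp
    rw [h4] at h3
    rw [div_mul_eq_mul_div, div_le_iff₀ hn0]
    nlinarith
  have hsum : (s0 : ℝ) * (2 * L) + M / n + (Real.log 2 + v * Real.log 2) ≤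
      Real.log 2 * (θ * C) := by
    have h1 : (s0 : ℝ) * (2 * L) ≤ 20 * E * M / n * (2 * L) :=
      mul_le_mul_of_nonneg_right hs' (by linarith)
    have h2 : (v : ℝ) * Real.log 2 ≤ 400 * (E : ℝ) ^ 2 * M / n := by
      calc (v : ℝ) * Real.log 2 ≤ v * 1 :=
            mul_le_mul_of_nonneg_left hl2 (Nat.cast_nonneg v)
        _ ≤ 400 * (E : ℝ) ^ 2 * M / n := by linarith
    have h3 : 1 ≤ M / n := by rw [le_div_iff₀ hn0]; linarith
    have hMn0 : 0 < M / n := by positivity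
    have h4 : 20 * E * M / n * (2 * L) + M / n + M / n + 400 * (E : ℝ) ^ 2 * M / n ≤
        M / n * (442 * (E : ℝ) ^ 2 * (1 + L)) := by
      have h5 : 20 * E * M / n * (2 * L) + M / n + M / n + 400 * (E : ℝ) ^ 2 * M / n =
          M / n * (40 * E * L + 2 + 400 * (E : ℝ) ^ 2) := by ring
      rw [h5]
      refine mul_le_mul_of_nonneg_left ?_ hMn0.le
      have hEE : (E : ℝ) ≤ (E : ℝ) ^ 2 := by nlinarith
      have h6 : (E : ℝ) * L ≤ (E : ℝ) ^ 2 * L := mul_le_mul_of_nonneg_right hEE hL0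
      have h7 : 0 ≤ (E : ℝ) ^ 2 * L := by positivity
      nlinarith
    have h8 : 1 / 2 * (θ * C) ≤ Real.log 2 * (θ * C) :=
      mul_le_mul_of_nonneg_right hl2' (by positivity)
    linarith
  have e1 : (1 / (1 / (n : ℝ) ^ 2)) ^ s0 = Real.exp (s0 * (2 * L)) := by
    rw [one_div_one_div, Real.exp_nat_mul]
    congr 1
    rw [hL, ← Real.log_rpow hn0 2, Real.exp_log (by positivity)]
    norm_num
  have e2 : 1 / (n : ℝ) ^ 2 * (M * n) = M / n := by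
    field_simp
  have e3 : (2 : ℝ) * 2 ^ v = Real.exp (Real.log 2 + v * Real.log 2) := by
    rw [Real.exp_add, Real.exp_log (by norm_num)]
    congr 1
    rw [Real.exp_nat_mul, Real.exp_log (by norm_num)]
  rw [e1, e2, e3, ← Real.exp_add, ← Real.exp_add, Real.rpow_def_of_pos (by norm_num : (0 : ℝ) < 2)]
  exact Real.exp_le_exp.2 hsum

end Pool.Agent.H15.AA
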