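import Pool.Agent.H15.AA.Wa
import Pool.Agent.H15.AA.Wb

/-!
# Row Wc: visits and hitting

All by `walk_ind` on `Z` (Row Wa), with `vw_rec`, `vw_empty` (Row Wb), `hits_mem`, `hits_not`, `nxt`
unfolded. For `Z = ∅`: `hits S ∅ = vw S ∅` (`1` if `∅ ∈ S`, else `0`: `nxt S ∅ = 0`).
`hits_le_vw`: if `Z ∈ S` then `vw S Z ≥ 1` (`vw_rec`, `vw_nonneg`), else averages.
`vw_le`: if `Z ∉ S`, averages. If `Z ∈ S`, `vw S Z = 1 + avg vw ≤ 1 + nxt S Z / (1 - ε) ≤
1 + ε / (1 - ε) = 1 / (1 - ε)`.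
`vw_le_mul`: if `Z ∈ S` by `vw_le_levels`; else averages.
`hits_avoid`: if `Z ∈ T`, then `hits T Z = 1` and `hits K Z ≤ ε`. If `Z ∉ T` and `Z ∈ K` then
`Z.card < l`, so `hits T Z = 0` (`hits_zero`) and `hits K Z ≤ 1`. If `Z ∉ T`, `Z ∉ K`: for `Z = ∅` both
are `0`; otherwise averages.
-/

set_option autoImplicit false

open Finset

namespace Pool.Agent.H15.AA

variable {n : ℕ}

theorem Wc_nxt_empty (S : Finset (Finset (Fin n))) : nxt S ∅ = 0 := by
  unfold nxt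
  simp

/-- Comparison of averages. -/
theorem Wc_avg {Z : Finset (Fin n)} {f g : Finset (Fin n) → ℝ}
    (h : ∀ x ∈ Z, f (Z.erase x) ≤ g (Z.erase x)) :
    (∑ x ∈ Z, f (Z.erase x)) / (Z.card : ℝ) ≤ (∑ x ∈ Z, g (Z.erase x)) / (Z.card : ℝ) :=
  div_le_div_of_nonneg_right (Finset.sum_le_sum h) (Nat.cast_nonneg _)

theorem hits_le_vw (S : Finset (Finset (Fin n))) (Z : Finset (Fin n)) : hits S Z ≤ vw S Z := by
  refine walk_ind (P := fun Z => hits S Z ≤ vw S Z) (fun Z ih => ?_) Z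
  rcases Z.eq_empty_or_nonempty with rfl | hne
  · by_cases hZ : ∅ ∈ S
    · rw [hits_mem hZ, vw_empty, if_pos hZ]
    · rw [hits_not hZ, Wc_nxt_empty]
      exact vw_nonneg _ _
  · have h1 := Wc_avg ih
    rw [vw_rec S hne]
    by_cases hZ : Z ∈ S
    · rw [hits_mem hZ, if_pos hZ]
      have h2 : 0 ≤ (∑ x ∈ Z, vw S (Z.erase x)) / (Z.card : ℝ) :=
        div_nonneg (Finset.sum_nonneg fun x _ => vw_nonneg _ _) (Nat.cast_nonneg _)
      linarith
    · rw [hits_not hZ, if_neg hZ, zero_add]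
      exact h1

theorem vw_le {S : Finset (Finset (Fin n))} {ε : ℝ} (h0 : 0 ≤ ε) (h1 : ε < 1)
    (h : ∀ X ∈ S, nxt S X ≤ ε) (Z : Finset (Fin n)) : vw S Z ≤ hits S Z / (1 - ε) := by
  have he : 0 < 1 - ε := by linarith
  refine walk_ind (P := fun Z => vw S Z ≤ hits S Z / (1 - ε)) (fun Z ih => ?_) Z
  rcases Z.eq_empty_or_nonempty with rfl | hne
  · by_cases hZ : ∅ ∈ S
    · rw [hits_mem hZ, vw_empty, if_pos hZ, le_div_iff₀ he]
      linarith
    · rw [hits_not hZ, Wc_nxt_empty, vw_empty, if_neg hZ, zero_div]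
  · have h2 := Wc_avg (g := fun Y => hits S Y / (1 - ε)) ih
    have h3 : (∑ x ∈ Z, hits S (Z.erase x) / (1 - ε)) / (Z.card : ℝ) = nxt S Z / (1 - ε) := by
      rw [← Finset.sum_div, div_right_comm]
      rfl
    have h4 : (∑ x ∈ Z, vw S (Z.erase x)) / (Z.card : ℝ) ≤ nxt S Z / (1 - ε) := h2.trans h3.le
    rw [vw_rec S hne]
    by_cases hZ : Z ∈ S
    · rw [hits_mem hZ, if_pos hZ]
      have h5 : nxt S Z / (1 - ε) ≤ ε / (1 - ε) := div_le_div_of_nonneg_right (h Z hZ) he.le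
      have h6 : 1 + ε / (1 - ε) = 1 / (1 - ε) := by
        field_simp
        ring
      linarith
    · rw [hits_not hZ, if_neg hZ, zero_add]
      exact h4

theorem vw_le_mul {S : Finset (Finset (Fin n))} {lo L : ℕ}
    (h : ∀ Y ∈ S, lo ≤ Y.card ∧ Y.card < lo + L) (Z : Finset (Fin n)) :
    vw S Z ≤ L * hits S Z := by
  refine walk_ind (P := fun Z => vw S Z ≤ L * hits S Z) (fun Z ih => ?_) Z
  by_cases hZ : Z ∈ S
  · rw [hits_mem hZ, mul_one]
    exact vw_le_levels h Z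
  rcases Z.eq_empty_or_nonempty with rfl | hne
  · rw [vw_empty, if_neg hZ]
    exact mul_nonneg (Nat.cast_nonneg _) (hits_nonneg _ _)
  · have h2 := Wc_avg (g := fun Y => (L : ℝ) * hits S Y) ih
    rw [vw_rec S hne, hits_not hZ, if_neg hZ, zero_add]
    refine h2.trans (le_of_eq ?_)
    rw [← Finset.mul_sum, mul_div_assoc]
    rfl

theorem hits_avoid {K T : Finset (Finset (Fin n))} {l : ℕ} {ε : ℝ} (h0 : 0 ≤ ε)
    (hK : ∀ X ∈ K, X.card < l) (hT : ∀ Z ∈ T, l ≤ Z.card ∧ hits K Z ≤ ε) (Z : Finset (Fin n)) :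
    hits K Z ≤ 1 - hits T Z + ε := by
  refine walk_ind (P := fun Z => hits K Z ≤ 1 - hits T Z + ε) (fun Z ih => ?_) Z
  by_cases hZT : Z ∈ T
  · rw [hits_mem hZT]
    have := (hT Z hZT).2
    linarith
  by_cases hZK : Z ∈ K
  · rw [hits_mem hZK, hits_zero (S := T) (Z := Z) (fun Y hY hYZ => ?_)]
    · linarith
    · have h1 := (hT Y hY).1
      have h2 := Finset.card_le_card hYZ
      have h3 := hK Z hZK
      omega
  rw [hits_not hZT, hits_not hZK]
  rcases Z.eq_empty_or_nonempty with rfl | hne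
  · rw [Wc_nxt_empty, Wc_nxt_empty]
    linarith
  · have h2 := Wc_avg (g := fun Y => 1 - hits T Y + ε) ih
    have hc : (0 : ℝ) < Z.card := by exact_mod_cast hne.card_pos
    have h3 : (∑ x ∈ Z, (1 - hits T (Z.erase x) + ε)) / (Z.card : ℝ) = 1 - nxt T Z + ε := by
      unfold nxt
      rw [Finset.sum_add_distrib, Finset.sum_sub_distrib]
      simp only [Finset.sum_const, nsmul_eq_mul, mul_one]
      field_simp
    exact h2.trans h3.le

end Pool.Agent.H15.AA
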