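import Pool.Agent.H15.AA.Fa
import Pool.Agent.H15.AA.Wc

/-!
# Row Fp: the potential

Proof. Let `C = n.choose (n / 2)`, `E = ε / (1 - ε) * C`,
`H = (win n w).filter fun Z => Z ∉ A ∧ k ≤ Z.card`, and
`f Y = n.choose Y.card * ((if Y ∈ K then 1 else 0) - s * (if Y ∈ A ∩ win n w then 1 else 0))`.
(1) `rest`: if `nxt K Z ≤ ε` then `(∑ x ∈ Z, vwf f (Z.erase x)) / Z.card ≤ E`: `vwf f Y ≤ C * vw K Y`
(`vwf_le_vw`, `Nat.choose_le_middle`, `s ≥ 0`), `vw K Y ≤ hits K Y / (1 - ε)` (`vw_le`), so the average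
is at most `C / (1 - ε) * nxt K Z`.
(2) Claim for all `Z` (`walk_ind`): `vwf f Z + ρ * hits H Z ≤ R Z.card + E`. Cases:
(a) `2 |Z| + 2 w < n`: `f = 0` on the subsets of `Z` and no member of `H` is a subset of `Z` (sizes),
so the left side is `0` (`vwf_zero`, `hits_zero`).
(b) `Z ∈ K`, or `Z ∈ win n w` and `Z ∉ A`: then `nxt K Z ≤ ε`, `f Z ≤ n.choose |Z|`, so by `vwf_rec` and
(1) (for `Z = ∅` by `vwf_empty` and `E ≥ 0`) `vwf f Z ≤ n.choose |Z| + E`. If `k ≤ |Z|` use `hRd` and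
`hits ≤ 1`; otherwise `hits H Z = 0` (`hits_zero`) and `hRa`.
(c) `Z ∈ win n w`, `Z ∈ A`, `Z ∉ K`: `Z ∉ H`, `f Z = - s * n.choose |Z|`. If `Z = ∅`:
`vwf f ∅ = f ∅ ≤ 0` and `hits H ∅ = nxt H ∅ = 0`. Otherwise `vwf_rec`, `hits_not`, `nxt` unfolded,
`(Z.erase x).card = Z.card - 1`, the induction hypothesis and `hRb` for `z = Z.card - 1`.
(d) `n + 2 w < 2 |Z|`: `f Z = 0`, `Z ∉ H`, `Z ∉ K`; the same with `hRc`.
(3) `Z = univ`: `vwf_univ`, and `n.choose |Y| > 0`, so `vwf f univ = K.card - s * (A ∩ win n w).card`.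
-/

set_option autoImplicit false

open Finset

namespace Pool.Agent.H15.AA

/-- the weight -/
noncomputable def Fp_f {n : ℕ} (w : ℕ) (A K : Finset (Finset (Fin n))) (s : ℝ) (Y : Finset (Fin n)) : ℝ :=
  (n.choose Y.card : ℝ) * ((if Y ∈ K then 1 else 0) - s * (if Y ∈ A ∩ win n w then 1 else 0))

theorem Fp_mem_win {n w : ℕ} {X : Finset (Fin n)} :
    X ∈ win n w ↔ n ≤ 2 * X.card + 2 * w ∧ 2 * X.card ≤ n + 2 * w := by
  unfold win
  simp

theorem Fp_f_le {n w : ℕ} {A K : Finset (Finset (Fin n))} {s : ℝ} (hs : 0 ≤ s) (Y : Finset (Fin n)) :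
    Fp_f w A K s Y ≤ (n.choose Y.card : ℝ) := by
  unfold Fp_f
  have h1 : (if Y ∈ K then (1:ℝ) else 0) ≤ 1 := by split_ifs <;> norm_num
  have h2 : 0 ≤ s * (if Y ∈ A ∩ win n w then (1:ℝ) else 0) := by split_ifs <;> simp [hs]
  have h3 : (0:ℝ) ≤ n.choose Y.card := Nat.cast_nonneg _
  nlinarith

theorem Fp_f_nonpos {n w : ℕ} {A K : Finset (Finset (Fin n))} {s : ℝ} (hs : 0 ≤ s) {Y : Finset (Fin n)}
    (hY : Y ∉ K) : Fp_f w A K s Y ≤ 0 := by
  unfold Fp_f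
  rw [if_neg hY]
  have h2 : 0 ≤ s * (if Y ∈ A ∩ win n w then (1:ℝ) else 0) := by split_ifs <;> simp [hs]
  have h3 : (0:ℝ) ≤ n.choose Y.card := Nat.cast_nonneg _
  nlinarith

theorem Fp_f_zero {n w : ℕ} {A K : Finset (Finset (Fin n))} {s : ℝ} (hK : K ⊆ win n w) {Y : Finset (Fin n)}
    (hY : Y ∉ win n w) : Fp_f w A K s Y = 0 := by
  unfold Fp_f
  rw [if_neg (fun h => hY (hK h)), if_neg (fun h => hY (Finset.mem_inter.1 h).2)]
  simp

theorem Fp_rest {n w : ℕ} {A K : Finset (Finset (Fin n))} {ε s : ℝ}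
    (h0 : 0 ≤ ε) (h1 : ε < 1) (hs : 0 ≤ s) (hKe : ∀ X ∈ K, nxt K X ≤ ε) {Z : Finset (Fin n)}
    (hZ : nxt K Z ≤ ε) :
    (∑ x ∈ Z, vwf (Fp_f w A K s) (Z.erase x)) / (Z.card : ℝ) ≤ ε / (1 - ε) * n.choose (n / 2) := by
  have he : 0 < 1 - ε := by linarith
  have hstep : ∀ Y : Finset (Fin n), vwf (Fp_f w A K s) Y ≤ (n.choose (n / 2) : ℝ) * (hits K Y / (1 - ε)) := by
    intro Y
    refine (vwf_le_vw (S := K) (c := (n.choose (n / 2) : ℝ)) (fun Y _ => ?_) (fun Y hY => Fp_f_nonpos hs hY) Y).trans ?_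
    · refine (Fp_f_le hs Y).trans ?_
      exact_mod_cast Nat.choose_le_middle _ _
    · exact mul_le_mul_of_nonneg_left (vw_le h0 h1 hKe Y) (Nat.cast_nonneg _)
  have h2 : (∑ x ∈ Z, vwf (Fp_f w A K s) (Z.erase x)) / (Z.card : ℝ) ≤
      (∑ x ∈ Z, (n.choose (n / 2) : ℝ) * (hits K (Z.erase x) / (1 - ε))) / (Z.card : ℝ) :=
    div_le_div_of_nonneg_right (Finset.sum_le_sum fun x _ => hstep _) (Nat.cast_nonneg _)
  have h3 : (∑ x ∈ Z, (n.choose (n / 2) : ℝ) * (hits K (Z.erase x) / (1 - ε))) / (Z.card : ℝ) =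
      (n.choose (n / 2) : ℝ) / (1 - ε) * nxt K Z := by
    unfold nxt
    rw [← Finset.mul_sum, ← Finset.sum_div]
    field_simp
  rw [h3] at h2
  refine h2.trans ?_
  have h4 : (0:ℝ) ≤ (n.choose (n / 2) : ℝ) / (1 - ε) := div_nonneg (Nat.cast_nonneg _) he.le
  refine (mul_le_mul_of_nonneg_left hZ h4).trans (le_of_eq ?_)
  ring

theorem Fp_main {n w k : ℕ} {A K : Finset (Finset (Fin n))} {ε s ρ : ℝ} {R : ℕ → ℝ}
    (h0 : 0 ≤ ε) (h1 : ε < 1) (hs : 0 ≤ s) (hρ : 0 ≤ ρ) (hK : K ⊆ win n w)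
    (hKe : ∀ X ∈ K, nxt K X ≤ ε) (hZe : ∀ Z ∈ win n w, Z ∉ A → nxt K Z ≤ ε)
    (hR0 : ∀ z, 0 ≤ R z)
    (hRa : ∀ z, n ≤ 2 * z + 2 * w → 2 * z ≤ n + 2 * w → (n.choose z : ℝ) ≤ R z)
    (hRb : ∀ z, n ≤ 2 * (z + 1) + 2 * w → 2 * (z + 1) ≤ n + 2 * w →
      R z ≤ R (z + 1) + s * n.choose (z + 1))
    (hRc : ∀ z, n + 2 * w < 2 * (z + 1) → R z ≤ R (z + 1))
    (hRd : ∀ z, k ≤ z → n ≤ 2 * z + 2 * w → 2 * z ≤ n + 2 * w → (n.choose z : ℝ) + ρ ≤ R z)
    (Z : Finset (Fin n)) :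
    vwf (Fp_f w A K s) Z + ρ * hits ((win n w).filter fun Z => Z ∉ A ∧ k ≤ Z.card) Z ≤
      R Z.card + ε / (1 - ε) * n.choose (n / 2) := by
  have he : 0 < 1 - ε := by linarith
  have hE : 0 ≤ ε / (1 - ε) * (n.choose (n / 2) : ℝ) :=
    mul_nonneg (div_nonneg h0 he.le) (Nat.cast_nonneg _)
  obtain ⟨H, hH⟩ : ∃ H, H = (win n w).filter fun Z => Z ∉ A ∧ k ≤ Z.card := ⟨_, rfl⟩
  rw [← hH]
  have hmemH : ∀ Y, Y ∈ H ↔ Y ∈ win n w ∧ Y ∉ A ∧ k ≤ Y.card := by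
    intro Y
    rw [hH, Finset.mem_filter]
  refine walk_ind (P := fun Z => vwf (Fp_f w A K s) Z + ρ * hits H Z ≤
      R Z.card + ε / (1 - ε) * n.choose (n / 2)) (fun Z ih => ?_) Z
  -- the average step
  have avg : Z.Nonempty → Z ∉ H →
      vwf (Fp_f w A K s) Z + ρ * hits H Z ≤
        Fp_f w A K s Z + (R (Z.card - 1) + ε / (1 - ε) * n.choose (n / 2)) := by
    intro hne hZH
    have hc : (0:ℝ) < Z.card := by exact_mod_cast hne.card_pos
    rw [vwf_rec _ hne, hits_not hZH]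
    unfold nxt
    have h2 : ∑ x ∈ Z, (vwf (Fp_f w A K s) (Z.erase x) + ρ * hits H (Z.erase x)) ≤
        ∑ _x ∈ Z, (R (Z.card - 1) + ε / (1 - ε) * n.choose (n / 2)) := by
      refine Finset.sum_le_sum fun x hx => ?_
      have := ih x hx
      rw [Finset.card_erase_of_mem hx] at this
      exact this
    rw [Finset.sum_const, nsmul_eq_mul] at h2
    have h3 : (∑ x ∈ Z, (vwf (Fp_f w A K s) (Z.erase x) + ρ * hits H (Z.erase x))) / (Z.card : ℝ) ≤
        R (Z.card - 1) + ε / (1 - ε) * n.choose (n / 2) := by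
      rw [div_le_iff₀ hc]
      linarith
    have h4 : (∑ x ∈ Z, (vwf (Fp_f w A K s) (Z.erase x) + ρ * hits H (Z.erase x))) / (Z.card : ℝ) =
        (∑ x ∈ Z, vwf (Fp_f w A K s) (Z.erase x)) / (Z.card : ℝ) +
          ρ * ((∑ x ∈ Z, hits H (Z.erase x)) / (Z.card : ℝ)) := by
      rw [Finset.sum_add_distrib, ← Finset.mul_sum, add_div, mul_div_assoc]
    linarith
  by_cases ha : 2 * Z.card + 2 * w < n
  · have h2 : vwf (Fp_f w A K s) Z = 0 := vwf_zero fun Y hY => Fp_f_zero hK (by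
      rw [Fp_mem_win]
      have := Finset.card_le_card hY
      omega)
    have h3 : hits H Z = 0 := hits_zero fun Y hY hYZ => by
      have h4 := Fp_mem_win.1 ((hmemH Y).1 hY).1
      have := Finset.card_le_card hYZ
      omega
    rw [h2, h3, mul_zero, add_zero]
    exact add_nonneg (hR0 _) hE
  by_cases hd : n + 2 * w < 2 * Z.card
  · have hne : Z.Nonempty := Finset.card_pos.1 (by omega)
    have hZV : Z ∉ win n w := by
      rw [Fp_mem_win]
      omega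
    have h2 := avg hne (fun h => hZV ((hmemH Z).1 h).1)
    rw [Fp_f_zero hK hZV, zero_add] at h2
    have h3 := hRc (Z.card - 1) (by
      have := hne.card_pos
      omega)
    rw [Nat.sub_add_cancel hne.card_pos] at h3
    linarith
  have hZV : Z ∈ win n w := by
    rw [Fp_mem_win]
    omega
  have hZV' := Fp_mem_win.1 hZV
  by_cases hb : nxt K Z ≤ ε
  · have h2 : vwf (Fp_f w A K s) Z ≤ n.choose Z.card + ε / (1 - ε) * n.choose (n / 2) := by
      rcases Z.eq_empty_or_nonempty with rfl | hne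
      · rw [vwf_empty]
        have := Fp_f_le (A := A) (K := K) (w := w) hs (∅ : Finset (Fin n))
        linarith
      · rw [vwf_rec _ hne]
        have h3 := Fp_f_le (A := A) (K := K) (w := w) hs Z
        have h4 := Fp_rest (A := A) (w := w) h0 h1 hs hKe hb
        linarith
    by_cases hk : k ≤ Z.card
    · have h3 := hRd Z.card hk hZV'.1 hZV'.2
      have h4 := mul_le_mul_of_nonneg_left (hits_le_one H Z) hρ
      linarith
    · have h3 : hits H Z = 0 := hits_zero fun Y hY hYZ => by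
        have h4 := ((hmemH Y).1 hY).2.2
        have := Finset.card_le_card hYZ
        omega
      have h4 := hRa Z.card hZV'.1 hZV'.2
      rw [h3, mul_zero, add_zero]
      linarith
  · have hZK : Z ∉ K := fun h => hb (hKe Z h)
    have hZA : Z ∈ A := by
      by_contra h
      exact hb (hZe Z hZV h)
    have hZH : Z ∉ H := fun h => ((hmemH Z).1 h).2.1 hZA
    have hf : Fp_f w A K s Z = - (s * n.choose Z.card) := by
      unfold Fp_f
      rw [if_neg hZK, if_pos (Finset.mem_inter.2 ⟨hZA, hZV⟩)]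
      ring
    rcases Z.eq_empty_or_nonempty with rfl | hne
    · rw [vwf_empty, hits_not hZH, Wc_nxt_empty, hf, mul_zero, add_zero]
      have h2 : 0 ≤ s * (n.choose (∅ : Finset (Fin n)).card : ℝ) := mul_nonneg hs (Nat.cast_nonneg _)
      have h3 := hR0 (∅ : Finset (Fin n)).card
      linarith
    · have h2 := avg hne hZH
      rw [hf] at h2
      have h3 := hRb (Z.card - 1)
      rw [Nat.sub_add_cancel hne.card_pos] at h3
      have h4 := h3 hZV'.1 hZV'.2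
      linarith

theorem potential {n w k : ℕ} {A K : Finset (Finset (Fin n))} {ε s ρ : ℝ} {R : ℕ → ℝ}
    (h0 : 0 ≤ ε) (h1 : ε < 1) (hs : 0 ≤ s) (hρ : 0 ≤ ρ) (hK : K ⊆ win n w)
    (hKe : ∀ X ∈ K, nxt K X ≤ ε) (hZe : ∀ Z ∈ win n w, Z ∉ A → nxt K Z ≤ ε)
    (hR0 : ∀ z, 0 ≤ R z)
    (hRa : ∀ z, n ≤ 2 * z + 2 * w → 2 * z ≤ n + 2 * w → (n.choose z : ℝ) ≤ R z)
    (hRb : ∀ z, n ≤ 2 * (z + 1) + 2 * w → 2 * (z + 1) ≤ n + 2 * w →
      R z ≤ R (z + 1) + s * n.choose (z + 1))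
    (hRc : ∀ z, n + 2 * w < 2 * (z + 1) → R z ≤ R (z + 1))
    (hRd : ∀ z, k ≤ z → n ≤ 2 * z + 2 * w → 2 * z ≤ n + 2 * w → (n.choose z : ℝ) + ρ ≤ R z) :
    (K.card : ℝ) - s * ((A ∩ win n w).card : ℝ) +
      ρ * hits ((win n w).filter fun Z => Z ∉ A ∧ k ≤ Z.card) univ ≤
      R n + ε / (1 - ε) * n.choose (n / 2) := by
  have h2 := Fp_main h0 h1 hs hρ hK hKe hZe hR0 hRa hRb hRc hRd univ
  have h3 : vwf (Fp_f w A K s) univ = (K.card : ℝ) - s * ((A ∩ win n w).card : ℝ) := by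
    rw [vwf_univ]
    have h4 : ∀ Y ∈ (univ : Finset (Finset (Fin n))), Fp_f w A K s Y / (n.choose Y.card : ℝ) =
        (if Y ∈ K then 1 else 0) - s * (if Y ∈ A ∩ win n w then 1 else 0) := by
      intro Y _
      have h5 : Y.card ≤ n := by
        have := Finset.card_le_univ Y
        simpa using this
      have h6 : (n.choose Y.card : ℝ) ≠ 0 := by
        have := Nat.choose_pos h5
        positivity
      unfold Fp_f
      rw [mul_div_assoc, mul_div_cancel₀ _ h6]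
    rw [Finset.sum_congr rfl h4, Finset.sum_sub_distrib, ← Finset.mul_sum, Finset.sum_ite_mem,
      Finset.sum_ite_mem, Finset.univ_inter, Finset.univ_inter, Finset.sum_const, Finset.sum_const,
      nsmul_eq_mul, nsmul_eq_mul, mul_one, mul_one]
  rw [h3, Finset.card_univ, Fintype.card_fin] at h2
  exact h2

end Pool.Agent.H15.AA
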