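import Pool.Agent.H15.AA.Fk

/-! The container of a violating family with at most `M` members is small (continued). -/

set_option autoImplicit false

open Finset

namespace Pool.Agent.H15.AA

variable {n : ℕ}

theorem C_ge {n : ℕ} (hn : 4 ≤ n) : (2 : ℝ) ^ n / n ≤ n.choose (n / 2) := by
  have h1 := Cn_low (by omega : 1 ≤ n)
  have h2 : 2 * (n + 1) ≤ n ^ 2 := by nlinarith
  have h3 : (2 ^ n) ^ 2 ≤ (n.choose (n / 2) * n) ^ 2 := by
    rw [mul_pow]
    exact h1.trans (Nat.mul_le_mul_left _ h2)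
  have h4 : 2 ^ n ≤ n.choose (n / 2) * n := by
    exact (Nat.pow_le_pow_iff_left (by norm_num)).1 h3
  have hn0 : (0 : ℝ) < n := by exact_mod_cast (by omega : 0 < n)
  rw [div_le_iff₀ hn0]
  exact_mod_cast h4

theorem n_le_sq {n r : ℕ} (h : 40 ≤ r) (h1 : n < (r + 1) * (r + 1)) :
    (n : ℝ) ≤ 11 / 10 * (r : ℝ) ^ 2 := by
  have e2 : (n : ℝ) < (r + 1) * (r + 1) := by exact_mod_cast h1
  have e3 : (40 : ℝ) ≤ r := by exact_mod_cast h
  nlinarith

theorem herr_aux {t E r Q : ℕ} {ρ σ : ℝ} (hρσ : 0 < ρ * σ) (hr0 : (0 : ℝ) < r) (hQr : Q ≤ r)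
    (hQ : 9 * (t + 2) * (2 + 400 * (E : ℝ) ^ 2) / (ρ * σ) < Q) :
    3 * ((t + 2 : ℕ) : ℝ) / r * (2 + 400 * (E : ℝ) ^ 2) ≤ ρ * σ / 3 := by
  have h1 : 9 * (t + 2) * (2 + 400 * (E : ℝ) ^ 2) / (ρ * σ) ≤ r := by
    refine hQ.le.trans ?_
    exact_mod_cast hQr
  rw [div_le_iff₀ hρσ] at h1
  rw [div_mul_eq_mul_div, div_le_iff₀ hr0]
  push_cast
  linarith

theorem herr2_aux {E : ℝ} {ρσ : ℝ} (hE2 : 2 < E) (h : 0 < ρσ) (hE3 : 6 / ρσ < E) :
    1 / E / (1 - 1 / E) ≤ ρσ / 3 := by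
  have h1 : 1 / E / (1 - 1 / E) = 1 / (E - 1) := by
    have h2 : E - 1 ≠ 0 := by linarith
    have h3 : E ≠ 0 := by linarith
    field_simp
  rw [h1, div_le_iff₀ (by linarith)]
  rw [div_lt_iff₀ h] at hE3
  nlinarith

theorem UV_ge (n w k : ℕ) : U n k ≤ UV n w k + (univ \ win n w).card := by
  unfold U UV
  rw [← Finset.card_filter_add_card_filter_not (s := univ.filter fun X : Finset (Fin n) => k ≤ X.card)
    (fun X => X ∈ win n w)]
  refine Nat.add_le_add (Finset.card_le_card ?_) (Finset.card_le_card ?_)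
  · intro X hX
    obtain ⟨h1, h2⟩ := Finset.mem_filter.1 hX
    exact Finset.mem_filter.2 ⟨h2, (Finset.mem_filter.1 h1).2⟩
  · intro X hX
    obtain ⟨h1, h2⟩ := Finset.mem_filter.1 hX
    exact Finset.mem_sdiff.2 ⟨Finset.mem_univ _, h2⟩

theorem UV_top (n w : ℕ) : UV n w (n + 1) = 0 := by
  unfold UV
  rw [Finset.card_eq_zero]
  apply Finset.filter_false_of_mem
  intro X _ h
  have := Finset.card_le_univ X
  rw [Fintype.card_fin] at this
  omega

/-- the probability that the walk meets a missing set in the layers `≥ l + h` -/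
theorem hits_le {n w l h M : ℕ} {A : Finset (Finset (Fin n))}
    {S : Finset (Finset (Fin n) × Fin n)} {ε : ℝ} (h0 : 0 ≤ ε) (h1 : ε < 1) (hl1 : n + 1 ≤ 2 * l)
    (hl2 : l ≤ n) (hlw : 2 * l ≤ n + 2 * w) (hw : 2 * w < n) (hA : A.card ≤ M)
    (hM : M < U n (l - 1))
    (hS : ∀ Z ∈ win n w, Z ∉ A → nxt (Dst (win n w) S) Z ≤ ε) :
    ((Kst (win n w) S ε).card : ℝ) + (n.choose (l + h) * (h : ℝ) ^ 2 / n) *
      hits ((win n w).filter fun Z => Z ∉ A ∧ l + h ≤ Z.card) univ ≤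
      n.choose l + slope n l * (2 * n.choose (n / 2) + (univ \ win n w).card) +
        ε / (1 - ε) * n.choose (n / 2) := by
  have hs := slope_nonneg hl1 hl2
  have hn0 : (0 : ℝ) < n := by exact_mod_cast (by omega : 0 < n)
  have hKD : Kst (win n w) S ε ⊆ Dst (win n w) S := Finset.filter_subset _ _
  have hDV : Dst (win n w) S ⊆ win n w := Finset.filter_subset _ _
  have hpot := potential (n := n) (w := w) (k := l + h) (A := A) (K := Kst (win n w) S ε) (ε := ε)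
    (s := slope n l) (ρ := n.choose (l + h) * (h : ℝ) ^ 2 / n) (R := Rf n w l) h0 h1 hs
    (by positivity) (hKD.trans hDV)
    (fun X hX => (nxt_mono hKD X).trans (by
      unfold Kst at hX
      exact (Finset.mem_filter.1 hX).2))
    (fun Z hZ hZA => (nxt_mono hKD Z).trans (hS Z hZ hZA))
    (Rf_nonneg hl1 hl2 hlw) (Rf_ge hl1 hl2 hlw)
    (fun z hz1 hz2 => (Rf_in hz1 hz2).le) (fun z hz => (Rf_out hz).le)
    (fun z hz _ hz2 => Rf_gain hl1 hl2 z hz hz2)
  have hRn : Rf n w l n = n.choose l - slope n l * UV n w (l + 1) := by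
    unfold Rf
    rw [UV_top]
    push_cast
    ring
  rw [hRn] at hpot
  have hUV := UV_ge n w (l + 1)
  have h2 : U n (l - 1) = U n (l + 1) + n.choose l + n.choose (l - 1) := by
    have e1 := U_succ n (l - 1)
    have e2 := U_succ n l
    rw [show l - 1 + 1 = l by omega] at e1
    omega
  have h3 := Nat.choose_le_middle l n
  have h4 := Nat.choose_le_middle (l - 1) n
  have h5 : (A ∩ win n w).card ≤ A.card := Finset.card_le_card Finset.inter_subset_left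
  have h6 : (A ∩ win n w).card ≤ UV n w (l + 1) + (2 * n.choose (n / 2) + (univ \ win n w).card) := by
    omega
  have h7 : ((A ∩ win n w).card : ℝ) ≤ UV n w (l + 1) +
      (2 * n.choose (n / 2) + (univ \ win n w).card) := by exact_mod_cast h6
  have h8 := mul_le_mul_of_nonneg_left h7 hs
  rw [mul_add] at h8
  linarith

theorem key {δ : ℝ} (hδ : 0 < δ) (hδ1 : δ ≤ 1 / 3) (t : ℕ) : ∃ (E : ℕ) (c : ℝ), 1 ≤ E ∧ 0 < c ∧
    ∃ N : ℕ, ∀ n : ℕ, N ≤ n → ∀ M l : ℕ, δ * 2 ^ n ≤ M → 1 ≤ l → M < U n (l - 1) →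
      5 * n + Nat.sqrt n ≤ 10 * l → 2 * l ≤ n + t * Nat.sqrt n →
      ∀ A : Finset (Finset (Fin n)), UC A → A.card ≤ M → Viol A →
      ∃ S : Finset (Finset (Fin n) × Fin n), S.card ≤ 2 ^ n / (n / (10 * E)) ∧
        (∀ X ∈ gen A, X ∈ win n (n / (20 * E)) → X ∈ Kst (win n (n / (20 * E))) S (1 / (E : ℝ))) ∧
        ((Kst (win n (n / (20 * E))) S (1 / (E : ℝ))).card : ℝ) ≤ (1 - 2 * c) * n.choose l := by
  obtain ⟨c', hc', N1, hN1⟩ := layer_up (t + 2)
  obtain ⟨σ, hσ⟩ : ∃ σ : ℝ, σ = δ ^ 2 / 1000 := ⟨_, rfl⟩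
  have hσ0 : 0 < σ := by rw [hσ]; positivity
  obtain ⟨K, hK⟩ := exists_nat_gt (2 / σ)
  have hK0 : (0 : ℝ) < K := lt_trans (by positivity) hK
  obtain ⟨ρ, hρ⟩ : ∃ ρ : ℝ, ρ = c' / (5 * K ^ 2) := ⟨_, rfl⟩
  have hρ0 : 0 < ρ := by rw [hρ]; positivity
  obtain ⟨E, hE⟩ := exists_nat_gt (max 2 (6 / (ρ * σ)))
  have hE2 : (2 : ℝ) < E := lt_of_le_of_lt (le_max_left _ _) hE
  have hE3 : 6 / (ρ * σ) < E := lt_of_le_of_lt (le_max_right _ _) hE
  have hE0 : (0 : ℝ) < E := by linarith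
  have hE2' : 2 < E := by exact_mod_cast hE2
  obtain ⟨Q, hQ⟩ := exists_nat_gt (9 * (t + 2) * (2 + 400 * (E : ℝ) ^ 2) / (ρ * σ))
  obtain ⟨T, hT⟩ := exists_nat_gt (2 / σ)
  obtain ⟨W, hW⟩ := exists_nat_gt (400 * (E : ℝ) ^ 2 / σ)
  refine ⟨E, ρ * σ / 6, by omega, by positivity, N1 + (2 * K + Q + T + 40 + 20 * E * (t + 2) + 6 * (t + 2)) ^ 2 + W + 20 * E, ?_⟩
  intro n hn M l hM hl0 hMU hl1 hl2 A hA hAM hv
  obtain ⟨r, hr⟩ : ∃ r, r = Nat.sqrt n := ⟨_, rfl⟩
  have hrbig : 2 * K + Q + T + 40 + 20 * E * (t + 2) + 6 * (t + 2) ≤ r := by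
    rw [hr, Nat.le_sqrt']
    omega
  have hrr : r * r ≤ n := by rw [hr]; exact Nat.sqrt_le n
  have hr1 : n < (r + 1) * (r + 1) := by rw [hr]; exact Nat.lt_succ_sqrt n
  have hr40 : 40 ≤ r := by omega
  have hn1 : 1600 ≤ n := le_trans (Nat.mul_le_mul hr40 hr40) hrr
  have hn0 : (0 : ℝ) < n := by exact_mod_cast (by omega : 0 < n)
  have hr0 : (0 : ℝ) < r := by exact_mod_cast (by omega : 0 < r)
  have hN0 : (0 : ℝ) < 2 ^ n := by positivity
  have hC0 : (0 : ℝ) < n.choose (n / 2) := by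
    exact_mod_cast Nat.choose_pos (Nat.div_le_self n 2)
  obtain ⟨w, hw⟩ : ∃ w, w = n / (20 * E) := ⟨_, rfl⟩
  obtain ⟨d, hd⟩ : ∃ d, d = n / (10 * E) := ⟨_, rfl⟩
  rw [← hw, ← hd]
  have hEn : 20 * E ≤ n := by omega
  have hw20 : w * (20 * E) ≤ n := by rw [hw]; exact Nat.div_mul_le_self n _
  have hw10 : 10 * w ≤ n := by
    refine le_trans ?_ hw20
    rw [mul_comm]
    exact Nat.mul_le_mul_left _ (by omega)
  have hd0 : 0 < d := by rw [hd]; exact Nat.div_pos (by omega) (by omega)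
  have hwn : (w : ℝ) ≤ n / (20 * E) := by
    have := Nat.cast_div_le (α := ℝ) (m := n) (n := 20 * E)
    rw [hw]
    push_cast at this
    exact this
  have hdn : (d : ℝ) ≤ n / (10 * E) := by
    have := Nat.cast_div_le (α := ℝ) (m := n) (n := 10 * E)
    rw [hd]
    push_cast at this
    exact this
  have hε : 4 * ((d : ℝ) + 2 * w) ≤ 1 / (E : ℝ) * n := by
    have h1 : 4 * ((n : ℝ) / (10 * E) + 2 * (n / (20 * E))) = 8 / 10 * (1 / (E : ℝ) * n) := by
      field_simp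
      ring
    have h2 : 0 < 1 / (E : ℝ) * n := by positivity
    linarith
  obtain ⟨S, hS1, hS2, hS3⟩ := container hA (by omega : 0 < n) (by omega) hε
  refine ⟨S, (Nat.le_div_iff_mul_le hd0).2 hS1, hS2, ?_⟩
  by_contra hcon
  push Not at hcon
  rw [← hr] at hl1 hl2
  have htr : (t + 2) * r ≤ 2 * w := by
    have h1 : (t + 2) * r ≤ w := by
      rw [hw, Nat.le_div_iff_mul_le (by omega : 0 < 20 * E)]
      have h2 : 20 * E * (t + 2) ≤ r := by omega
      calc (t + 2) * r * (20 * E) = (20 * E * (t + 2)) * r := by ring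
        _ ≤ r * r := Nat.mul_le_mul_right _ h2
        _ ≤ n := hrr
    omega
  have htr2 : t * r ≤ (t + 2) * r := Nat.mul_le_mul_right _ (by omega)
  have hl3 : n + 1 ≤ 2 * l := by omega
  have hl4 : l ≤ n := by omega
  obtain ⟨h, hh⟩ : ∃ h, h = r / K := ⟨_, rfl⟩
  have hKpos : 0 < K := by exact_mod_cast hK0
  have hhr : h ≤ r := by rw [hh]; exact Nat.div_le_self _ _
  have hhK : h * K ≤ r := by rw [hh]; exact Nat.div_mul_le_self _ _
  have hh2 : r < 2 * K * h := by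
    have h1 : r < K * (h + 1) := by rw [hh]; exact Nat.lt_mul_div_succ r hKpos
    have h2 : 1 ≤ h := by
      rw [hh, Nat.le_div_iff_mul_le hKpos]
      omega
    nlinarith
  have hlw : 2 * l ≤ n + 2 * w := by omega
  have hhits := hits_le (n := n) (w := w) (l := l) (h := h) (M := M) (A := A) (S := S)
    (ε := 1 / (E : ℝ)) (by positivity) (by rw [div_lt_one hE0]; linarith) hl3 hl4 hlw (by omega)
    hAM hMU hS3
  obtain ⟨H, hH⟩ : ∃ H, H = (win n w).filter fun Z => Z ∉ A ∧ l + h ≤ Z.card := ⟨_, rfl⟩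
  rw [← hH] at hhits
  obtain ⟨η, hη⟩ : ∃ η, η = hits H univ := ⟨_, rfl⟩
  rw [← hη] at hhits
  have hη0 : 0 ≤ η := by rw [hη]; exact hits_nonneg _ _
  have hv1 : ((univ \ win n w).card : ℝ) ≤ 400 * (E : ℝ) ^ 2 * 2 ^ n / n := by
    rw [hw]
    exact comp_card (by omega) hEn
  -- the error terms
  have hCge := C_ge (by omega : 4 ≤ n)
  have hslope : slope n l ≤ 3 * ((t + 2 : ℕ) : ℝ) / r := by
    have h2 : 6 * (t + 2) ≤ r := by omega
    have h3 : 36 * (t + 2) ^ 2 ≤ n := by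
      calc 36 * (t + 2) ^ 2 = 6 * (t + 2) * (6 * (t + 2)) := by ring
        _ ≤ r * r := Nat.mul_le_mul h2 h2
        _ ≤ n := hrr
    have h1 := slope_le (n := n) (t := t + 2) (by omega) h3 hl3 (by rw [← hr]; omega)
    rw [← hr] at h1
    exact h1
  have hs0 := slope_nonneg hl3 hl4
  have herr1 : slope n l * (2 * n.choose (n / 2) + (univ \ win n w).card) ≤
      ρ * σ / 3 * n.choose (n / 2) := by
    have h1 : ((univ \ win n w).card : ℝ) ≤ 400 * (E : ℝ) ^ 2 * n.choose (n / 2) := by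
      refine hv1.trans ?_
      rw [mul_div_assoc]
      exact mul_le_mul_of_nonneg_left hCge (by positivity)
    have h2 : (2 * (n.choose (n / 2) : ℝ) + (univ \ win n w).card) ≤
        (2 + 400 * (E : ℝ) ^ 2) * n.choose (n / 2) := by linarith
    have h3 := herr_aux (t := t) (E := E) (mul_pos hρ0 hσ0) hr0 (by omega : Q ≤ r) hQ
    calc slope n l * (2 * n.choose (n / 2) + (univ \ win n w).card) ≤
        slope n l * ((2 + 400 * (E : ℝ) ^ 2) * n.choose (n / 2)) :=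
          mul_le_mul_of_nonneg_left h2 hs0
      _ ≤ 3 * ((t + 2 : ℕ) : ℝ) / r * ((2 + 400 * (E : ℝ) ^ 2) * n.choose (n / 2)) :=
          mul_le_mul_of_nonneg_right hslope (by positivity)
      _ = 3 * ((t + 2 : ℕ) : ℝ) / r * (2 + 400 * (E : ℝ) ^ 2) * n.choose (n / 2) := by ring
      _ ≤ _ := mul_le_mul_of_nonneg_right h3 hC0.le
  have herr2 : 1 / (E : ℝ) / (1 - 1 / E) ≤ ρ * σ / 3 :=
    herr2_aux hE2 (mul_pos hρ0 hσ0) hE3
  have herr2' := mul_le_mul_of_nonneg_right herr2 hC0.le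
  -- the gain
  have hgain : ρ * n.choose (n / 2) ≤ n.choose (l + h) * (h : ℝ) ^ 2 / n := by
    have h1 := hN1 n (by omega) (l + h) (by omega) (by
      rw [← hr]
      have : (t + 2) * r = t * r + 2 * r := by ring
      omega)
    have h2 : (n : ℝ) ≤ 5 * K ^ 2 * h ^ 2 := by
      have e1 : (r : ℝ) ≤ 2 * K * h := by exact_mod_cast hh2.le
      have e4 : (n : ℝ) ≤ 11 / 10 * r ^ 2 := n_le_sq hr40 hr1
      have e5 : (r : ℝ) ^ 2 ≤ (2 * K * h) ^ 2 := pow_le_pow_left₀ hr0.le e1 2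
      have e6 : (2 * (K : ℝ) * h) ^ 2 = 4 * (K ^ 2 * h ^ 2) := by ring
      have e7 : (0 : ℝ) ≤ K ^ 2 * h ^ 2 := by positivity
      rw [e6] at e5
      rw [show (5 : ℝ) * K ^ 2 * h ^ 2 = 5 * (K ^ 2 * h ^ 2) by ring]
      linarith
    rw [le_div_iff₀ hn0]
    calc ρ * n.choose (n / 2) * n ≤ ρ * n.choose (n / 2) * (5 * K ^ 2 * h ^ 2) :=
          mul_le_mul_of_nonneg_left h2 (by positivity)
      _ = (c' * n.choose (n / 2)) * (h : ℝ) ^ 2 := by
          rw [hρ]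
          field_simp
      _ ≤ n.choose (l + h) * (h : ℝ) ^ 2 := mul_le_mul_of_nonneg_right h1 (by positivity)
  have hgain' := mul_le_mul_of_nonneg_right hgain hη0
  have hCl : (n.choose l : ℝ) ≤ n.choose (n / 2) := by exact_mod_cast Nat.choose_le_middle l n
  have hησ : η ≤ σ := by
    have h1 : ρ * n.choose (n / 2) * η ≤ ρ * n.choose (n / 2) * σ := by
      have h2 : 2 * (ρ * σ / 6) * (n.choose l : ℝ) ≤ 2 * (ρ * σ / 6) * n.choose (n / 2) :=
        mul_le_mul_of_nonneg_left hCl (by positivity)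
      linarith
    exact le_of_mul_le_mul_left h1 (by positivity)
  -- the missing sets
  have hHc : (H.card : ℝ) ≤ σ * 2 ^ n := by
    refine (card_le_hits H).trans ?_
    rw [← hη]
    exact mul_le_mul_of_nonneg_right hησ hN0.le
  obtain ⟨hp1, hp2⟩ := small_part (n := n) (w := w) (l := l) (h := h) (M := M) (A := A) hl0 hAM hMU
  rw [← hH] at hp1 hp2
  have hsq := sqrt_C n
  rw [← hr] at hsq
  have hsq' : (r : ℝ) * n.choose (n / 2) ≤ 2 ^ n := by exact_mod_cast hsq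
  refine contra hδ hn1 hM hδ1 hv (by rw [← hr]; exact hl1) hp1 hp2 ?_
  push_cast
  rw [← hσ]
  have b1 : ((univ \ win n w).card : ℝ) ≤ σ * 2 ^ n := by
    refine hv1.trans ?_
    rw [div_le_iff₀ hn0]
    have h1 : 400 * (E : ℝ) ^ 2 / σ ≤ n := by
      refine hW.le.trans ?_
      exact_mod_cast (by omega : W ≤ n)
    rw [div_le_iff₀ hσ0] at h1
    calc 400 * (E : ℝ) ^ 2 * 2 ^ n ≤ n * σ * 2 ^ n := mul_le_mul_of_nonneg_right h1 hN0.le
      _ = σ * 2 ^ n * n := by ring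
  have b2 : (h : ℝ) * n.choose (n / 2) ≤ σ / 2 * 2 ^ n := by
    have h1 : (h : ℝ) * K ≤ r := by exact_mod_cast hhK
    rw [div_lt_iff₀ hσ0] at hK
    have h2 : (h : ℝ) * n.choose (n / 2) * K ≤ 2 ^ n := by
      calc (h : ℝ) * n.choose (n / 2) * K = (h : ℝ) * K * n.choose (n / 2) := by ring
        _ ≤ r * n.choose (n / 2) := mul_le_mul_of_nonneg_right h1 hC0.le
        _ ≤ 2 ^ n := hsq'
    have h3 : (2 : ℝ) ^ n ≤ σ / 2 * 2 ^ n * K := by
      calc (2 : ℝ) ^ n = 2 / 2 * 2 ^ n := by ring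
        _ ≤ K * σ / 2 * 2 ^ n := by
            apply mul_le_mul_of_nonneg_right _ hN0.le
            linarith
        _ = σ / 2 * 2 ^ n * K := by ring
    exact le_of_mul_le_mul_right (h2.trans h3) hK0
  have b3 : (n.choose (n / 2) : ℝ) ≤ σ / 2 * 2 ^ n := by
    have hTr : 2 / σ ≤ r := by
      refine hT.le.trans ?_
      exact_mod_cast (by omega : T ≤ r)
    rw [div_le_iff₀ hσ0] at hTr
    have h3 : (n.choose (n / 2) : ℝ) * r ≤ σ / 2 * 2 ^ n * r := by
      calc (n.choose (n / 2) : ℝ) * r = r * n.choose (n / 2) := by ring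
        _ ≤ 2 / 2 * 2 ^ n := by linarith
        _ ≤ r * σ / 2 * 2 ^ n := by
            apply mul_le_mul_of_nonneg_right _ hN0.le
            linarith
        _ = σ / 2 * 2 ^ n * r := by ring
    exact le_of_mul_le_mul_right h3 hr0
  linarith

end Pool.Agent.H15.AA
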