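import Pool.Agent.H15.AA.Fq
import Pool.Agent.H15.AA.Fn
import Pool.Agent.H15.AA.Fi
import Pool.Agent.H15.AA.Cm

/-! Few violating families with at most `M` members. -/

set_option autoImplicit false

open Finset

namespace Pool.Agent.H15.AA

instance UC_dec {n : ℕ} (A : Finset (Finset (Fin n))) : Decidable (UC A) := by
  unfold UC; infer_instance

theorem few_violating {δ : ℝ} (hδ : 0 < δ) (hδ1 : δ ≤ 1 / 3) : ∃ (t : ℕ) (c : ℝ), 0 < c ∧
    ∃ N : ℕ, ∀ n : ℕ, N ≤ n → ∀ M : ℕ, δ * 2 ^ n ≤ M → 5 * M ≤ 2 * 2 ^ n →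
      ∃ l : ℕ, 1 ≤ l ∧ U n l ≤ M ∧ M < U n (l - 1) ∧ 5 * n + Nat.sqrt n ≤ 10 * l ∧
        2 * l ≤ n + t * Nat.sqrt n ∧
        ((univ.filter fun A : Finset (Finset (Fin n)) => UC A ∧ A.card ≤ M ∧ Viol A).card : ℝ) ≤
          (2 : ℝ) ^ (-(c * n.choose (n / 2))) * 2 ^ (n.choose l) := by
  obtain ⟨t, N1, hN1⟩ := base hδ
  obtain ⟨E, c, hE, hc, N2, hN2⟩ := key hδ hδ1 t
  obtain ⟨c', hc', N3, hN3⟩ := layer_up t
  obtain ⟨N4, hN4⟩ := final_err hE (θ := c * c') (by positivity)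
  refine ⟨t, c * c', by positivity, N1 + N2 + N3 + N4 + 20 * E + 1, ?_⟩
  intro n hn M hM1 hM2
  obtain ⟨l, hl0, hl1, hl2, hl3, hl4⟩ := hN1 n (by omega) M hM1 hM2
  refine ⟨l, hl0, hl1, hl2, hl3, hl4, ?_⟩
  have hn0 : (0 : ℝ) < n := by exact_mod_cast (by omega : 0 < n)
  have hC0 : (0 : ℝ) < n.choose (n / 2) := by
    exact_mod_cast Nat.choose_pos (Nat.div_le_self n 2)
  have hkey := hN2 n (by omega) M l hM1 hl0 hl2 hl3 hl4
  have hcl : c' * n.choose (n / 2) ≤ n.choose l := hN3 n (by omega) l (by omega) hl4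
  obtain ⟨K0, hK0⟩ : ∃ K0 : ℕ, K0 = ⌊(1 - 2 * c) * (n.choose l : ℝ)⌋₊ := ⟨_, rfl⟩
  have hcount := count (n := n) (s0 := 2 ^ n / (n / (10 * E))) (K0 := K0) (w := n / (20 * E))
    (ε := 1 / (E : ℝ))
    (fun A : Finset (Finset (Fin n)) => UC A ∧ A.card ≤ M ∧ Viol A) (by
      intro A hA
      obtain ⟨S, h1, h2, h3⟩ := hkey A hA.1 hA.2.1 hA.2.2
      exact ⟨hA.1, S, h1, h2, by rw [hK0]; exact Nat.le_floor h3⟩)
  by_cases hemp : (univ.filter fun A : Finset (Finset (Fin n)) => UC A ∧ A.card ≤ M ∧ Viol A).card = 0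
  · rw [hemp]
    push_cast
    positivity
  have h2c : 0 ≤ (1 - 2 * c) * (n.choose l : ℝ) := by
    obtain ⟨A, hA⟩ := Finset.card_ne_zero.1 hemp
    obtain ⟨hA1, hA2, hA3⟩ := (Finset.mem_filter.1 hA).2
    obtain ⟨S, -, -, h3⟩ := hkey A hA1 hA2 hA3
    exact le_trans (Nat.cast_nonneg _) h3
  have hx0 : (0 : ℝ) < 1 / (n : ℝ) ^ 2 := by positivity
  have hn1' : (1 : ℝ) ≤ n := by exact_mod_cast (by omega : 1 ≤ n)
  have hx1 : 1 / (n : ℝ) ^ 2 ≤ 1 := by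
    rw [div_le_one (by positivity)]
    exact one_le_pow₀ hn1'
  have hsmall := card_small (α := Finset (Fin n) × Fin n) (2 ^ n / (n / (10 * E))) hx0 hx1
  have hcard : (Fintype.card (Finset (Fin n) × Fin n) : ℝ) = 2 ^ n * n := by
    rw [Fintype.card_prod, Fintype.card_finset, Fintype.card_fin]
    push_cast
    rfl
  rw [hcard] at hsmall
  obtain ⟨v, hv⟩ : ∃ v : ℕ, v = (univ \ win n (n / (20 * E))).card := ⟨_, rfl⟩
  obtain ⟨s, hs⟩ : ∃ s : ℕ, s = (univ.filter fun S : Finset (Finset (Fin n) × Fin n) =>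
    S.card ≤ 2 ^ n / (n / (10 * E))).card := ⟨_, rfl⟩
  rw [← hs, ← hv] at hcount
  rw [← hs] at hsmall
  have herr := hN4 n (by omega) (2 ^ n / (n / (10 * E))) v (by
      have := Nat.cast_div_le (α := ℝ) (m := 2 ^ n) (n := n / (10 * E))
      push_cast at this ⊢
      exact this) (by rw [hv]; exact comp_card (by omega) (by omega))
  have h1 : ((univ.filter fun A : Finset (Finset (Fin n)) => UC A ∧ A.card ≤ M ∧ Viol A).card : ℝ) ≤
      (s : ℝ) * (2 * 2 ^ (K0 + v)) := by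
    have h2 := (Nat.cast_le (α := ℝ)).2 hcount
    push_cast at h2
    exact h2
  have h2 : (2 : ℝ) ^ K0 ≤ (2 : ℝ) ^ ((1 - 2 * c) * (n.choose l : ℝ)) := by
    rw [← Real.rpow_natCast]
    apply Real.rpow_le_rpow_of_exponent_le (by norm_num)
    rw [hK0]
    exact Nat.floor_le h2c
  calc _ ≤ (s : ℝ) * (2 * 2 ^ (K0 + v)) := h1
    _ ≤ ((1 / (1 / (n : ℝ) ^ 2)) ^ (2 ^ n / (n / (10 * E))) *
        Real.exp (1 / (n : ℝ) ^ 2 * (2 ^ n * n))) * (2 * 2 ^ (K0 + v)) :=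
          mul_le_mul_of_nonneg_right hsmall (by positivity)
    _ = ((1 / (1 / (n : ℝ) ^ 2)) ^ (2 ^ n / (n / (10 * E))) *
        Real.exp (1 / (n : ℝ) ^ 2 * (2 ^ n * n)) * (2 * 2 ^ v)) * 2 ^ K0 := by
          rw [pow_add]
          ring
    _ ≤ (2 : ℝ) ^ (c * c' * n.choose (n / 2)) * 2 ^ K0 :=
          mul_le_mul_of_nonneg_right herr (by positivity)
    _ ≤ (2 : ℝ) ^ (c * c' * n.choose (n / 2)) * (2 : ℝ) ^ ((1 - 2 * c) * (n.choose l : ℝ)) :=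
          mul_le_mul_of_nonneg_left h2 (by positivity)
    _ = (2 : ℝ) ^ (c * c' * n.choose (n / 2) + (1 - 2 * c) * (n.choose l : ℝ)) := by
          rw [Real.rpow_add (by norm_num)]
    _ ≤ (2 : ℝ) ^ (-(c * c' * n.choose (n / 2)) + n.choose l) := by
          apply Real.rpow_le_rpow_of_exponent_le (by norm_num)
          have := mul_le_mul_of_nonneg_left hcl hc.le
          linarith
    _ = _ := by
          rw [Real.rpow_add (by norm_num), Real.rpow_natCast]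

end Pool.Agent.H15.AA
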