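import Pool.Agent.H15.AA.FDefs
import Pool.Agent.H15.AA.In

/-! Instances with a given number of members: definitions. -/

set_option autoImplicit false

open Finset

namespace Pool.Agent.H15.AA

/-- the first `k` points -/
def Pk (n k : ℕ) : Finset (Fin n) := univ.filter fun x : Fin n => (x : ℕ) < k

/-- `V` is an up-set of subsets of `Pk n k` -/
def UpS (n k : ℕ) (V : Finset (Finset (Fin n))) : Prop :=
  V ⊆ (Pk n k).powerset ∧ ∀ σ ∈ V, ∀ τ, τ ⊆ Pk n k → σ ⊆ τ → τ ∈ V

instance (n k : ℕ) (V : Finset (Finset (Fin n))) : Decidable (UpS n k V) := by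
  unfold UpS; infer_instance

/-- the sets that are taken: more than `a` elements, or `a` elements and trace in `V` -/
def Fx (n a k : ℕ) (V : Finset (Finset (Fin n))) : Finset (Finset (Fin n)) :=
  univ.filter fun X => a < X.card ∨ (X.card = a ∧ X ∩ Pk n k ∈ V)

/-- the sets that are free -/
def Lx (n a k : ℕ) (V : Finset (Finset (Fin n))) : Finset (Finset (Fin n)) :=
  univ.filter fun X => (X.card = a ∧ X ∩ Pk n k ∉ V) ∨ (X.card + 1 = a ∧ X ∩ Pk n k ∈ V)

end Pool.Agent.H15.AA
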