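import Pool.Agent.H15.AA.GDefs

/-!
# Row Ga: the families `Fx ∪ T`

Proofs. `FL_disj`: clear from the sizes and the traces. `Fx_inst`: similar to `Fi_inst` in Row Fi. Union
closed: let `X, Y ∈ Fx ∪ T`, `X ∪ Y ≠ X`, `X ∪ Y ≠ Y`. All members have at least `a - 1` elements. If
`X ∪ Y` has more than `a` elements it is in `Fx`. Otherwise `X.card, Y.card ≤ a - 1` (proper subsets
of `X ∪ Y`), so both are in `T` with `card + 1 = a` and traces in `V`, and `X ∪ Y` has exactly `a`
elements and its trace contains the trace of `X`, so it is in `V` (`UpS`) and `X ∪ Y ∈ Fx`.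
`univ ∈ Fx` (`a < n`); `univ.erase y ∈ Fx` (`a < n - 1`); `∅ ∉ Fx ∪ T` (`2 ≤ a`).
`inst_exact`: the map `T ↦ Fx ∪ T` on `powersetCard j (Lx n a k V)` is injective (`FL_disj`:
`T = (Fx ∪ T) \ Fx`), with values of size `Fx.card + j`; `Finset.card_powersetCard`.
-/

set_option autoImplicit false

open Finset

namespace Pool.Agent.H15.AA

theorem Ga_memF {n a k : ℕ} {V : Finset (Finset (Fin n))} {X : Finset (Fin n)} :
    X ∈ Fx n a k V ↔ a < X.card ∨ (X.card = a ∧ X ∩ Pk n k ∈ V) := by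
  unfold Fx
  rw [mem_filter]
  simp only [mem_univ, true_and]

theorem Ga_memL {n a k : ℕ} {V : Finset (Finset (Fin n))} {X : Finset (Fin n)} :
    X ∈ Lx n a k V ↔ (X.card = a ∧ X ∩ Pk n k ∉ V) ∨ (X.card + 1 = a ∧ X ∩ Pk n k ∈ V) := by
  unfold Lx
  rw [mem_filter]
  simp only [mem_univ, true_and]

theorem FL_disj (n a k : ℕ) (V : Finset (Finset (Fin n))) : Disjoint (Fx n a k V) (Lx n a k V) := by
  rw [disjoint_left]
  intro X hX hX'
  rw [Ga_memF] at hX
  rw [Ga_memL] at hX'
  rcases hX with h1 | ⟨h1, h2⟩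
  · rcases hX' with ⟨h3, -⟩ | ⟨h3, -⟩ <;> omega
  · rcases hX' with ⟨-, h4⟩ | ⟨h3, -⟩
    · exact h4 h2
    · omega

theorem Ga_lt {n : ℕ} {X Y : Finset (Fin n)} (h : X ∪ Y ≠ X) : X.card < (X ∪ Y).card := by
  refine card_lt_card ?_
  rw [ssubset_iff_subset_ne]
  exact ⟨subset_union_left, Ne.symm h⟩

/-- small members are free sets with trace in `V` -/
theorem Ga_small {n a k : ℕ} {V T : Finset (Finset (Fin n))} (hT : T ⊆ Lx n a k V) {X : Finset (Fin n)}
    (hX : X ∈ Fx n a k V ∪ T) : a ≤ X.card ∨ (X.card + 1 = a ∧ X ∩ Pk n k ∈ V) := by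
  rw [mem_union] at hX
  rcases hX with h | h
  · rcases Ga_memF.1 h with h1 | ⟨h1, -⟩
    · exact Or.inl h1.le
    · exact Or.inl h1.ge
  · rcases Ga_memL.1 (hT h) with ⟨h1, -⟩ | h1
    · exact Or.inl h1.ge
    · exact Or.inr h1

theorem Fx_inst {n a k : ℕ} {V T : Finset (Finset (Fin n))} (ha : 2 ≤ a) (han : a + 2 ≤ n)
    (hV : UpS n k V) (hT : T ⊆ Lx n a k V) : Inst (Fx n a k V ∪ T) := by
  have hu : (univ : Finset (Fin n)) ∈ Fx n a k V ∪ T := by
    rw [mem_union, Ga_memF]
    left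
    left
    rw [card_univ, Fintype.card_fin]
    omega
  refine ⟨?_, ?_, ?_, ?_⟩
  · intro X hX Y hY
    by_cases h1 : X ∪ Y = X
    · rw [h1]; exact hX
    by_cases h2 : X ∪ Y = Y
    · rw [h2]; exact hY
    have h3 := Ga_lt h1
    have h4 : Y.card < (X ∪ Y).card := by
      rw [union_comm] at h2 ⊢
      exact Ga_lt h2
    rw [mem_union, Ga_memF]
    left
    by_cases h5 : a < (X ∪ Y).card
    · exact Or.inl h5
    · right
      rcases Ga_small hT hX with h6 | ⟨h6, h7⟩
      · omega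
      · refine ⟨by omega, ?_⟩
        refine hV.2 _ h7 _ inter_subset_right ?_
        exact inter_subset_inter_right subset_union_left
  · have h1 : (univ : Finset (Fin n)) ≤ (Fx n a k V ∪ T).sup id := le_sup (f := id) hu
    exact eq_univ_iff_forall.2 fun x => h1 (mem_univ x)
  · intro x y hxy
    refine ⟨univ.erase y, ?_, ?_⟩
    · rw [mem_union, Ga_memF]
      left
      left
      rw [card_erase_of_mem (mem_univ y), card_univ, Fintype.card_fin]
      omega
    · intro h
      exact notMem_erase y univ (h.1 (mem_erase.2 ⟨hxy, mem_univ x⟩))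
  · intro h
    have h1 : (∅ : Finset (Fin n)) ∈ Fx n a k V ∪ T := by
      rw [h]
      exact mem_univ _
    rcases Ga_small hT h1 with h2 | ⟨h2, -⟩
    · rw [card_empty] at h2
      omega
    · rw [card_empty] at h2
      omega

theorem inst_exact {n a k : ℕ} {V : Finset (Finset (Fin n))} (ha : 2 ≤ a) (han : a + 2 ≤ n)
    (hV : UpS n k V) (j : ℕ) :
    (Lx n a k V).card.choose j ≤ (univ.filter fun A : Finset (Finset (Fin n)) =>
      Inst A ∧ A.card = (Fx n a k V).card + j).card := by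
  rw [← card_powersetCard]
  have hd : ∀ T : Finset (Finset (Fin n)), T ⊆ Lx n a k V → Disjoint (Fx n a k V) T := fun T hT =>
    disjoint_of_subset_right hT (FL_disj n a k V)
  apply card_le_card_of_injOn (fun T => Fx n a k V ∪ T)
  · intro T hT
    have hT' := mem_powersetCard.1 (mem_coe.1 hT)
    refine mem_coe.2 (mem_filter.2 ⟨mem_univ _, Fx_inst ha han hV hT'.1, ?_⟩)
    rw [card_union_of_disjoint (hd T hT'.1), hT'.2]
  · intro T hT T' hT' he
    have h1 := (mem_powersetCard.1 (mem_coe.1 hT)).1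
    have h2 := (mem_powersetCard.1 (mem_coe.1 hT')).1
    have h3 : (Fx n a k V ∪ T) \ Fx n a k V = T := union_sdiff_cancel_left (hd T h1)
    have h4 : (Fx n a k V ∪ T') \ Fx n a k V = T' := union_sdiff_cancel_left (hd T' h2)
    have he' : Fx n a k V ∪ T = Fx n a k V ∪ T' := he
    rw [← h3, he', h4]

end Pool.Agent.H15.AA
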