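import Pool.Agent.H15.AA.GDefs
import Pool.Agent.H15.AA.Fm

/-!
# Row Gb: the sizes of `Fx` and `Lx`

Proofs. `Pk_card`: `k ≤ n`. `trace_card`: for `τ ⊆ Pk n k`, `τ.card ≤ a`, `X ↦ X \ τ` is a bijection
from the sets with `a` elements and trace `τ` to the subsets of `univ \ Pk n k` (`n - k` elements) with
`a - τ.card` elements (inverse: union with `τ`). `two_FL`: let `N b` be the number of the `X` with
`X.card = b` and trace in `V`. Then `Fx.card = U n (a + 1) + N a` and
`Lx.card = (n.choose a - N a) + N (a - 1)` (`a ≥ 1`), so `2 Fx.card + Lx.card = 2 U n (a + 1) + n.choose a +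
N a + N (a - 1)`, `U n a = U n (a + 1) + n.choose a` (`U_succ`), and
`N a = ∑ τ ∈ V, (n - k).choose (a - τ.card)` and the same for `a - 1` (`trace_card`,
`Finset.card_eq_sum_card_fiberwise` or `Finset.card_biUnion`; `τ.card ≤ k ≤ a - 1`), and
`(n - k).choose (a - τ.card) + (n - k).choose (a - 1 - τ.card) = (n - k + 1).choose (a - τ.card)` (Pascal).
`Lx_ge`: `n.choose a = ∑ τ ∈ (Pk n k).powerset, (n - k).choose (a - τ.card)`, and
`Lx.card = ∑ τ ∉ V, (n - k).choose (a - τ.card) + ∑ τ ∈ V, (n - k).choose (a - 1 - τ.card)`, where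
`(n - k).choose (b - 1) ≥ (n - k).choose b` for `2 b ≥ n - k + 1`, `b = a - τ.card ≥ a - k ≥ 1`
(`Nat.choose_succ_right_eq`).
-/

set_option autoImplicit false

open Finset

namespace Pool.Agent.H15.AA

theorem Pk_card {n k : ℕ} (hk : k ≤ n) : (Pk n k).card = k := by
  have h1 : Pk n k = (univ.filter fun x : Fin n => (x : ℕ) < k) := rfl
  rw [h1]
  have h2 := Fin.card_filter_val_lt (n := n) (m := k)
  rw [h2]
  exact min_eq_right hk

theorem trace_card {n a k : ℕ} {τ : Finset (Fin n)} (hk : k ≤ n) (hτ : τ ⊆ Pk n k)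
    (ha : τ.card ≤ a) :
    (univ.filter fun X : Finset (Fin n) => X.card = a ∧ X ∩ Pk n k = τ).card =
      (n - k).choose (a - τ.card) := by
  have h1 : (powersetCard (a - τ.card) (univ \ Pk n k)).card = (n - k).choose (a - τ.card) := by
    rw [card_powersetCard, card_sdiff_of_subset (subset_univ _), card_univ, Fintype.card_fin, Pk_card hk]
  rw [← h1]
  refine card_nbij' (fun X => X \ τ) (fun Y => Y ∪ τ) ?_ ?_ ?_ ?_
  · intro X hX
    have hX' := (mem_filter.1 hX).2
    have h2 : τ ⊆ X := by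
      rw [← hX'.2]
      exact inter_subset_left
    rw [mem_coe, mem_powersetCard]
    refine ⟨?_, ?_⟩
    · intro x hx
      rw [mem_sdiff] at hx ⊢
      refine ⟨mem_univ _, fun h => hx.2 ?_⟩
      rw [← hX'.2]
      exact mem_inter.2 ⟨hx.1, h⟩
    · rw [card_sdiff_of_subset h2, hX'.1]
  · intro Y hY
    rw [mem_coe, mem_powersetCard] at hY
    have hd : ∀ x ∈ Y, x ∉ Pk n k := fun x hx => (mem_sdiff.1 (hY.1 hx)).2
    rw [mem_coe, mem_filter]
    refine ⟨mem_univ _, ?_, ?_⟩
    · show (Y ∪ τ).card = a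
      have hd' : Disjoint Y τ := by
        rw [disjoint_left]
        exact fun x hx h => hd x hx (hτ h)
      rw [card_union_of_disjoint hd', hY.2]
      omega
    · show (Y ∪ τ) ∩ Pk n k = τ
      ext x
      rw [mem_inter, mem_union]
      constructor
      · rintro ⟨h | h, h'⟩
        · exact absurd h' (hd x h)
        · exact h
      · exact fun h => ⟨Or.inr h, hτ h⟩
  · intro X hX
    have hX' := (mem_filter.1 hX).2
    have h2 : τ ⊆ X := by
      rw [← hX'.2]
      exact inter_subset_left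
    exact sdiff_union_of_subset h2
  · intro Y hY
    rw [mem_coe, mem_powersetCard] at hY
    have hd' : Disjoint Y τ := by
      rw [disjoint_left]
      exact fun x hx h => (mem_sdiff.1 (hY.1 hx)).2 (hτ h)
    show (Y ∪ τ) \ τ = Y
    rw [union_sdiff_right, sdiff_eq_self_of_disjoint hd']

theorem Gb_N {n b k : ℕ} {V : Finset (Finset (Fin n))} (hk : k ≤ n) (hkb : k ≤ b)
    (hV : V ⊆ (Pk n k).powerset) :
    (univ.filter fun X : Finset (Fin n) => X.card = b ∧ X ∩ Pk n k ∈ V).card =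
      ∑ τ ∈ V, (n - k).choose (b - τ.card) := by
  rw [card_eq_sum_card_fiberwise (f := fun X => X ∩ Pk n k) (t := V)]
  · refine sum_congr rfl fun τ hτ => ?_
    have h1 := mem_powerset.1 (hV hτ)
    have h2 : τ.card ≤ b := by
      have h3 := card_le_card h1
      rw [Pk_card hk] at h3
      exact h3.trans hkb
    rw [← trace_card hk h1 h2, filter_filter]
    congr 1
    refine filter_congr fun X _ => ?_
    constructor
    · rintro ⟨⟨h3, _⟩, h4⟩
      exact ⟨h3, h4⟩
    · rintro ⟨h3, h4⟩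
      exact ⟨⟨h3, by rw [h4]; exact hτ⟩, h4⟩
  · intro X hX
    exact (mem_filter.1 hX).2.2

theorem Gb_Nc {n b k : ℕ} {V : Finset (Finset (Fin n))} (hk : k ≤ n) (hkb : k ≤ b) :
    (univ.filter fun X : Finset (Fin n) => X.card = b ∧ X ∩ Pk n k ∉ V).card =
      ∑ τ ∈ (Pk n k).powerset \ V, (n - k).choose (b - τ.card) := by
  rw [← Gb_N hk hkb sdiff_subset]
  congr 1
  refine filter_congr fun X _ => ?_
  rw [mem_sdiff, mem_powerset]
  constructor
  · rintro ⟨h1, h2⟩
    exact ⟨h1, inter_subset_right, h2⟩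
  · rintro ⟨h1, _, h2⟩
    exact ⟨h1, h2⟩

theorem Gb_all {n b k : ℕ} (hk : k ≤ n) (hkb : k ≤ b) :
    n.choose b = ∑ τ ∈ (Pk n k).powerset, (n - k).choose (b - τ.card) := by
  have h1 : (powersetCard b (univ : Finset (Fin n))).card = n.choose b := by
    rw [card_powersetCard, card_univ, Fintype.card_fin]
  rw [← Gb_N hk hkb (Subset.refl _), ← h1]
  congr 1
  ext X
  rw [mem_powersetCard, mem_filter, mem_powerset]
  constructor
  · rintro ⟨h1, h2⟩
    exact ⟨mem_univ _, h2, inter_subset_right⟩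
  · rintro ⟨_, h1, _⟩
    exact ⟨subset_univ _, h1⟩

theorem Gb_F {n a k : ℕ} {V : Finset (Finset (Fin n))} (hk : k ≤ n) (hka : k ≤ a)
    (hV : V ⊆ (Pk n k).powerset) :
    (Fx n a k V).card = U n (a + 1) + ∑ τ ∈ V, (n - k).choose (a - τ.card) := by
  rw [← Gb_N hk hka hV]
  have h1 : Fx n a k V = (univ.filter fun X : Finset (Fin n) => a + 1 ≤ X.card) ∪
      (univ.filter fun X : Finset (Fin n) => X.card = a ∧ X ∩ Pk n k ∈ V) := by
    rw [← filter_or]
    rfl
  rw [h1, card_union_of_disjoint]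
  · rfl
  · rw [disjoint_left]
    intro X h2 h3
    have h4 := (mem_filter.1 h2).2
    have h5 := (mem_filter.1 h3).2.1
    omega

theorem Gb_L {n a k : ℕ} {V : Finset (Finset (Fin n))} (hk : k ≤ n) (hka : k + 1 ≤ a)
    (hV : V ⊆ (Pk n k).powerset) :
    (Lx n a k V).card = ∑ τ ∈ (Pk n k).powerset \ V, (n - k).choose (a - τ.card) +
      ∑ τ ∈ V, (n - k).choose (a - 1 - τ.card) := by
  rw [← Gb_Nc hk (by omega), ← Gb_N (b := a - 1) hk (by omega) hV]
  have h1 : Lx n a k V = (univ.filter fun X : Finset (Fin n) => X.card = a ∧ X ∩ Pk n k ∉ V) ∪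
      (univ.filter fun X : Finset (Fin n) => X.card = a - 1 ∧ X ∩ Pk n k ∈ V) := by
    rw [← filter_or]
    unfold Lx
    refine filter_congr fun X _ => ?_
    have h2 : X.card + 1 = a ↔ X.card = a - 1 := by omega
    rw [h2]
  rw [h1, card_union_of_disjoint]
  rw [disjoint_left]
  intro X h2 h3
  have h4 := (mem_filter.1 h2).2.1
  have h5 := (mem_filter.1 h3).2.1
  omega

theorem Gb_le {n k : ℕ} {τ : Finset (Fin n)} (hk : k ≤ n) (hτ : τ ∈ (Pk n k).powerset) :
    τ.card ≤ k := by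
  have h3 := card_le_card (mem_powerset.1 hτ)
  rw [Pk_card hk] at h3
  exact h3

theorem Gb_ch {m b : ℕ} (h : m + 1 ≤ 2 * (b + 1)) : m.choose (b + 1) ≤ m.choose b := by
  have h1 := Nat.choose_succ_right_eq m b
  have h2 : m.choose (b + 1) * (b + 1) ≤ m.choose b * (b + 1) := by
    rw [h1]
    exact Nat.mul_le_mul_left _ (by omega)
  exact Nat.le_of_mul_le_mul_right h2 (by omega)

theorem two_FL {n a k : ℕ} {V : Finset (Finset (Fin n))} (hk : k ≤ n) (hka : k + 1 ≤ a)
    (hV : V ⊆ (Pk n k).powerset) :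
    2 * (Fx n a k V).card + (Lx n a k V).card =
      U n (a + 1) + U n a + ∑ τ ∈ V, (n - k + 1).choose (a - τ.card) := by
  rw [Gb_F hk (by omega) hV, Gb_L hk hka hV]
  have h1 := U_succ n a
  have h2 := Gb_all (n := n) (b := a) hk (by omega)
  have h3 := sum_sdiff (f := fun τ : Finset (Fin n) => (n - k).choose (a - τ.card)) hV
  have h4 : ∑ τ ∈ V, (n - k + 1).choose (a - τ.card) =
      ∑ τ ∈ V, (n - k).choose (a - 1 - τ.card) + ∑ τ ∈ V, (n - k).choose (a - τ.card) := by
    rw [← sum_add_distrib]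
    refine sum_congr rfl fun τ hτ => ?_
    have h5 := Gb_le hk (hV hτ)
    obtain ⟨b, hb⟩ : ∃ b, a = b + 1 + τ.card := ⟨a - 1 - τ.card, by omega⟩
    have h6 : a - τ.card = b + 1 := by omega
    have h7 : a - 1 - τ.card = b := by omega
    rw [h6, h7]
    exact Nat.choose_succ_succ _ _
  rw [h4, h1, h2]
  omega

theorem Lx_ge {n a k : ℕ} {V : Finset (Finset (Fin n))} (hk : k ≤ n) (hka : k + 1 ≤ a)
    (h : n + k + 1 ≤ 2 * a) (hV : V ⊆ (Pk n k).powerset) :
    n.choose a ≤ (Lx n a k V).card := by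
  rw [Gb_L hk hka hV, Gb_all (n := n) (b := a) hk (by omega),
    ← sum_sdiff (f := fun τ : Finset (Fin n) => (n - k).choose (a - τ.card)) hV]
  refine Nat.add_le_add_left (sum_le_sum fun τ hτ => ?_) _
  have h5 := Gb_le hk (hV hτ)
  obtain ⟨b, hb⟩ : ∃ b, a = b + 1 + τ.card := ⟨a - 1 - τ.card, by omega⟩
  have h6 : a - τ.card = b + 1 := by omega
  have h7 : a - 1 - τ.card = b := by omega
  rw [h6, h7]
  exact Gb_ch (by omega)

end Pool.Agent.H15.AA
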