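import Pool.Agent.H15.AA.Ga
import Pool.Agent.H15.AA.Gb

/-!
# Row Gc: exactly `M` members

Write `c = (n - k + 1).choose ((n - k + 1) / 2)`.
Proofs. `vand`: `∑ τ ∈ (Pk n k).powerset, (n - k + 1).choose (a - τ.card) = (n + 1).choose a`
(`Nat.add_choose_eq` (Vandermonde) and grouping by size, `k ≤ a`; or count the `a`-subsets of an
`(n + 1)`-set by their trace), `= n.choose a + n.choose (a - 1)`.
`exists_V`: among the `V` with `UpS n k V` and `2 Fx + Lx ≤ 2 M` (`V = ∅` is one, `two_FL`) take one of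
maximal size. `V ≠ (Pk n k).powerset`, because for the latter `2 Fx + Lx = U n (a + 1) + U n a +
n.choose a + n.choose (a - 1) = U n a + U n (a - 1) > 2 M` (`vand`, `U_succ`). So there is a `τ ⊆ Pk n k`
not in `V`; take one with the most elements; then `insert τ V` is an up-set, so by maximality
`2 M < 2 Fx + Lx` for it, which is `≤` the value for `V` plus `c` (`two_FL`, `Nat.choose_le_middle`).
`many_exact`: with this `V`, `F = Fx.card`, `L = Lx.card ≥ n.choose a ≥ c` (`Lx_ge`), `j = M - F`: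
`L ≤ 2 j < L + c ≤ 2 L`, so `j ≤ L`, `i = L - j`, `L - c < 2 i ≤ L`. `L.choose j = L.choose i ≥
(2 i).choose i ≥ 4 ^ i / (2 i + 1)` (`Nat.choose_symm`, `Nat.choose_le_choose`,
`Nat.four_pow_le_two_mul_add_one_mul_central_binom`), `2 i + 1 ≤ L + 1 ≤ 2 ^ n + 1`, and
`n.choose a - c ≤ L - c ≤ 2 i`; `inst_exact` and `F + j = M`.
-/

set_option autoImplicit false

open Finset

namespace Pool.Agent.H15.AA

theorem vand {n a k : ℕ} (hk : k ≤ n) (hka : k + 1 ≤ a) :
    ∑ τ ∈ (Pk n k).powerset, (n - k + 1).choose (a - τ.card) = n.choose a + n.choose (a - 1) := by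
  have h1 := Finset.sum_powerset_apply_card (fun m => (n - k + 1).choose (a - m)) (x := Pk n k)
  rw [Pk_card hk] at h1
  rw [h1]
  have h2 := Nat.add_choose_eq k (n - k + 1) a
  rw [Finset.Nat.sum_antidiagonal_eq_sum_range_succ
    (fun i j => k.choose i * (n - k + 1).choose j)] at h2
  have h3 : ∑ m ∈ range (k + 1), k.choose m • (n - k + 1).choose (a - m) =
      ∑ m ∈ range (a + 1), k.choose m * (n - k + 1).choose (a - m) := by
    simp only [smul_eq_mul]
    refine Finset.sum_subset (Finset.range_mono (by omega)) fun m _ hm => ?_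
    rw [Finset.mem_range] at hm
    rw [Nat.choose_eq_zero_of_lt (by omega), zero_mul]
  rw [h3]
  change _ = ∑ m ∈ range (a + 1), _ at h2
  rw [← h2]
  obtain ⟨b, rfl⟩ : ∃ b, a = b + 1 := ⟨a - 1, by omega⟩
  have h4 : k + (n - k + 1) = n + 1 := by omega
  rw [h4, Nat.choose_succ_succ, Nat.add_sub_cancel, add_comm]

theorem exists_V {n a k M : ℕ} (hk : k ≤ n) (hka : k + 1 ≤ a) (h1 : U n (a + 1) + U n a ≤ 2 * M)
    (h2 : 2 * M < U n a + U n (a - 1)) : ∃ V : Finset (Finset (Fin n)), UpS n k V ∧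
      2 * (Fx n a k V).card + (Lx n a k V).card ≤ 2 * M ∧
      2 * M < 2 * (Fx n a k V).card + (Lx n a k V).card + (n - k + 1).choose ((n - k + 1) / 2) := by
  classical
  set S : Finset (Finset (Finset (Fin n))) := univ.filter fun V =>
    UpS n k V ∧ 2 * (Fx n a k V).card + (Lx n a k V).card ≤ 2 * M with hS
  have hne : S.Nonempty := by
    refine ⟨∅, ?_⟩
    rw [hS, mem_filter]
    refine ⟨mem_univ _, ⟨empty_subset _, fun σ hσ => absurd hσ (notMem_empty σ)⟩, ?_⟩
    rw [two_FL hk hka (empty_subset _), sum_empty, add_zero]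
    exact h1
  obtain ⟨V, hV, hmax⟩ := exists_max_image S card hne
  obtain ⟨-, hVu, hV1⟩ := mem_filter.1 hV
  have hsub : V ⊆ (Pk n k).powerset := hVu.1
  have hVne : V ≠ (Pk n k).powerset := by
    intro h
    have h3 := two_FL (V := (Pk n k).powerset) hk hka (Subset.refl _)
    rw [← h, h, vand hk hka, ← h] at h3
    have h4 := U_succ n a
    have h5 := U_succ n (a - 1)
    rw [show a - 1 + 1 = a by omega] at h5
    omega
  obtain ⟨τ0, hτ0, hτ0V⟩ : ∃ τ ∈ (Pk n k).powerset, τ ∉ V := by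
    by_contra hcon
    push Not at hcon
    exact hVne (Subset.antisymm hsub hcon)
  obtain ⟨τ, hτ, hτmax⟩ := exists_max_image ((Pk n k).powerset \ V) card
    ⟨τ0, mem_sdiff.2 ⟨hτ0, hτ0V⟩⟩
  obtain ⟨hτ1, hτ2⟩ := mem_sdiff.1 hτ
  have hUp : UpS n k (insert τ V) := by
    refine ⟨insert_subset hτ1 hsub, fun σ hσ τ' hτ' hστ => ?_⟩
    rw [mem_insert] at hσ ⊢
    rcases hσ with rfl | hσ
    · by_cases h : τ' = σ
      · exact Or.inl h
      · right
        by_contra hn
        have h3 := hτmax τ' (mem_sdiff.2 ⟨mem_powerset.2 hτ', hn⟩)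
        exact h (eq_of_subset_of_card_le hστ h3).symm
    · exact Or.inr (hVu.2 σ hσ τ' hτ' hστ)
  have hgt : 2 * M < 2 * (Fx n a k (insert τ V)).card + (Lx n a k (insert τ V)).card := by
    by_contra hcon
    push Not at hcon
    have h3 := hmax (insert τ V) (mem_filter.2 ⟨mem_univ _, hUp, hcon⟩)
    rw [card_insert_of_notMem hτ2] at h3
    omega
  refine ⟨V, hVu, hV1, ?_⟩
  have h3 := two_FL hk hka hUp.1
  have h4 := two_FL hk hka hsub
  rw [sum_insert hτ2] at h3
  have h5 : (n - k + 1).choose (a - τ.card) ≤ (n - k + 1).choose ((n - k + 1) / 2) :=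
    Nat.choose_le_middle _ _
  omega

theorem many_exact {n a k M : ℕ} (hk : k ≤ n) (hka : k + 2 ≤ a) (han : a + 2 ≤ n)
    (h : n + k + 1 ≤ 2 * a) (hc : (n - k + 1).choose ((n - k + 1) / 2) ≤ n.choose a)
    (h1 : U n (a + 1) + U n a ≤ 2 * M) (h2 : 2 * M < U n a + U n (a - 1)) :
    2 ^ (n.choose a - (n - k + 1).choose ((n - k + 1) / 2)) ≤
      (2 ^ n + 1) * (univ.filter fun A : Finset (Finset (Fin n)) => Inst A ∧ A.card = M).card := by
  obtain ⟨V, hV, h3, h4⟩ := exists_V (by omega : k ≤ n) (by omega : k + 1 ≤ a) h1 h2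
  have h5 := Lx_ge (by omega : k ≤ n) (by omega : k + 1 ≤ a) h hV.1
  have h6 := inst_exact (by omega : 2 ≤ a) han hV (M - (Fx n a k V).card)
  have hFM : (Fx n a k V).card + (M - (Fx n a k V).card) = M := by omega
  rw [hFM] at h6
  have hL : (Lx n a k V).card ≤ 2 ^ n := by
    refine (card_le_univ _).trans (le_of_eq ?_)
    rw [Fintype.card_finset, Fintype.card_fin]
  set F := (Fx n a k V).card with hF
  set L := (Lx n a k V).card with hLdef
  set c := (n - k + 1).choose ((n - k + 1) / 2) with hcdef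
  set j := M - F with hj
  obtain ⟨i, hi⟩ : ∃ i, i = L - j := ⟨_, rfl⟩
  have hjL : j ≤ L := by omega
  have h2i : 2 * i ≤ L := by omega
  have hci : n.choose a - c ≤ 2 * i := by omega
  have e1 : L.choose i = L.choose j := by
    rw [hi]
    exact Nat.choose_symm hjL
  calc 2 ^ (n.choose a - c) ≤ 2 ^ (2 * i) := Nat.pow_le_pow_right (by norm_num) hci
    _ = 4 ^ i := by rw [pow_mul]; norm_num
    _ ≤ (2 * i + 1) * Nat.centralBinom i := Nat.four_pow_le_two_mul_add_one_mul_central_binom i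
    _ ≤ (2 ^ n + 1) * L.choose i := by
        refine Nat.mul_le_mul (by omega) ?_
        rw [Nat.centralBinom]
        exact Nat.choose_le_choose i h2i
    _ ≤ _ := by
        rw [e1]
        exact Nat.mul_le_mul_left _ h6

end Pool.Agent.H15.AA
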