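import Pool.Agent.H15.AA.Ft
import Pool.Agent.H15.AA.Gc

/-! The theorem. -/

set_option autoImplicit false

open Finset

namespace Pool.Agent.H15.AA

theorem small_cube {n k : ℕ} (hk : 2 * k ≤ n) :
    2 ^ k * (n - k + 1).choose ((n - k + 1) / 2) ≤ 4 * n.choose (n / 2) := by
  rcases Nat.eq_zero_or_pos n with h0 | h0
  · subst h0
    have : k = 0 := by omega
    subst this
    decide
  have h1 := Cn_up (n - k + 1)
  have h2 := Cn_low (by omega : 1 ≤ n)
  obtain ⟨c, hc⟩ : ∃ c, c = (n - k + 1).choose ((n - k + 1) / 2) := ⟨_, rfl⟩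
  obtain ⟨C, hC⟩ : ∃ C, C = n.choose (n / 2) := ⟨_, rfl⟩
  rw [← hc] at h1 ⊢
  rw [← hC] at h2 ⊢
  have h3 : (2 ^ k * c) ^ 2 * (n - k + 1 + 1) ≤ (4 * C) ^ 2 * (n - k + 1 + 1) := by
    calc (2 ^ k * c) ^ 2 * (n - k + 1 + 1) = (2 ^ k) ^ 2 * (c ^ 2 * (n - k + 1 + 1)) := by ring
      _ ≤ (2 ^ k) ^ 2 * (2 ^ (n - k + 1)) ^ 2 := Nat.mul_le_mul_left _ h1
      _ = 4 * (2 ^ n) ^ 2 := by
          rw [← mul_pow, ← pow_add, show k + (n - k + 1) = n + 1 by omega, pow_succ]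
          ring
      _ ≤ 4 * (C ^ 2 * (2 * (n + 1))) := Nat.mul_le_mul_left _ h2
      _ = 4 * C ^ 2 * (2 * (n + 1)) := by ring
      _ ≤ 4 * C ^ 2 * (4 * (n - k + 1 + 1)) := Nat.mul_le_mul_left _ (by omega)
      _ = (4 * C) ^ 2 * (n - k + 1 + 1) := by ring
  exact (Nat.pow_le_pow_iff_left (by norm_num)).1 (Nat.le_of_mul_le_mul_right h3 (by omega))

theorem choose_dec {n l : ℕ} (h : n + 1 ≤ 2 * l) : n.choose l ≤ n.choose (l - 1) := by
  have h1 := Nat.choose_succ_right_eq n (l - 1)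
  rw [show l - 1 + 1 = l by omega] at h1
  have h2 : n.choose l * l ≤ n.choose (l - 1) * l := by
    rw [h1]
    exact Nat.mul_le_mul_left _ (by omega)
  exact Nat.le_of_mul_le_mul_right h2 (by omega)

/-- many instances with exactly `M` members -/
theorem exact_lower (t : ℕ) {η : ℝ} (hη : 0 < η) : ∃ N : ℕ, ∀ n : ℕ, N ≤ n → ∀ M l : ℕ,
    U n l ≤ M → M < U n (l - 1) → 5 * n + Nat.sqrt n ≤ 10 * l → 2 * l ≤ n + t * Nat.sqrt n →
    (2 : ℝ) ^ ((n.choose l : ℝ) - η * n.choose (n / 2)) ≤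
      (univ.filter fun A : Finset (Finset (Fin n)) => Inst A ∧ A.card = M).card := by
  obtain ⟨c', hc', N1, hN1⟩ := layer_up t
  obtain ⟨θ, hθ⟩ : ∃ θ : ℝ, θ = min (η / 2) c' := ⟨_, rfl⟩
  have hθ0 : 0 < θ := by rw [hθ]; exact lt_min (by linarith) hc'
  have hθ1 : θ ≤ η / 2 := by rw [hθ]; exact min_le_left _ _
  have hθ2 : θ ≤ c' := by rw [hθ]; exact min_le_right _ _
  obtain ⟨k, hk⟩ : ∃ k : ℕ, 4 / θ < 2 ^ k := pow_unbounded_of_one_lt _ (by norm_num)
  obtain ⟨Q, hQ⟩ := exists_nat_gt (2 / η)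
  refine ⟨N1 + (5 * k + 20 + 4 * (t + 1)) ^ 2 + 2 * k + 4 * Q + 10, ?_⟩
  intro n hn M l h1 h2 h3 h4
  obtain ⟨r, hr⟩ : ∃ r, r = Nat.sqrt n := ⟨_, rfl⟩
  rw [← hr] at h3 h4
  have hr5 : 5 * k + 20 + 4 * (t + 1) ≤ r := by
    rw [hr, Nat.le_sqrt']
    omega
  have hrr : r * r ≤ n := by rw [hr]; exact Nat.sqrt_le n
  have htr : 4 * (t * r) ≤ n := by nlinarith
  have hC0 : (0 : ℝ) < n.choose (n / 2) := by
    exact_mod_cast Nat.choose_pos (Nat.div_le_self n 2)
  -- the layer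
  obtain ⟨a, ha1, ha2, ha3, ha4, ha5⟩ : ∃ a : ℕ, a ≤ l ∧ l ≤ a + 1 ∧ n.choose l ≤ n.choose a ∧
      U n (a + 1) + U n a ≤ 2 * M ∧ 2 * M < U n a + U n (a - 1) := by
    by_cases hcase : 2 * M < U n l + U n (l - 1)
    · refine ⟨l, le_rfl, by omega, le_rfl, ?_, hcase⟩
      have := U_anti (n := n) (show l ≤ l + 1 by omega)
      omega
    · refine ⟨l - 1, by omega, by omega, choose_dec (by omega), ?_, ?_⟩
      · rw [show l - 1 + 1 = l by omega]
        omega
      · have := U_anti (n := n) (show l - 1 - 1 ≤ l - 1 by omega)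
        omega
  have hsc := small_cube (n := n) (k := k) (by omega)
  obtain ⟨c, hc⟩ : ∃ c, c = (n - k + 1).choose ((n - k + 1) / 2) := ⟨_, rfl⟩
  rw [← hc] at hsc
  have hcθ : (c : ℝ) ≤ θ * n.choose (n / 2) := by
    have e1 : (2 : ℝ) ^ k * c ≤ 4 * n.choose (n / 2) := by exact_mod_cast hsc
    rw [div_lt_iff₀ hθ0] at hk
    have e2 : (2 : ℝ) ^ k * c ≤ 2 ^ k * (θ * n.choose (n / 2)) := by
      refine e1.trans ?_
      rw [← mul_assoc]
      exact mul_le_mul_of_nonneg_right hk.le hC0.le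
    exact le_of_mul_le_mul_left e2 (by positivity)
  have hca : c' * n.choose (n / 2) ≤ n.choose a := hN1 n (by omega) a (by omega) (by rw [← hr]; omega)
  have hcc : c ≤ n.choose a := by
    have e1 : (c : ℝ) ≤ n.choose a := by
      refine hcθ.trans (le_trans ?_ hca)
      exact mul_le_mul_of_nonneg_right hθ2 hC0.le
    exact_mod_cast e1
  have hmany := many_exact (n := n) (a := a) (k := k) (M := M) (by omega) (by omega) (by omega)
    (by omega) (by rw [← hc]; exact hcc) ha4 ha5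
  rw [← hc] at hmany
  obtain ⟨q, hq⟩ : ∃ q, q = (univ.filter fun A : Finset (Finset (Fin n)) =>
    Inst A ∧ A.card = M).card := ⟨_, rfl⟩
  rw [← hq] at hmany ⊢
  have hm' : (2 : ℝ) ^ (n.choose a - c) ≤ (2 ^ n + 1) * (q : ℝ) := by exact_mod_cast hmany
  have hn1 : ((n : ℝ) + 1) ≤ η / 2 * n.choose (n / 2) := by
    have e1 : n.choose 2 ≤ n.choose (n / 2) := Nat.choose_le_middle 2 n
    rw [Nat.choose_two_right] at e1
    have e2 : Q * (n + 1) ≤ n * (n - 1) / 2 := by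
      rw [Nat.le_div_iff_mul_le (by norm_num)]
      obtain ⟨j, hj⟩ : ∃ j, n = j + 1 := ⟨n - 1, by omega⟩
      subst hj
      rw [Nat.add_sub_cancel]
      have : 4 * Q ≤ j := by omega
      nlinarith
    have e3 : (Q : ℝ) * (n + 1) ≤ n.choose (n / 2) := by exact_mod_cast e2.trans e1
    rw [div_lt_iff₀ hη] at hQ
    have e4 : (0 : ℝ) ≤ (n : ℝ) + 1 := by positivity
    nlinarith
  have hq2 : (2 : ℝ) ^ (n.choose a - c) ≤ 2 ^ (n + 1) * (q : ℝ) := by
    refine hm'.trans ?_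
    apply mul_le_mul_of_nonneg_right _ (Nat.cast_nonneg _)
    have : (1 : ℝ) ≤ 2 ^ n := one_le_pow₀ (by norm_num)
    rw [pow_succ]
    linarith
  have hle : (2 : ℝ) ^ (n.choose l : ℝ) ≤
      (2 : ℝ) ^ (η * n.choose (n / 2)) * (q : ℝ) := by
    calc (2 : ℝ) ^ (n.choose l : ℝ) ≤ (2 : ℝ) ^ ((n.choose a : ℕ) : ℝ) := by
          apply Real.rpow_le_rpow_of_exponent_le (by norm_num)
          exact_mod_cast ha3
      _ = 2 ^ (n.choose a - c) * 2 ^ c := by
          rw [Real.rpow_natCast, ← pow_add, Nat.sub_add_cancel hcc]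
      _ ≤ (2 ^ (n + 1) * (q : ℝ)) * 2 ^ c := mul_le_mul_of_nonneg_right hq2 (by positivity)
      _ = (2 : ℝ) ^ (((n + 1 : ℕ) : ℝ) + c) * q := by
          rw [Real.rpow_add (by norm_num), Real.rpow_natCast, Real.rpow_natCast]
          ring
      _ ≤ (2 : ℝ) ^ (η * n.choose (n / 2)) * q := by
          apply mul_le_mul_of_nonneg_right _ (Nat.cast_nonneg _)
          apply Real.rpow_le_rpow_of_exponent_le (by norm_num)
          push_cast
          have : θ * n.choose (n / 2) ≤ η / 2 * n.choose (n / 2) :=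
            mul_le_mul_of_nonneg_right hθ1 hC0.le
          linarith
  rw [Real.rpow_sub (by norm_num), div_le_iff₀ (by positivity)]
  linarith

/-- For every `δ > 0` there are `c > 0` and `N` such that for all `n ≥ N` and all `M₁ ≤ M₂` with
`M₂ ≥ δ 2 ^ n`: among the separating union-closed families with universe `Fin n`, not the power set, that
have between `M₁` and `M₂` members, the proportion of those in which no point lies in more than half
of the members is at most `2 ^ (-c (n choose n / 2))`. -/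
theorem almost_all {δ : ℝ} (hδ : 0 < δ) : ∃ c : ℝ, 0 < c ∧ ∃ N : ℕ, ∀ n : ℕ, N ≤ n →
    ∀ M₁ M₂ : ℕ, M₁ ≤ M₂ → δ * 2 ^ n ≤ M₂ →
      ((univ.filter fun A : Finset (Finset (Fin n)) =>
        Inst A ∧ M₁ ≤ A.card ∧ A.card ≤ M₂ ∧ Viol A).card : ℝ) ≤
        (2 : ℝ) ^ (-(c * n.choose (n / 2))) *
          (univ.filter fun A : Finset (Finset (Fin n)) =>
            Inst A ∧ M₁ ≤ A.card ∧ A.card ≤ M₂).card := by
  obtain ⟨t, c, hc, N, hN⟩ := few_violating (δ := min δ (1 / 3)) (lt_min hδ (by norm_num))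
    (min_le_right _ _)
  obtain ⟨N2, hN2⟩ := exact_lower t (η := c / 2) (by linarith)
  refine ⟨c / 2, by linarith, N + N2 + 16, ?_⟩
  intro n hn M₁ M₂ h12 hM
  obtain ⟨M', hM'⟩ : ∃ M' : ℕ, M' = min M₂ (2 * 2 ^ n / 5) := ⟨_, rfl⟩
  have hM'1 : 5 * M' ≤ 2 * 2 ^ n := by omega
  have hM'2 : M' ≤ M₂ := by omega
  have h2n : 16 ≤ 2 ^ n := by
    calc 16 = 2 ^ 4 := by norm_num
      _ ≤ 2 ^ n := Nat.pow_le_pow_right (by norm_num) (by omega)
  have hM'3 : min δ (1 / 3) * 2 ^ n ≤ M' := by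
    rw [hM']
    push_cast
    apply le_min
    · refine le_trans ?_ hM
      exact mul_le_mul_of_nonneg_right (min_le_left _ _) (by positivity)
    · have h1 : 2 ^ n ≤ 3 * (2 * 2 ^ n / 5) := by omega
      have h2 : (2 : ℝ) ^ n ≤ 3 * ((2 * 2 ^ n / 5 : ℕ) : ℝ) := by exact_mod_cast h1
      have h3 : min δ (1 / 3) * 2 ^ n ≤ 1 / 3 * 2 ^ n :=
        mul_le_mul_of_nonneg_right (min_le_right _ _) (by positivity)
      linarith
  have hdense : ∀ A : Finset (Finset (Fin n)), Inst A → Viol A → 5 * A.card < 2 * 2 ^ n := by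
    intro A hA1 hA3
    by_contra hc
    have hne : A.Nonempty := by
      rw [Finset.nonempty_iff_ne_empty]
      rintro rfl
      have h3 := hA1.2.1
      rw [Finset.sup_empty] at h3
      have h4 : (⟨0, by omega⟩ : Fin n) ∈ (⊥ : Finset (Fin n)) := by
        rw [h3]
        exact Finset.mem_univ _
      exact absurd h4 (Finset.notMem_empty _)
    obtain ⟨x, hx⟩ := dense_inst hA1 (by omega) hne
    have := hA3 x
    omega
  by_cases hcase : M' < M₁
  · have h0 : (univ.filter fun A : Finset (Finset (Fin n)) =>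
        Inst A ∧ M₁ ≤ A.card ∧ A.card ≤ M₂ ∧ Viol A) = ∅ := by
      apply Finset.filter_false_of_mem
      intro A _ hA
      have := hdense A hA.1 hA.2.2.2
      have := hA.2.1
      omega
    rw [h0, Finset.card_empty, Nat.cast_zero]
    positivity
  push Not at hcase
  obtain ⟨l, hl0, hl1, hl2, hl3, hl4, hcnt⟩ := hN n (by omega) M' hM'3 hM'1
  have h2 : (univ.filter fun A : Finset (Finset (Fin n)) =>
      Inst A ∧ M₁ ≤ A.card ∧ A.card ≤ M₂ ∧ Viol A) ⊆
      univ.filter fun A : Finset (Finset (Fin n)) => UC A ∧ A.card ≤ M' ∧ Viol A := by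
    intro A hA
    obtain ⟨hA1, -, hA2, hA3⟩ := (Finset.mem_filter.1 hA).2
    have := hdense A hA1 hA3
    exact Finset.mem_filter.2 ⟨Finset.mem_univ _, hA1.1, by omega, hA3⟩
  have h3 : (2 : ℝ) ^ ((n.choose l : ℝ) - c / 2 * n.choose (n / 2)) ≤
      ((univ.filter fun A : Finset (Finset (Fin n)) =>
        Inst A ∧ M₁ ≤ A.card ∧ A.card ≤ M₂).card : ℝ) := by
    refine (hN2 n (by omega) M' l hl1 hl2 hl3 hl4).trans ?_
    have h4 : (univ.filter fun A : Finset (Finset (Fin n)) => Inst A ∧ A.card = M') ⊆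
        univ.filter fun A : Finset (Finset (Fin n)) => Inst A ∧ M₁ ≤ A.card ∧ A.card ≤ M₂ := by
      intro A hA
      obtain ⟨hA1, hA2⟩ := (Finset.mem_filter.1 hA).2
      exact Finset.mem_filter.2 ⟨Finset.mem_univ _, hA1, by omega, by omega⟩
    exact_mod_cast Finset.card_le_card h4
  calc ((univ.filter fun A : Finset (Finset (Fin n)) =>
        Inst A ∧ M₁ ≤ A.card ∧ A.card ≤ M₂ ∧ Viol A).card : ℝ) ≤
      ((univ.filter fun A : Finset (Finset (Fin n)) => UC A ∧ A.card ≤ M' ∧ Viol A).card : ℝ) := by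
        exact_mod_cast Finset.card_le_card h2
    _ ≤ (2 : ℝ) ^ (-(c * n.choose (n / 2))) * 2 ^ (n.choose l) := hcnt
    _ = (2 : ℝ) ^ (-(c / 2 * n.choose (n / 2))) *
        (2 : ℝ) ^ ((n.choose l : ℝ) - c / 2 * n.choose (n / 2)) := by
        rw [← Real.rpow_natCast, ← Real.rpow_add (by norm_num), ← Real.rpow_add (by norm_num)]
        congr 1
        ring
    _ ≤ _ := mul_le_mul_of_nonneg_left h3 (by positivity)

end Pool.Agent.H15.AA
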