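import Pool.Agent.H15.AA.Defs

/-!
# Row Wa: the walk

Proofs. `walk_ind`: strong induction on `Z.card` (`Finset.card_erase_lt_of_mem`).
`hits_mem`: cases on `Z.card`, both branches of `hit` give `1`. `hits_not`: if `Z = ∅` both sides are
`0` (empty sum); otherwise `Z.card = k + 1`, `hit S (k + 1) Z` is the second branch, and
`(Z.erase x).card = k` for `x ∈ Z`. All further statements by `walk_ind`, with the cases `Z ∈ S`
(`hits_mem`), `Z ∉ S` (`hits_not`) and `nxt` unfolded: `nxt` is monotone in the values at the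
`Z.erase x` (`Finset.sum_le_sum`, `div_le_div_of_nonneg_right`), `(∑ x ∈ Z, 1) / Z.card ≤ 1`, and
`nxt` is additive. `hits_zero`: `Z ∉ S`, and the hypothesis holds for `Z.erase x`.
`nxt_eq`: `Z ∉ S.erase Z`, so the right side is `nxt (S.erase Z) Z`, and `hits_congr` for the
`Z.erase x` (a subset of `Z.erase x` is not `Z`).
-/

set_option autoImplicit false

open Finset

namespace Pool.Agent.H15.AA

variable {n : ℕ}

theorem walk_ind {P : Finset (Fin n) → Prop} (h : ∀ Z, (∀ x ∈ Z, P (Z.erase x)) → P Z) (Z : Finset (Fin n)) :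
    P Z := by
  induction Z using Finset.strongInduction with
  | H Z ih => exact h Z fun x hx => ih _ (Finset.erase_ssubset hx)

theorem hits_mem {S : Finset (Finset (Fin n))} {Z : Finset (Fin n)} (h : Z ∈ S) : hits S Z = 1 := by
  unfold hits
  cases Z.card with
  | zero => exact if_pos h
  | succ k => exact if_pos h

theorem hits_not {S : Finset (Finset (Fin n))} {Z : Finset (Fin n)} (h : Z ∉ S) :
    hits S Z = nxt S Z := by
  unfold hits nxt
  cases hk : Z.card with
  | zero =>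
    rw [Nat.cast_zero, div_zero]
    exact if_neg h
  | succ k =>
    have e1 : hit S (k + 1) Z = (∑ x ∈ Z, hit S k (Z.erase x)) / Z.card := if_neg h
    rw [e1, hk]
    congr 1
    refine Finset.sum_congr rfl fun x hx => ?_
    have e2 : (Z.erase x).card = k := by
      rw [Finset.card_erase_of_mem hx, hk]
      rfl
    unfold hits
    rw [e2]

theorem Wa_nxt_nonneg {S : Finset (Finset (Fin n))} {Z : Finset (Fin n)}
    (h : ∀ x ∈ Z, 0 ≤ hits S (Z.erase x)) : 0 ≤ nxt S Z :=
  div_nonneg (Finset.sum_nonneg h) (Nat.cast_nonneg _)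

theorem Wa_nxt_le_one {S : Finset (Finset (Fin n))} {Z : Finset (Fin n)}
    (h : ∀ x ∈ Z, hits S (Z.erase x) ≤ 1) : nxt S Z ≤ 1 := by
  refine div_le_one_of_le₀ ?_ (Nat.cast_nonneg _)
  refine (Finset.sum_le_sum h).trans (le_of_eq ?_)
  rw [Finset.sum_const, nsmul_eq_mul, mul_one]

theorem Wa_nxt_le {S T : Finset (Finset (Fin n))} {Z : Finset (Fin n)}
    (h : ∀ x ∈ Z, hits S (Z.erase x) ≤ hits T (Z.erase x)) : nxt S Z ≤ nxt T Z :=
  div_le_div_of_nonneg_right (Finset.sum_le_sum h) (Nat.cast_nonneg _)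

theorem hits_nonneg (S : Finset (Finset (Fin n))) (Z : Finset (Fin n)) : 0 ≤ hits S Z := by
  refine walk_ind (P := fun Z => 0 ≤ hits S Z) (fun Z ih => ?_) Z
  by_cases h : Z ∈ S
  · rw [hits_mem h]
    exact zero_le_one
  · rw [hits_not h]
    exact Wa_nxt_nonneg ih

theorem hits_le_one (S : Finset (Finset (Fin n))) (Z : Finset (Fin n)) : hits S Z ≤ 1 := by
  refine walk_ind (P := fun Z => hits S Z ≤ 1) (fun Z ih => ?_) Z
  by_cases h : Z ∈ S
  · rw [hits_mem h]
  · rw [hits_not h]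
    exact Wa_nxt_le_one ih

theorem nxt_nonneg (S : Finset (Finset (Fin n))) (Z : Finset (Fin n)) : 0 ≤ nxt S Z :=
  Wa_nxt_nonneg fun _ _ => hits_nonneg S _

theorem nxt_le_one (S : Finset (Finset (Fin n))) (Z : Finset (Fin n)) : nxt S Z ≤ 1 :=
  Wa_nxt_le_one fun _ _ => hits_le_one S _

theorem hits_congr {S T : Finset (Finset (Fin n))} (Z : Finset (Fin n))
    (h : ∀ Y, Y ⊆ Z → (Y ∈ S ↔ Y ∈ T)) : hits S Z = hits T Z := by
  revert h
  refine walk_ind (P := fun Z => (∀ Y, Y ⊆ Z → (Y ∈ S ↔ Y ∈ T)) → hits S Z = hits T Z)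
    (fun Z ih h => ?_) Z
  by_cases hZ : Z ∈ S
  · rw [hits_mem hZ, hits_mem ((h Z (Finset.Subset.refl Z)).1 hZ)]
  · have hZ' : Z ∉ T := fun hh => hZ ((h Z (Finset.Subset.refl Z)).2 hh)
    rw [hits_not hZ, hits_not hZ']
    unfold nxt
    congr 1
    refine Finset.sum_congr rfl fun x hx => ?_
    exact ih x hx fun Y hY => h Y (hY.trans (Finset.erase_subset x Z))

theorem hits_mono {S T : Finset (Finset (Fin n))} (h : S ⊆ T) (Z : Finset (Fin n)) :
    hits S Z ≤ hits T Z := by
  refine walk_ind (P := fun Z => hits S Z ≤ hits T Z) (fun Z ih => ?_) Z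
  by_cases hZ' : Z ∈ T
  · rw [hits_mem hZ']
    exact hits_le_one S Z
  · have hZ : Z ∉ S := fun hh => hZ' (h hh)
    rw [hits_not hZ, hits_not hZ']
    exact Wa_nxt_le ih

theorem nxt_mono {S T : Finset (Finset (Fin n))} (h : S ⊆ T) (Z : Finset (Fin n)) :
    nxt S Z ≤ nxt T Z :=
  Wa_nxt_le fun _ _ => hits_mono h _

theorem hits_union (S T : Finset (Finset (Fin n))) (Z : Finset (Fin n)) :
    hits (S ∪ T) Z ≤ hits S Z + hits T Z := by
  refine walk_ind (P := fun Z => hits (S ∪ T) Z ≤ hits S Z + hits T Z) (fun Z ih => ?_) Z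
  by_cases h : Z ∈ S ∪ T
  · rw [hits_mem h]
    rcases Finset.mem_union.1 h with hS | hT
    · rw [hits_mem hS]
      linarith [hits_nonneg T Z]
    · rw [hits_mem hT]
      linarith [hits_nonneg S Z]
  · have h' := h
    rw [Finset.mem_union, not_or] at h'
    rw [hits_not h, hits_not h'.1, hits_not h'.2]
    unfold nxt
    rw [← add_div, ← Finset.sum_add_distrib]
    exact div_le_div_of_nonneg_right (Finset.sum_le_sum ih) (Nat.cast_nonneg _)

theorem hits_zero {S : Finset (Finset (Fin n))} {Z : Finset (Fin n)} (h : ∀ Y ∈ S, ¬ Y ⊆ Z) :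
    hits S Z = 0 := by
  revert h
  refine walk_ind (P := fun Z => (∀ Y ∈ S, ¬ Y ⊆ Z) → hits S Z = 0) (fun Z ih h => ?_) Z
  have hZ : Z ∉ S := fun hh => h Z hh (Finset.Subset.refl Z)
  rw [hits_not hZ]
  unfold nxt
  have e : ∑ x ∈ Z, hits S (Z.erase x) = 0 := by
    refine Finset.sum_eq_zero fun x hx => ?_
    exact ih x hx fun Y hY hYZ => h Y hY (hYZ.trans (Finset.erase_subset x Z))
  rw [e, zero_div]

theorem nxt_eq (S : Finset (Finset (Fin n))) (Z : Finset (Fin n)) :
    nxt S Z = hits (S.erase Z) Z := by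
  rw [hits_not (Finset.notMem_erase Z S)]
  unfold nxt
  congr 1
  refine Finset.sum_congr rfl fun x hx => ?_
  refine hits_congr _ fun Y hY => ?_
  rw [Finset.mem_erase]
  refine ⟨fun hYS => ⟨?_, hYS⟩, fun hh => hh.2⟩
  rintro rfl
  exact Finset.notMem_erase x Y (hY hx)

end Pool.Agent.H15.AA
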