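import Pool.Agent.H15.AA.Wc

/-!
# Row Wd: the walk from a set with a private element

Proofs. `hits_notmem`: `walk_ind` on `Z` (for all `Z` with `z ∈ Z`, `l0 ≤ Z.card`): `Z ∉ T`, so
`hits T Z = nxt T Z`. If `Z.card = l0` then `hits T (Z.erase x) = 0` for `x ∈ Z` (`hits_zero`, sizes).
If `Z.card > l0`: the term `x = z` is at most `1`; for `x ≠ z`, `z ∈ Z.erase x` and
`(Z.erase x).card = Z.card - 1 ≥ l0`, so the term is at most
`(Z.card - 1 - l0) / (Z.card - 1)`; there are `Z.card - 1` such `x`, so the sum is at most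
`1 + (Z.card - 1 - l0) = Z.card - l0` (if `Z.card = 1` there is no such `x`, and `l0 = 0`).
`choose_ge`: induction or `Nat.choose_symm` and monotonicity (`C(n,k) ≥ n` for `1 ≤ k ≤ n - 1`).
`nxt_le`: `nxt S X = hits (S.erase X) X` (`nxt_eq`). By `hits_congr` `S.erase X` may be replaced by its
members `Y ⊆ X`, that is by `T₁ ∪ T₂`, `T₁ = {Y ∈ S | z ∈ Y, Y ⊂ X}`, `T₂ = {Y ∈ S | z ∉ Y}` (inside
`X`, note `X ∉ T₂` as `z ∈ X`). `hits_union`; `hits T₂ X ≤ (X.card - l0) / X.card` (`hits_notmem`);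
`hits T₁ X ≤ vw T₁ X` (`hits_le_vw`), and every term of `vw T₁ X` is at most `1 / X.card`, as
`1 ≤ Y.card ≤ X.card - 1` (`choose_ge`); there are at most `d` terms.
-/

set_option autoImplicit false

open Finset

namespace Pool.Agent.H15.AA

variable {n : ℕ}

theorem hits_notmem {T : Finset (Finset (Fin n))} {z : Fin n} {l0 : ℕ}
    (hT : ∀ Y ∈ T, z ∉ Y ∧ l0 ≤ Y.card) {Z : Finset (Fin n)} (hz : z ∈ Z) (hl : l0 ≤ Z.card) :
    hits T Z ≤ ((Z.card : ℝ) - l0) / Z.card := by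
  revert hz hl
  refine walk_ind (P := fun Z => z ∈ Z → l0 ≤ Z.card → hits T Z ≤ ((Z.card : ℝ) - l0) / Z.card)
    (fun Z ih hz hl => ?_) Z
  have hZT : Z ∉ T := fun h => (hT Z h).1 hz
  have hpos : 0 < Z.card := Finset.card_pos.2 ⟨z, hz⟩
  rw [hits_not hZT]
  unfold nxt
  refine div_le_div_of_nonneg_right ?_ (Nat.cast_nonneg _)
  rcases hl.eq_or_lt with heq | hlt
  · have h0 : ∑ x ∈ Z, hits T (Z.erase x) = 0 := by
      refine Finset.sum_eq_zero fun x hx => hits_zero fun Y hY hYZ => ?_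
      have h1 := (hT Y hY).2
      have h2 := Finset.card_le_card hYZ
      rw [Finset.card_erase_of_mem hx] at h2
      omega
    rw [h0, ← heq, sub_self]
  · rw [← Finset.add_sum_erase Z _ hz]
    have h1 : hits T (Z.erase z) ≤ 1 := hits_le_one _ _
    have h2 : ∑ x ∈ Z.erase z, hits T (Z.erase x) ≤
        ∑ _x ∈ Z.erase z, (((Z.card : ℝ) - 1 - l0) / ((Z.card : ℝ) - 1)) := by
      refine Finset.sum_le_sum fun x hx => ?_
      have hxz : x ≠ z := Finset.ne_of_mem_erase hx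
      have hxZ : x ∈ Z := Finset.mem_of_mem_erase hx
      have h3 := ih x hxZ (Finset.mem_erase.2 ⟨hxz.symm, hz⟩)
        (by rw [Finset.card_erase_of_mem hxZ]; omega)
      rw [Finset.card_erase_of_mem hxZ, Nat.cast_sub hpos, Nat.cast_one] at h3
      exact h3
    rw [Finset.sum_const, nsmul_eq_mul, Finset.card_erase_of_mem hz, Nat.cast_sub hpos, Nat.cast_one] at h2
    have h4 : ((Z.card : ℝ) - 1) * (((Z.card : ℝ) - 1 - l0) / ((Z.card : ℝ) - 1)) ≤
        (Z.card : ℝ) - 1 - l0 := by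
      have h5 : (l0 : ℝ) + 1 ≤ Z.card := by exact_mod_cast hlt
      by_cases hc : (Z.card : ℝ) - 1 = 0
      · rw [hc, zero_mul]
        linarith
      · rw [mul_div_cancel₀ _ hc]
    linarith

theorem choose_ge {a k : ℕ} (h1 : 1 ≤ k) (h2 : k < a) : a ≤ a.choose k := by
  induction a with
  | zero => omega
  | succ a ih =>
    obtain ⟨j, rfl⟩ : ∃ j, k = j + 1 := ⟨k - 1, by omega⟩
    rw [Nat.choose_succ_succ']
    rcases Nat.lt_or_ge (j + 1) a with h | h
    · have h3 := ih h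
      have h4 : 0 < a.choose j := Nat.choose_pos (by omega)
      omega
    · have h5 : a = j + 1 := by omega
      subst h5
      rw [Nat.choose_self, Nat.choose_succ_self_right]

theorem nxt_le {S : Finset (Finset (Fin n))} {X : Finset (Fin n)} {z : Fin n} {l0 d : ℕ} (hz : z ∈ X)
    (hl : l0 ≤ X.card) (hS : ∀ Y ∈ S, l0 ≤ Y.card)
    (hd : (S.filter fun Y => z ∈ Y ∧ Y ⊂ X).card ≤ d) :
    nxt S X ≤ (d + ((X.card : ℝ) - l0)) / X.card := by
  have hpos : 0 < X.card := Finset.card_pos.2 ⟨z, hz⟩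
  have hpos' : (0 : ℝ) < X.card := by exact_mod_cast hpos
  rw [nxt_eq, hits_congr (T := (S.filter fun Y => z ∈ Y ∧ Y ⊂ X) ∪ (S.filter fun Y => z ∉ Y)) X ?_]
  · refine (hits_union _ _ _).trans ?_
    rw [add_div]
    refine add_le_add ?_ (hits_notmem (fun Y hY => ?_) hz hl)
    · refine (hits_le_vw _ _).trans ?_
      unfold vw
      have h1 : ∀ Y ∈ (S.filter fun Y => z ∈ Y ∧ Y ⊂ X).filter (fun Y => Y ⊆ X),
          1 / (X.card.choose Y.card : ℝ) ≤ 1 / (X.card : ℝ) := by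
        intro Y hY
        have h2 := (Finset.mem_filter.1 (Finset.mem_filter.1 hY).1).2
        have h3 : X.card ≤ X.card.choose Y.card :=
          choose_ge (Finset.card_pos.2 ⟨z, h2.1⟩) (Finset.card_lt_card h2.2)
        exact one_div_le_one_div_of_le hpos' (by exact_mod_cast h3)
      refine (Finset.sum_le_sum h1).trans ?_
      rw [Finset.sum_const, nsmul_eq_mul, mul_one_div]
      refine div_le_div_of_nonneg_right ?_ hpos'.le
      have h4 := (Finset.card_filter_le (S.filter fun Y => z ∈ Y ∧ Y ⊂ X) (fun Y => Y ⊆ X)).trans hd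
      exact_mod_cast h4
    · have h2 := Finset.mem_filter.1 hY
      exact ⟨h2.2, hS Y h2.1⟩
  · intro Y hYX
    rw [Finset.mem_erase, Finset.mem_union, Finset.mem_filter, Finset.mem_filter]
    constructor
    · rintro ⟨hne, hYS⟩
      by_cases hzY : z ∈ Y
      · exact Or.inl ⟨hYS, hzY, hYX.ssubset_of_ne hne⟩
      · exact Or.inr ⟨hYS, hzY⟩
    · rintro (⟨hYS, _, hss⟩ | ⟨hYS, hzY⟩)
      · exact ⟨hss.ne, hYS⟩
      · exact ⟨fun h => hzY (h ▸ hz), hYS⟩

end Pool.Agent.H15.AA
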