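import Pool.Agent.H15.AA.Wc
import Pool.Agent.H15.AA.Bi
import Pool.Agent.H15.AA.Va

/-!
# Row Zs: the missing sets of a thin family

Proof. `r = Nat.sqrt n`, `r ^ 2 ≤ n < (r + 1) ^ 2` (`Nat.sqrt_le'`, `Nat.lt_succ_sqrt'`), `r ≥ 20` for
`n ≥ 400`; `h = r / 40`; `T` the filter, `C = n.choose (n / 2)`. From `Cn_up`: `(r C) ^ 2 ≤
C ^ 2 (n + 1) ≤ (2 ^ n) ^ 2`, so `r C ≤ 2 ^ n` (real or natural numbers, `abs_le_of_sq_le` /
`pow_le_pow_left`). (1) `half_up`: `#{n + 2 h ≤ 2 |X|} ≥ 2 ^ n / 2 - h C ≥ 2 ^ n / 2 - 2 ^ n / 40`.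
(2) `cheb` with `t = 6 r + 1`: `#{n + 6 r + 1 ≤ 2 |X|} ≤ n 2 ^ n / (6 r + 1) ^ 2 ≤
(r + 1) ^ 2 / (6 r + 1) ^ 2 * 2 ^ n ≤ 0.0302 * 2 ^ n`, as `(r + 1) / (6 r + 1) ≤ 21 / 121`.
(3) so `T.card ≥ (1/2 - 1/40 - 0.0302 - 2/5) 2 ^ n ≥ 2 ^ n / 25`.
(4) `vw_univ`: `vw T univ ≥ T.card / C ≥ (2 ^ n / 25) / C ≥ r / 25`.
(5) `vw_le_mul` with `lo = (n + 1) / 2`, `L = 3 r + 1`: `vw T univ ≤ (3 r + 1) hits T univ`, so
`hits T univ ≥ (r / 25) / (4 r) = 1 / 100`.
-/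

set_option autoImplicit false

open Finset

namespace Pool.Agent.H15.AA

theorem Zs_rC (n : ℕ) : ((Nat.sqrt n : ℕ) : ℝ) * (n.choose (n / 2) : ℝ) ≤ 2 ^ n := by
  have h1 : Nat.sqrt n * n.choose (n / 2) ≤ 2 ^ n := by
    by_contra hcon
    push Not at hcon
    have h2 : (2 ^ n) ^ 2 < (Nat.sqrt n * n.choose (n / 2)) ^ 2 :=
      Nat.pow_lt_pow_left hcon two_ne_zero
    have h3 := Cn_up n
    have h4 : (Nat.sqrt n) ^ 2 ≤ n := Nat.sqrt_le' n
    have h5 : (Nat.sqrt n * n.choose (n / 2)) ^ 2 ≤ (n.choose (n / 2)) ^ 2 * (n + 1) := by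
      rw [mul_pow, mul_comm]
      exact Nat.mul_le_mul_left _ (by omega)
    omega
  exact_mod_cast h1

theorem hits_miss {n : ℕ} (hn : 400 ≤ n) (A : Finset (Finset (Fin n))) (hA : 5 * A.card < 2 * 2 ^ n) :
    (1 / 100 : ℝ) ≤ hits (univ.filter fun Z : Finset (Fin n) => Z ∉ A ∧
      n + 2 * (Nat.sqrt n / 40) ≤ 2 * Z.card ∧ 2 * Z.card ≤ n + 6 * Nat.sqrt n) univ := by
  set r := Nat.sqrt n with hr
  set h := r / 40 with hh
  set T := univ.filter fun Z : Finset (Fin n) => Z ∉ A ∧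
      n + 2 * h ≤ 2 * Z.card ∧ 2 * Z.card ≤ n + 6 * r with hT
  have hr20 : 20 ≤ r := by
    rw [hr, Nat.le_sqrt]
    omega
  have hrn : n < (r + 1) ^ 2 := Nat.lt_succ_sqrt' n
  have hrC := Zs_rC n
  rw [← hr] at hrC
  have hC0 : 0 < n.choose (n / 2) := Nat.choose_pos (Nat.div_le_self n 2)
  have hup := half_up n h
  have hch := cheb n (6 * r + 1)
  set F1 := univ.filter fun X : Finset (Fin n) => n + 2 * h ≤ 2 * X.card with hF1
  set F2 := univ.filter fun X : Finset (Fin n) =>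
      n + (6 * r + 1) ≤ 2 * X.card ∨ 2 * X.card + (6 * r + 1) ≤ n with hF2
  have hsub : F1 ⊆ (T ∪ A) ∪ F2 := by
    intro X hX
    rw [hF1, mem_filter] at hX
    by_cases hXA : X ∈ A
    · exact mem_union_left _ (mem_union_right _ hXA)
    by_cases hX2 : n + (6 * r + 1) ≤ 2 * X.card
    · exact mem_union_right _ (mem_filter.2 ⟨mem_univ _, Or.inl hX2⟩)
    · exact mem_union_left _ (mem_union_left _ (mem_filter.2 ⟨mem_univ _, hXA, hX.2, by omega⟩))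
  have hcard : F1.card ≤ T.card + A.card + F2.card :=
    (card_le_card hsub).trans ((card_union_le _ _).trans
      (Nat.add_le_add_right (card_union_le _ _) _))
  -- real numbers
  have e1 : (2 : ℝ) ^ n ≤ 2 * (F1.card : ℝ) + 2 * h * (n.choose (n / 2) : ℝ) := by exact_mod_cast hup
  have e2 : (6 * (r : ℝ) + 1) ^ 2 * (F2.card : ℝ) ≤ n * 2 ^ n := by exact_mod_cast hch
  have e3 : (F1.card : ℝ) ≤ T.card + A.card + F2.card := by exact_mod_cast hcard
  have e4 : 5 * (A.card : ℝ) ≤ 2 * 2 ^ n := by exact_mod_cast hA.le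
  have hC0' : (0 : ℝ) < (n.choose (n / 2) : ℝ) := by exact_mod_cast hC0
  have e5 : 40 * (h : ℝ) ≤ r := by
    have : 40 * h ≤ r := by omega
    exact_mod_cast this
  have e6 : 40 * (h : ℝ) * (n.choose (n / 2) : ℝ) ≤ 2 ^ n :=
    (mul_le_mul_of_nonneg_right e5 hC0'.le).trans hrC
  have hr20' : (20 : ℝ) ≤ r := by exact_mod_cast hr20
  have e7 : (n : ℝ) ≤ ((r : ℝ) + 1) ^ 2 := by exact_mod_cast hrn.le
  have hN : (0 : ℝ) < 2 ^ n := by positivity
  have e8 : 14641 * (F2.card : ℝ) ≤ 441 * 2 ^ n := by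
    have a1 : (6 * (r : ℝ) + 1) ^ 2 * (14641 * (F2.card : ℝ)) ≤
        (6 * (r : ℝ) + 1) ^ 2 * (441 * 2 ^ n) := by
      have a2 : 14641 * ((r : ℝ) + 1) ^ 2 ≤ 441 * (6 * (r : ℝ) + 1) ^ 2 := by
        have a3 : 121 * ((r : ℝ) + 1) ≤ 21 * (6 * (r : ℝ) + 1) := by linarith
        have a4 := pow_le_pow_left₀ (by positivity) a3 2
        rw [mul_pow, mul_pow] at a4
        norm_num at a4 ⊢
        exact a4
      calc (6 * (r : ℝ) + 1) ^ 2 * (14641 * (F2.card : ℝ))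
          = 14641 * ((6 * (r : ℝ) + 1) ^ 2 * (F2.card : ℝ)) := by ring
        _ ≤ 14641 * ((n : ℝ) * 2 ^ n) := by linarith
        _ ≤ 14641 * (((r : ℝ) + 1) ^ 2 * 2 ^ n) := by
            have := mul_le_mul_of_nonneg_right e7 hN.le
            linarith
        _ = 14641 * ((r : ℝ) + 1) ^ 2 * 2 ^ n := by ring
        _ ≤ 441 * (6 * (r : ℝ) + 1) ^ 2 * 2 ^ n := mul_le_mul_of_nonneg_right a2 hN.le
        _ = (6 * (r : ℝ) + 1) ^ 2 * (441 * 2 ^ n) := by ring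
    exact le_of_mul_le_mul_left a1 (by positivity)
  have e9 : (2 : ℝ) ^ n / 25 ≤ T.card := by linarith
  -- the expected number of visits
  have hvw : (r : ℝ) / 25 ≤ vw T univ := by
    rw [vw_univ]
    have b1 : ∀ Y ∈ T, 1 / (n.choose (n / 2) : ℝ) ≤ 1 / (n.choose Y.card : ℝ) := by
      intro Y _
      have hY : Y.card ≤ n := by
        have := card_le_univ Y
        rwa [Fintype.card_fin] at this
      have b2 : 0 < n.choose Y.card := Nat.choose_pos hY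
      have b3 : n.choose Y.card ≤ n.choose (n / 2) := Nat.choose_le_middle _ _
      exact one_div_le_one_div_of_le (by exact_mod_cast b2) (by exact_mod_cast b3)
    refine le_trans ?_ (sum_le_sum b1)
    rw [sum_const, nsmul_eq_mul, mul_one_div, le_div_iff₀ hC0']
    calc (r : ℝ) / 25 * (n.choose (n / 2) : ℝ) = r * (n.choose (n / 2) : ℝ) / 25 := by ring
      _ ≤ 2 ^ n / 25 := by linarith
      _ ≤ T.card := e9
  have hle := vw_le_mul (S := T) (lo := (n + 1) / 2) (L := 3 * r + 1) (by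
    intro Y hY
    rw [hT, mem_filter] at hY
    obtain ⟨_, _, h1, h2⟩ := hY
    constructor <;> omega) univ
  have hfin : (r : ℝ) / 25 ≤ (3 * (r : ℝ) + 1) * hits T univ := by
    refine hvw.trans (hle.trans (le_of_eq ?_))
    push_cast
    ring
  have hh0 := hits_nonneg T univ
  have hr0 : (0 : ℝ) < r := by linarith
  have hfin2 : (r : ℝ) / 25 ≤ (4 * (r : ℝ)) * hits T univ := by
    refine hfin.trans (mul_le_mul_of_nonneg_right (by linarith) hh0)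
  have hfin3 : (r : ℝ) * (1 / 100) ≤ r * hits T univ := by linarith
  exact le_of_mul_le_mul_left hfin3 hr0

end Pool.Agent.H15.AA
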